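import Pool.Agent.H23.CG.Def

/-!
APC (pure counting). `R2` with `p' = p` says `#{r | u s r p = w s r p} = 1` (`tr c p ≠ p`), for all `s`, `p`. So there are
`3 * 4 = 12` triples `(s, r, p)` with `u s r p = w s r p`; map `(s, r, p)` to `(r, z) = (r, u s r p)`. For every `(r, z)` (12 of them) the number of `s` with `∃ p, u s r p = z ∧ w s r p = z` is at
least 1 (hypothesis `h1`), and the total is 12 (for fixed `s, r` the map `p ↦ u s r p` is injective), so each is exactly 1.
-/
set_option autoImplicit false
namespace Pool.Agent.H23.CG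

theorem ap_count (u w : Fin 3 → Fin 3 → Fin 4 → Fin 4) (b : Fin 3 → Fin 3)
    (ui : ∀ s r, Function.Injective (u s r))
    (R2 : ∀ s p p', (Finset.univ.filter fun r => u s r p = w s r p').card =
      (if p' = p then 1 else 0) + (if p' = tr 2 p then 1 else 0) + (if p' = tr (b s) p then 1 else 0))
    (h1 : ∀ r z, ∃ s p, u s r p = z ∧ w s r p = z) (r : Fin 3) (z : Fin 4) :
    (Finset.univ.filter fun s => ∃ p, u s r p = z ∧ w s r p = z).card = 1 := by
  classical
  -- for each s: the number of (r, z) with a common point is 4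
  have key : ∀ s, ∑ r, ∑ z, (if ∃ p, u s r p = z ∧ w s r p = z then 1 else 0) = 4 := by
    intro s
    have e1 : ∀ r, ∑ z, (if ∃ p, u s r p = z ∧ w s r p = z then 1 else 0) =
        ∑ p, (if u s r p = w s r p then 1 else 0) := by
      intro r
      have bij : Function.Bijective (u s r) := Finite.injective_iff_bijective.mp (ui s r)
      rw [← Equiv.sum_comp (Equiv.ofBijective _ bij)]
      refine Finset.sum_congr rfl fun p _ => ?_
      simp only [Equiv.ofBijective_apply]
      congr 1
      apply propext
      constructor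
      · rintro ⟨q, hq1, hq2⟩
        have : q = p := ui s r hq1
        subst this
        exact hq2.symm
      · intro hp
        exact ⟨p, rfl, hp.symm⟩
    simp_rw [e1]
    rw [Finset.sum_comm]
    have e2 : ∀ p, ∑ r, (if u s r p = w s r p then 1 else 0) = 1 := by
      intro p
      rw [← Finset.card_filter, R2 s p p]
      have h2 : ∀ (c : Fin 3) (p : Fin 4), p ≠ tr c p := by decide
      simp [h2 2 p, h2 (b s) p]
    simp_rw [e2]
    simp
  have tot : ∑ r, ∑ z, (Finset.univ.filter fun s => ∃ p, u s r p = z ∧ w s r p = z).card = 12 := by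
    have : ∀ r z, (Finset.univ.filter fun s => ∃ p, u s r p = z ∧ w s r p = z).card =
        ∑ s, (if ∃ p, u s r p = z ∧ w s r p = z then 1 else 0) := fun r z => Finset.card_filter _ _
    simp_rw [this]
    have : ∀ r, ∑ z, ∑ s, (if ∃ p, u s r p = z ∧ w s r p = z then 1 else 0) =
        ∑ s, ∑ z, (if ∃ p, u s r p = z ∧ w s r p = z then 1 else 0) := fun r => Finset.sum_comm
    simp_rw [this]
    rw [Finset.sum_comm]
    simp_rw [key]
    simp
  have ge : ∀ r z, 1 ≤ (Finset.univ.filter fun s => ∃ p, u s r p = z ∧ w s r p = z).card := by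
    intro r z
    obtain ⟨s, p, h⟩ := h1 r z
    apply Finset.card_pos.mpr
    exact ⟨s, by simp only [Finset.mem_filter, Finset.mem_univ, true_and]; exact ⟨p, h⟩⟩
  by_contra hne
  have gt : 2 ≤ (Finset.univ.filter fun s => ∃ p, u s r p = z ∧ w s r p = z).card := by
    have := ge r z
    omega
  have lt : ∑ r : Fin 3, ∑ z : Fin 4, 1 < ∑ r, ∑ z, (Finset.univ.filter fun s => ∃ p, u s r p = z ∧ w s r p = z).card := by
    apply Finset.sum_lt_sum
    · intro r _
      exact Finset.sum_le_sum fun z _ => ge r z
    · exact ⟨r, Finset.mem_univ _, Finset.sum_lt_sum (fun z _ => ge r z) ⟨z, Finset.mem_univ _, by omega⟩⟩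
  rw [tot] at lt
  simp at lt

end Pool.Agent.H23.CG
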