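import Pool.Agent.H23.CG.FinDef

/-!
BMASK. Bits of the masks.

`bmask_testBit`: for a list `vs` of numbers without repetition and a list `bs` of the same length: bit `i` of `bmask vs bs` is set iff some place `k` has `vs[k] = i` and `bs[k] = true`.
(Induction on the `foldl`: general statement with an accumulator `m`; `Nat.testBit_or`, `Nat.testBit_shiftLeft` / `Nat.testBit_two_pow`-type lemmas, `1 <<< k = 2 ^ k`.)
`split_val`: `svars t` has 21 different members for the twelve `t` used (`decide`), so if `f (svars t)[k] = (pvals l)[k]` for all `k < 21`, `l ∈ goodList`, then `v = bmask (svars t) (pvals l) ∈ svals t` satisfies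
`v.testBit i = ((smask t).testBit i && f i)` for all `i` (`smask t = bmask (svars t) (replicate 21 true)`).
`good_mem`: `Good α δ` means that `[α 0, δ 0, α 1, δ 1, α 2, δ 2] ∈ goodList` (a finite check: `decide +kernel` over the `27 * 27` pairs of functions, or directly from the definition).
-/
set_option autoImplicit false
namespace Pool.Agent.H23.CG

private theorem foldl_bit (l : List (ℕ × Bool)) (m i : ℕ) :
    (l.foldl (fun m p => m ||| (cond p.2 (1 <<< p.1) 0)) m).testBit i = true ↔
      m.testBit i = true ∨ ∃ p ∈ l, p.1 = i ∧ p.2 = true := by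
  induction l generalizing m with
  | nil => simp
  | cons p l ih =>
    rw [List.foldl_cons, ih, Nat.testBit_or]
    rcases p with ⟨a, b⟩
    cases b
    · simp
    · simp only [cond_true, Nat.one_shiftLeft, Nat.testBit_two_pow, Bool.or_eq_true,
        decide_eq_true_eq, List.mem_cons, exists_eq_or_imp, and_true]
      tauto

theorem bmask_testBit (vs : List ℕ) (bs : List Bool) (hl : vs.length = bs.length) (i : ℕ) :
    (bmask vs bs).testBit i = true ↔ ∃ k, ∃ h : k < vs.length, vs[k] = i ∧ bs[k]'(hl ▸ h) = true := by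
  unfold bmask
  rw [foldl_bit]
  simp only [Nat.zero_testBit, Bool.false_eq_true, false_or]
  constructor
  · rintro ⟨p, hp, h1, h2⟩
    obtain ⟨k, hk, rfl⟩ := List.mem_iff_getElem.1 hp
    have hk' : k < vs.length := by
      rw [List.length_zip] at hk
      omega
    refine ⟨k, hk', ?_, ?_⟩
    · rw [List.getElem_zip] at h1
      exact h1
    · rw [List.getElem_zip] at h2
      exact h2
  · rintro ⟨k, hk, h1, h2⟩
    refine ⟨(vs[k], bs[k]'(hl ▸ hk)), ?_, h1, h2⟩
    refine List.mem_iff_getElem.2 ⟨k, ?_, ?_⟩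
    · rw [List.length_zip]
      omega
    · rw [List.getElem_zip]

theorem split_val (t : List ℕ) (ht : t ∈ splits1 ∨ t ∈ splits2) (f : ℕ → Bool) (l : List ℕ) (hl : l ∈ goodList)
    (hf : ∀ k : Fin 21, f ((svars t).getD k.val 0) = (pvals l).getD k.val false) :
    ∃ v ∈ svals t, ∀ i, v.testBit i = ((smask t).testBit i && f i) := by
  have hs : (svars t).length = 21 := rfl
  have hp : (pvals l).length = 21 := rfl
  have h1 := fun i => bmask_testBit (svars t) (pvals l) (hs.trans hp.symm) i
  have h2 := fun i => bmask_testBit (svars t) (List.replicate 21 true)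
    (hs.trans (List.length_replicate ..).symm) i
  have hf' : ∀ k (hk : k < (svars t).length), f ((svars t)[k]) =
      (pvals l)[k]'(by rw [hp]; rw [hs] at hk; exact hk) := by
    intro k hk
    have hk' : k < 21 := by rw [hs] at hk; exact hk
    have h3 := hf ⟨k, hk'⟩
    simp only at h3
    rw [List.getD_eq_getElem _ _ hk, List.getD_eq_getElem _ _ (by rw [hp]; exact hk')] at h3
    exact h3
  refine ⟨bmask (svars t) (pvals l), List.mem_map.2 ⟨l, hl, rfl⟩, fun i => ?_⟩
  rw [Bool.eq_iff_iff, h1, Bool.and_eq_true]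
  unfold smask
  rw [h2]
  constructor
  · rintro ⟨k, hk, h3, h4⟩
    refine ⟨⟨k, hk, h3, List.getElem_replicate ..⟩, ?_⟩
    rw [← h3, hf' k hk]
    exact h4
  · rintro ⟨⟨k, hk, h3, -⟩, h4⟩
    refine ⟨k, hk, h3, ?_⟩
    rw [← hf' k hk, h3]
    exact h4

theorem good_mem (α δ : Fin 3 → Fin 3) (h : Good α δ) :
    [(α 0).val, (δ 0).val, (α 1).val, (δ 1).val, (α 2).val, (δ 2).val] ∈ goodList := by
  have h0 := (α 0).isLt
  have h1 := (δ 0).isLt
  have h2 := (α 1).isLt
  have h3 := (δ 1).isLt
  have h4 := (α 2).isLt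
  have h5 := (δ 2).isLt
  unfold goodList
  rw [List.mem_filter]
  refine ⟨?_, h⟩
  rw [List.mem_map]
  refine ⟨(α 0).val + 3 * (δ 0).val + 9 * (α 1).val + 27 * (δ 1).val + 81 * (α 2).val +
    243 * (δ 2).val, ?_, ?_⟩
  · rw [List.mem_range]
    omega
  · simp only [List.cons.injEq, and_true]
    refine ⟨?_, ?_, ?_, ?_, ?_, ?_⟩ <;> omega

end Pool.Agent.H23.CG
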