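import Pool.Agent.H23.CG.Def

/-!
BAS. From the hypotheses of the problem to `Is99`, and the convenient forms of `Is99`.

`is99_of`: for `G.Adj x y` a `LocallyLinear` graph has exactly one triangle through the edge: existence is the second
component of `LocallyLinear` (`∃ s, G.IsNClique 3 s ∧ x ∈ s ∧ y ∈ s`), uniqueness of the third point is
`EdgeDisjointTriangles` (two triangles `{x,y,z}`, `{x,y,z'}` with `z ≠ z'` are different members of `cliqueSet 3` and
meet in the two points `x ≠ y`, not a subsingleton).  So `G.neighborSet x ∩ G.neighborSet y = {z}`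
(`Set.ncard_eq_one`).  The second field is `NonEdgesAreDiagonals` (`Pairwise`).
The other statements: `Set.ncard_eq_one`, `Set.ncard_eq_two`, and `Set.two_lt_ncard` / `Set.one_lt_ncard` for
`no2`, `no3`.
-/
set_option autoImplicit false
namespace Pool.Agent.H23.CG
open SimpleGraph

theorem is99_of (G : SimpleGraph (Fin 99)) (h1 : G.LocallyLinear) (h2 : Nfc61c3d6.NonEdgesAreDiagonals G) :
    Is99 G := by
  refine ⟨fun x y hxy => ?_, fun x y hne hna => h2 hne hna⟩
  obtain ⟨s, hs, hx, hy⟩ := h1.2 hxy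
  have hz : ∃ z ∈ s, z ≠ x ∧ z ≠ y := by
    by_contra hcon
    push Not at hcon
    have h3 : s ⊆ {x, y} := by
      intro w hw
      rw [Finset.mem_insert, Finset.mem_singleton]
      by_cases hwx : w = x
      · exact Or.inl hwx
      · exact Or.inr (hcon w hw hwx)
    have h4 := Finset.card_le_card h3
    rw [hs.card_eq] at h4
    have h5 := Finset.card_le_two (a := x) (b := y)
    omega
  obtain ⟨z, hzs, hzx, hzy⟩ := hz
  have hxz : G.Adj x z := hs.isClique hx hzs (Ne.symm hzx)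
  have hyz : G.Adj y z := hs.isClique hy hzs (Ne.symm hzy)
  rw [Set.ncard_eq_one]
  refine ⟨z, Set.ext fun w => ⟨?_, ?_⟩⟩
  · rintro ⟨hxw, hyw⟩
    have hxw' : G.Adj x w := hxw
    have hyw' : G.Adj y w := hyw
    rw [Set.mem_singleton_iff]
    by_contra hwz
    have t1 : G.IsNClique 3 {x, y, z} := is3Clique_triple_iff.2 ⟨hxy, hxz, hyz⟩
    have t2 : G.IsNClique 3 {x, y, w} := is3Clique_triple_iff.2 ⟨hxy, hxw', hyw'⟩
    have hne : ({x, y, z} : Finset (Fin 99)) ≠ {x, y, w} := by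
      intro he
      have h6 : w ∈ ({x, y, z} : Finset (Fin 99)) := by
        rw [he]
        simp
      rw [Finset.mem_insert, Finset.mem_insert, Finset.mem_singleton] at h6
      rcases h6 with h6 | h6 | h6
      · exact hxw'.ne h6.symm
      · exact hyw'.ne h6.symm
      · exact hwz h6
    have h7 := h1.1 t1 t2 hne
    exact hxy.ne (h7 ⟨by simp, by simp⟩ ⟨by simp, by simp⟩)
  · intro hw
    rw [Set.mem_singleton_iff] at hw
    rw [hw]
    exact ⟨hxz, hyz⟩

variable {G : SimpleGraph (Fin 99)}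

theorem Is99.third (h : Is99 G) {x y : Fin 99} (hxy : G.Adj x y) :
    ∃ z, G.Adj x z ∧ G.Adj y z ∧ ∀ w, G.Adj x w → G.Adj y w → w = z := by
  obtain ⟨z, hz⟩ := Set.ncard_eq_one.1 (h.lam x y hxy)
  have h1 : z ∈ G.neighborSet x ∩ G.neighborSet y := by
    rw [hz]
    exact Set.mem_singleton z
  refine ⟨z, h1.1, h1.2, fun w hw1 hw2 => ?_⟩
  have h2 : w ∈ G.neighborSet x ∩ G.neighborSet y := ⟨hw1, hw2⟩
  rw [hz] at h2
  exact h2

theorem Is99.two (h : Is99 G) {x y : Fin 99} (hne : x ≠ y) (hna : ¬ G.Adj x y) :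
    ∃ z z', z ≠ z' ∧ G.Adj x z ∧ G.Adj y z ∧ G.Adj x z' ∧ G.Adj y z' ∧
      ∀ w, G.Adj x w → G.Adj y w → w = z ∨ w = z' := by
  obtain ⟨z, z', hzz, hz⟩ := Set.ncard_eq_two.1 (h.mu x y hne hna)
  have h1 : z ∈ G.neighborSet x ∩ G.neighborSet y := by
    rw [hz]
    exact Set.mem_insert _ _
  have h2 : z' ∈ G.neighborSet x ∩ G.neighborSet y := by
    rw [hz]
    exact Set.mem_insert_of_mem _ (Set.mem_singleton z')
  refine ⟨z, z', hzz, h1.1, h1.2, h2.1, h2.2, fun w hw1 hw2 => ?_⟩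
  have h3 : w ∈ G.neighborSet x ∩ G.neighborSet y := ⟨hw1, hw2⟩
  rw [hz] at h3
  exact h3

/-- two different common neighbours: not adjacent -/
theorem Is99.no2 (h : Is99 G) {x y z z' : Fin 99} (hz : z ≠ z') (h1 : G.Adj x z) (h2 : G.Adj y z)
    (h3 : G.Adj x z') (h4 : G.Adj y z') : ¬ G.Adj x y := by
  intro hxy
  obtain ⟨w, -, -, hw⟩ := h.third hxy
  exact hz ((hw z h1 h2).trans (hw z' h3 h4).symm)

/-- never three different common neighbours -/
theorem Is99.no3 (h : Is99 G) {x y z z' z'' : Fin 99} (hne : x ≠ y) (h12 : z ≠ z') (h13 : z ≠ z'') (h23 : z' ≠ z'')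
    (h1 : G.Adj x z) (h2 : G.Adj y z) (h3 : G.Adj x z') (h4 : G.Adj y z') (h5 : G.Adj x z'') (h6 : G.Adj y z'') :
    False := by
  have hna := h.no2 h12 h1 h2 h3 h4
  obtain ⟨a, b, -, -, -, -, -, hw⟩ := h.two hne hna
  rcases hw z h1 h2 with e1 | e1 <;> rcases hw z' h3 h4 with e2 | e2 <;>
    rcases hw z'' h5 h6 with e3 | e3
  · exact h12 (e1.trans e2.symm)
  · exact h12 (e1.trans e2.symm)
  · exact h13 (e1.trans e3.symm)
  · exact h23 (e2.trans e3.symm)
  · exact h23 (e2.trans e3.symm)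
  · exact h13 (e1.trans e3.symm)
  · exact h12 (e1.trans e2.symm)
  · exact h12 (e1.trans e2.symm)

end Pool.Agent.H23.CG
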