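import Pool.Agent.H23.CG.Nbr

/-!
BLK. Adjacency between blocks.

All from NBR, the frame axioms and `pt A p = x A.1 A.2 (s1 p) (s2 p)`; `(s1, s2) : Fin 4 → Bool × Bool` is a bijection (`decide`).
`pt_inj`: `x_inj`.
`inner`: `Frame.x_adj` and a finite check.
`no_nbr`: `w = x i k ε' η` is not in `box i j` (`x_inj`, `x_far`: it is `≠ v`, not adjacent to `v`, so not an `a`) and it is adjacent to `a i ε'` (`a_x`);
a further neighbour `x i j ε δ` would contradict `nbr_at_most`.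
`one_nbr`: `w = pt (k,l) p ∉ box i j`; by NBR it has a unique neighbour `y` in `box i j`; `y ≠ v` (`x_far`), `y` is no `a i ε`, `a j ε` (`a_x`), so
`y = x i j ε δ = pt (i,j) q`.
`far_nbr`: classification of the neighbours `w` of `x i j ε δ`, `F.Gp i j`: `w ≠ v`; if `w` is adjacent to `v` it is an `a k η`, `a_x`; otherwise
`w = x k l η θ` by `cover`; if `{k,l}` meets `{i,j}` in exactly one element then `no_nbr` (in one of its symmetric forms, use `x_symm`);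
if `{k,l} = {i,j}` it is `pt (i,j) q`; otherwise the last case.
-/
set_option autoImplicit false
namespace Pool.Agent.H23.CG
open SimpleGraph

variable {G : SimpleGraph (Fin 99)} {v : Fin 99}

private theorem blk_inj4 : ∀ p q : Fin 4, s1 p = s1 q → s2 p = s2 q → p = q := by decide

private theorem blk_surj4 : ∀ ε δ : Bool, ∃ q : Fin 4, s1 q = ε ∧ s2 q = δ := by decide

private theorem blk_adj4 : ∀ p q : Fin 4, ((s1 p = s1 q ∧ s2 p ≠ s2 q) ∨ (s1 p ≠ s1 q ∧ s2 p = s2 q)) ↔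
    (q = tr 0 p ∨ q = tr 1 p) := by decide

private theorem blk_v_ne (F : Frame G v) (k : Fin 7) (ε : Bool) : F.a k ε ≠ v := fun e => by
  have h1 := F.a_adj k ε
  rw [e] at h1
  exact G.loopless.irrefl v h1

private theorem blk_x_ne_a (F : Frame G v) {i j : Fin 7} (hij : i ≠ j) (ε δ : Bool) (k : Fin 7)
    (η : Bool) : F.x i j ε δ ≠ F.a k η := fun e => by
  have h1 := (F.x_far i j ε δ hij).2
  rw [e] at h1
  exact h1 (F.a_adj k η)

/-- a point `x k l` is in the box of `i`, `j` only if `{k,l} = {i,j}` -/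
private theorem blk_not_box (F : Frame G v) {i j k l : Fin 7} (hij : i ≠ j) (hkl : k ≠ l)
    (h1 : ¬ (k = i ∧ l = j)) (h2 : ¬ (k = j ∧ l = i)) (ε δ : Bool) : F.x k l ε δ ∉ F.box i j := by
  rintro (h | ⟨ε', h⟩ | ⟨ε', h⟩ | ⟨ε', δ', h⟩)
  · exact (F.x_far k l ε δ hkl).1 h
  · exact blk_x_ne_a F hkl _ _ _ _ h
  · exact blk_x_ne_a F hkl _ _ _ _ h
  · rcases F.x_inj _ _ _ _ _ _ _ _ hkl hij h with h3 | h3
    · exact h1 ⟨h3.1, h3.2.1⟩
    · exact h2 ⟨h3.1, h3.2.1⟩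

theorem Frame.Gp_symm (F : Frame G v) {i j : Fin 7} (hg : F.Gp i j) : F.Gp j i := by
  refine ⟨fun ε => ?_, fun δ => ?_⟩
  · rw [F.x_symm j i, F.x_symm j i]
    exact hg.2 ε
  · rw [F.x_symm j i, F.x_symm j i]
    exact hg.1 δ

theorem Frame.pt_inj (F : Frame G v) {i j : Fin 7} (hij : i ≠ j) {p q : Fin 4} (h : F.pt (i, j) p = F.pt (i, j) q) :
    p = q := by
  rcases F.x_inj _ _ _ _ _ _ _ _ hij hij h with h1 | h1
  · exact blk_inj4 p q h1.2.2.1 h1.2.2.2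
  · exact absurd h1.1 hij

/-- points of different blocks are different -/
theorem Frame.pt_ne (F : Frame G v) {i j k l : Fin 7} (hij : i ≠ j) (hkl : k ≠ l) (h1 : ¬ (i = k ∧ j = l))
    (h2 : ¬ (i = l ∧ j = k)) (p q : Fin 4) : F.pt (i, j) p ≠ F.pt (k, l) q := by
  intro h
  rcases F.x_inj _ _ _ _ _ _ _ _ hij hkl h with h3 | h3
  · exact h1 ⟨h3.1, h3.2.1⟩
  · exact h2 ⟨h3.1, h3.2.1⟩

theorem inner (h : Is99 G) (F : Frame G v) {i j : Fin 7} (hij : i ≠ j) (hg : F.Gp i j) (p q : Fin 4) :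
    G.Adj (F.pt (i, j) p) (F.pt (i, j) q) ↔ q = tr 0 p ∨ q = tr 1 p := by
  rw [← blk_adj4 p q]
  exact F.x_adj h hij hg _ _ _ _

theorem no_nbr (h : Is99 G) (F : Frame G v) {i j k : Fin 7} (hij : i ≠ j) (hik : i ≠ k) (hjk : j ≠ k)
    (hg : F.Gp i j) (ε δ ε' η : Bool) : ¬ G.Adj (F.x i j ε δ) (F.x i k ε' η) := by
  intro h1
  have hw : F.x i k ε' η ∉ F.box i j :=
    blk_not_box F hij hik (fun e => hjk e.2.symm) (fun e => hij e.1) _ _
  have h2 : G.Adj (F.a i ε') (F.x i k ε' η) := (F.a_x i k i ε' η ε' hik).2 (Or.inl ⟨rfl, rfl⟩)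
  have h3 : F.x i j ε δ ∈ F.box i j := Or.inr (Or.inr (Or.inr ⟨ε, δ, rfl⟩))
  have h4 : F.a i ε' ∈ F.box i j := Or.inr (Or.inl ⟨ε', rfl⟩)
  exact blk_x_ne_a F hij _ _ _ _ (nbr_at_most h F hij hg hw h3 h4 h1.symm h2.symm)

theorem one_nbr (h : Is99 G) (F : Frame G v) {i j k l : Fin 7} (hij : i ≠ j) (hik : i ≠ k) (hil : i ≠ l)
    (hjk : j ≠ k) (hjl : j ≠ l) (hkl : k ≠ l) (hg : F.Gp i j) (p : Fin 4) :
    ∃ q, G.Adj (F.pt (k, l) p) (F.pt (i, j) q) ∧ ∀ q', G.Adj (F.pt (k, l) p) (F.pt (i, j) q') → q' = q := by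
  have hw : F.pt (k, l) p ∉ F.box i j :=
    blk_not_box F hij hkl (fun e => hik e.1.symm) (fun e => hjk e.1.symm) _ _
  have hb : ∀ q, F.pt (i, j) q ∈ F.box i j := fun q => Or.inr (Or.inr (Or.inr ⟨s1 q, s2 q, rfl⟩))
  obtain ⟨y, hy, hadj⟩ := nbr_exists h F hij hg hw
  have hq : ∃ q, y = F.pt (i, j) q := by
    rcases hy with rfl | ⟨ε, rfl⟩ | ⟨ε, rfl⟩ | ⟨ε, δ, rfl⟩
    · exact absurd hadj.symm (F.x_far k l _ _ hkl).2
    · rcases (F.a_x k l i _ _ ε hkl).1 hadj.symm with h1 | h1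
      · exact absurd h1.1 hik
      · exact absurd h1.1 hil
    · rcases (F.a_x k l j _ _ ε hkl).1 hadj.symm with h1 | h1
      · exact absurd h1.1 hjk
      · exact absurd h1.1 hjl
    · obtain ⟨q, h1, h2⟩ := blk_surj4 ε δ
      refine ⟨q, ?_⟩
      show F.x i j ε δ = F.x i j (s1 q) (s2 q)
      rw [h1, h2]
  obtain ⟨q, rfl⟩ := hq
  refine ⟨q, hadj, fun q' hq' => ?_⟩
  exact F.pt_inj hij (nbr_at_most h F hij hg hw (hb q') (hb q) hq' hadj)

theorem far_nbr (h : Is99 G) (F : Frame G v) {i j : Fin 7} (hij : i ≠ j) (hg : F.Gp i j) (p : Fin 4) {w : Fin 99}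
    (hw : G.Adj (F.pt (i, j) p) w) :
    w = F.a i (s1 p) ∨ w = F.a j (s2 p) ∨ (∃ q, w = F.pt (i, j) q) ∨
      ∃ k l q, k ≠ l ∧ k ≠ i ∧ k ≠ j ∧ l ≠ i ∧ l ≠ j ∧ w = F.pt (k, l) q := by
  by_cases hv : G.Adj v w
  · obtain ⟨k, η, rfl⟩ := F.a_surj w hv
    rcases (F.a_x i j k _ _ η hij).1 hw.symm with ⟨rfl, rfl⟩ | ⟨rfl, rfl⟩
    · exact Or.inl rfl
    · exact Or.inr (Or.inl rfl)
  · have hwv : w ≠ v := by
      rintro rfl
      exact (F.x_far i j _ _ hij).2 hw.symm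
    obtain ⟨k, l, η, θ, hkl, rfl⟩ := F.cover w hwv hv
    have hpt : ∀ (i j : Fin 7) (ε δ : Bool), ∃ q, F.x i j ε δ = F.pt (i, j) q := by
      intro i j ε δ
      obtain ⟨q, h1, h2⟩ := blk_surj4 ε δ
      refine ⟨q, ?_⟩
      show F.x i j ε δ = F.x i j (s1 q) (s2 q)
      rw [h1, h2]
    have hw' : G.Adj (F.x i j (s1 p) (s2 p)) (F.x k l η θ) := hw
    have hw'' : G.Adj (F.x j i (s2 p) (s1 p)) (F.x k l η θ) := by
      rw [F.x_symm j i]
      exact hw
    by_cases hki : k = i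
    · subst hki
      by_cases hlj : l = j
      · subst hlj
        exact Or.inr (Or.inr (Or.inl (hpt _ _ _ _)))
      · exact absurd hw' (no_nbr h F hij hkl (Ne.symm hlj) hg _ _ _ _)
    · by_cases hkj : k = j
      · subst hkj
        by_cases hli : l = i
        · subst hli
          rw [F.x_symm k l]
          exact Or.inr (Or.inr (Or.inl (hpt _ _ _ _)))
        · exact absurd hw'' (no_nbr h F hij.symm hkl (Ne.symm hli) (F.Gp_symm hg) _ _ _ _)
      · by_cases hli : l = i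
        · subst hli
          rw [F.x_symm k l] at hw'
          exact absurd hw' (no_nbr h F hij (Ne.symm hki) (Ne.symm hkj) hg _ _ _ _)
        · by_cases hlj : l = j
          · subst hlj
            rw [F.x_symm k l] at hw''
            exact absurd hw'' (no_nbr h F hij.symm (Ne.symm hkj) (Ne.symm hki)
              (F.Gp_symm hg) _ _ _ _)
          · obtain ⟨q, hq⟩ := hpt k l η θ
            exact Or.inr (Or.inr (Or.inr ⟨k, l, q, hkl, hki, hkj, hli, hlj, hq⟩))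

end Pool.Agent.H23.CG
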