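import Pool.Agent.H23.CG.FinDef

/-!
BTS. Correctness of the backtracking and the two kernel checks (8 s and 14 s, `decide +kernel`).

`bt_sound`: induction on `L`, generalizing `K`, `V`. Invariants: `hKV`: for every bit `i` of `K`, `V.testBit i = f i`; `hV`: `V` has no bits outside `K`. For the head `(m, vs)` take `v ∈ vs` with
`v.testBit i = (m.testBit i && f i)` for all `i`. Then `(V ^^^ v) &&& (K &&& m) = 0` (bitwise), and `K ||| m`, `V ||| v` satisfy the invariants (a bit `i` of `m` not in `K`: `V.testBit i = false`; a bit of `K` not in `m`: `v.testBit i = false`).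
-/
set_option autoImplicit false
namespace Pool.Agent.H23.CG

theorem bt_sound (f : ℕ → Bool) (L : List (ℕ × List ℕ)) (K V : ℕ)
    (hL : ∀ e ∈ L, ∃ v ∈ e.2, ∀ i, v.testBit i = (e.1.testBit i && f i))
    (hKV : ∀ i, K.testBit i = true → V.testBit i = f i) (hV : ∀ i, K.testBit i = false → V.testBit i = false) :
    bt L K V = true := by
  induction L generalizing K V with
  | nil => rfl
  | cons e rest ih =>
    obtain ⟨m, vs⟩ := e
    obtain ⟨w, hw, hwb⟩ := hL (m, vs) (by simp)
    simp only [bt, List.any_eq_true, Bool.and_eq_true]
    refine ⟨w, hw, ?_, ?_⟩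
    · have : (V ^^^ w) &&& (K &&& m) = 0 := by
        apply Nat.eq_of_testBit_eq
        intro i
        simp only [Nat.testBit_and, Nat.testBit_xor, Nat.zero_testBit]
        rw [hwb i]
        cases hK : K.testBit i <;> cases hm : m.testBit i <;> simp_all
      rw [this]; rfl
    · apply ih
      · intro e he
        exact hL e (by simp [he])
      · intro i hi
        rw [Nat.testBit_or] at hi ⊢
        rw [hwb i]
        cases hK : K.testBit i <;> cases hm : m.testBit i <;> simp_all
      · intro i hi
        rw [Nat.testBit_or] at hi ⊢
        rw [hwb i]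
        cases hK : K.testBit i <;> cases hm : m.testBit i <;> simp_all

theorem bt_splits1 : bt (sdata splits1) 0 0 = false := by
  decide +kernel

theorem bt_splits2 : bt (sdata splits2) 0 0 = false := by
  decide +kernel

end Pool.Agent.H23.CG
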