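import Pool.Agent.H23.CG.Tab

/-!
CHK. The 21 kernel checks (`decide +kernel`; the six `chk` of `0,1,2` take about 12 s each) and the correctness of the lists used by `cands`.
-/
set_option autoImplicit false
namespace Pool.Agent.H23.CG

theorem chk_012 : chk 0 1 2 = true := by
  decide +kernel
theorem chk_021 : chk 0 2 1 = true := by
  decide +kernel
theorem chk_102 : chk 1 0 2 = true := by
  decide +kernel
theorem chk_120 : chk 1 2 0 = true := by
  decide +kernel
theorem chk_201 : chk 2 0 1 = true := by
  decide +kernel
theorem chk_210 : chk 2 1 0 = true := by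
  decide +kernel
theorem chk_k : (chk 3 4 5 && chk 3 5 4 && chk 4 3 5 && chk 4 5 3 && chk 5 3 4 && chk 5 4 3) = true := by
  decide +kernel
theorem chk_0 : (chk 0 3 3 && chk 3 0 3 && chk 3 3 0) = true := by
  decide +kernel
theorem chk_1 : (chk 1 4 4 && chk 4 1 4 && chk 4 4 1) = true := by
  decide +kernel
theorem chk_2 : (chk 2 5 5 && chk 5 2 5 && chk 5 5 2) = true := by
  decide +kernel

/-- the search trees contain the lists -/
theorem trees_ok : ((List.range 6).all fun g => (grp g).all fun c =>
    (((tgrp g).find c.1).any fun e => e == (c.2.1, c.2.2)) && (!(c.1 == 0) || (bgrp g).find c.2.1 == c.2.2)) = true := by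
  decide +kernel

end Pool.Agent.H23.CG
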