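import Pool.Agent.H23.CG.Chk

/-!
CHKS. Correctness of `chk`.

`chk_sound`: from `chk g g' g'' = true` (`List.all_eq_true`) with `a`, `b`: for all `z ∈ cands g'' n1 t m`, `P3 a.2.2 b.2.2 z`, where `n1 = a.1 ^^^ b.1`, `m = a.1 ||| b.1 ||| n1`,
`t = a.2.1 ^^^ b.2.1 ^^^ tgt`. `par a b c = true` gives `a.1 ^^^ b.1 ^^^ c.1 = 0`, so `c.1 = n1` (`Nat.xor_eq_zero_iff` ...), and `((a.2.1 ^^^ b.2.1 ^^^ c.2.1 ^^^ tgt) ||| m) = m`, i.e. `((t ^^^ c.2.1) ||| m) = m` (xor is commutative). Hence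
`c.2.2 ∈ cands g'' n1 t m`: if `n1 = 0` and `m = 0` then `t ^^^ c.2.1 = 0`, `t = c.2.1`, `(bgrp g'').find t = c.2.2` by `trees_ok`; otherwise by the first part of `trees_ok` and `List.mem_filter`, `List.mem_map`.
`chk_all`: the triples `(g0, g1, g2)` of numbers `< 6` with `mv` sums `(4,4,4)` are the 21 triples of `Chk` (`decide` / `interval_cases`); `grp g`, `mv g` for `g ≥ 6` are those of `5`, but we assume `< 6`.
-/
set_option autoImplicit false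
namespace Pool.Agent.H23.CG

theorem chk_sound (g g' g'' : ℕ) (hg : g'' < 6) (hc : chk g g' g'' = true) (a b c : RecT) (ha : a ∈ grp g)
    (hb : b ∈ grp g') (hcc : c ∈ grp g'') (hp : par a b c = true) (x y z : ℕ) (hx : x ∈ a.2.2) (hy : y ∈ b.2.2)
    (hz : z ∈ c.2.2) : patB x y z = true := by
  unfold par at hp
  rw [Bool.and_eq_true] at hp
  obtain ⟨hp1, hp2⟩ := hp
  have hp1 : a.1 ^^^ b.1 ^^^ c.1 = 0 := eq_of_beq hp1
  have hp2 : ((a.2.1 ^^^ b.2.1 ^^^ c.2.1 ^^^ tgt) ||| (a.1 ||| b.1 ||| c.1)) = (a.1 ||| b.1 ||| c.1) := eq_of_beq hp2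
  have hn : c.1 = a.1 ^^^ b.1 := (Nat.xor_eq_zero_iff.mp hp1).symm
  have ht : a.2.1 ^^^ b.2.1 ^^^ c.2.1 ^^^ tgt = (a.2.1 ^^^ b.2.1 ^^^ tgt) ^^^ c.2.1 := by
    rw [Nat.xor_assoc (a.2.1 ^^^ b.2.1), Nat.xor_comm c.2.1 tgt, ← Nat.xor_assoc]
  rw [ht, hn] at hp2
  unfold chk at hc
  rw [List.all_eq_true] at hc
  have h1 := hc a ha
  rw [List.all_eq_true] at h1
  have h2 := h1 b hb
  simp only at h2
  rw [List.all_eq_true] at h2
  have tr := trees_ok
  rw [List.all_eq_true] at tr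
  have tr1 := tr g'' (List.mem_range.mpr hg)
  rw [List.all_eq_true] at tr1
  have tr2 := tr1 c hcc
  rw [Bool.and_eq_true] at tr2
  obtain ⟨tr3, tr4⟩ := tr2
  have hmem : c.2.2 ∈ cands g'' (a.1 ^^^ b.1) (a.2.1 ^^^ b.2.1 ^^^ tgt) (a.1 ||| b.1 ||| (a.1 ^^^ b.1)) := by
    unfold cands
    split_ifs with hif
    · rw [Bool.and_eq_true] at hif
      obtain ⟨i1, i2⟩ := hif
      have i1 : a.1 ^^^ b.1 = 0 := eq_of_beq i1
      have i2 : a.1 ||| b.1 ||| (a.1 ^^^ b.1) = 0 := eq_of_beq i2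
      rw [i2] at hp2
      have hz0 : (a.2.1 ^^^ b.2.1 ^^^ tgt) ^^^ c.2.1 = 0 := by simpa using hp2
      have he : a.2.1 ^^^ b.2.1 ^^^ tgt = c.2.1 := Nat.xor_eq_zero_iff.mp hz0
      rw [he]
      have hc0 : c.1 = 0 := by rw [hn, i1]
      rw [hc0] at tr4
      simp only [beq_self_eq_true, Bool.not_true, Bool.false_or] at tr4
      rw [List.mem_singleton]
      exact (eq_of_beq tr4).symm
    · rw [List.any_eq_true] at tr3
      obtain ⟨e, he, he2⟩ := tr3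
      have he2 : e = (c.2.1, c.2.2) := eq_of_beq he2
      rw [List.mem_map]
      refine ⟨e, ?_, by rw [he2]⟩
      rw [List.mem_filter]
      refine ⟨by rw [← hn]; exact he, ?_⟩
      rw [he2]
      simp only
      rw [hp2]
      exact Nat.beq_refl _
  have h3 := h2 _ hmem
  unfold P3 at h3
  rw [List.all_eq_true] at h3
  have h4 := h3 x hx
  rw [List.all_eq_true] at h4
  have h5 := h4 y hy
  rw [List.all_eq_true] at h5
  exact h5 z hz

theorem chk_all (g0 g1 g2 : ℕ) (h0 : g0 < 6) (h1 : g1 < 6) (h2 : g2 < 6)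
    (hm : (mv g0).1 + (mv g1).1 + (mv g2).1 = 4) (hm' : (mv g0).2.1 + (mv g1).2.1 + (mv g2).2.1 = 4)
    (hm'' : (mv g0).2.2 + (mv g1).2.2 + (mv g2).2.2 = 4) (a b c : RecT) (ha : a ∈ grp g0)
    (hb : b ∈ grp g1) (hc : c ∈ grp g2) (hp : par a b c = true) (x y z : ℕ) (hx : x ∈ a.2.2) (hy : y ∈ b.2.2)
    (hz : z ∈ c.2.2) : patB x y z = true := by
  have hc' : chk g0 g1 g2 = true := by
    obtain ⟨⟨⟨⟨⟨e1, e2⟩, e3⟩, e4⟩, e5⟩, e6⟩ := (by simpa only [Bool.and_eq_true] using chk_k :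
      ((((chk 3 4 5 = true ∧ chk 3 5 4 = true) ∧ chk 4 3 5 = true) ∧ chk 4 5 3 = true) ∧ chk 5 3 4 = true) ∧
        chk 5 4 3 = true)
    obtain ⟨⟨d1, d2⟩, d3⟩ := (by simpa only [Bool.and_eq_true] using chk_0 :
      (chk 0 3 3 = true ∧ chk 3 0 3 = true) ∧ chk 3 3 0 = true)
    obtain ⟨⟨d4, d5⟩, d6⟩ := (by simpa only [Bool.and_eq_true] using chk_1 :
      (chk 1 4 4 = true ∧ chk 4 1 4 = true) ∧ chk 4 4 1 = true)
    obtain ⟨⟨d7, d8⟩, d9⟩ := (by simpa only [Bool.and_eq_true] using chk_2 :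
      (chk 2 5 5 = true ∧ chk 5 2 5 = true) ∧ chk 5 5 2 = true)
    have a1 := chk_012
    have a2 := chk_021
    have a3 := chk_102
    have a4 := chk_120
    have a5 := chk_201
    have a6 := chk_210
    clear hp ha hb hc
    interval_cases g0 <;> interval_cases g1 <;> interval_cases g2 <;>
      first
      | (with_reducible assumption)
      | (exfalso; simp only [mv] at hm hm' hm''; omega)
  exact chk_sound g0 g1 g2 h2 hc' a b c ha hb hc hp x y z hx hy hz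

end Pool.Agent.H23.CG
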