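import Mathlib
import Pool.Prelude.Def_F_85a20a05

/-!
# 3×3 grids in a 99-graph (MP_aa86c4_co): definitions

`G` is a graph on `Fin 99` in which adjacent vertices have exactly one common neighbour and distinct
non-adjacent vertices have exactly two (`Is99`).  It is 14-regular.  A vertex `v` has 7 lines
`{v, a i true, a i false}`, `i : Fin 7`.  The 84 vertices which are not adjacent to `v` are the `x i j ε δ`, `i ≠ j`,
the second common neighbour of `a i ε` and `a j δ` (`x i j ε δ = x j i δ ε`).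
For `A = (i,j)` the block of `A` consists of the four points `pt A p`, `p : Fin 4` (`s1 p` = sign at `i`,
`s2 p` = sign at `j`).  `Gp i j`: the lines `i`, `j` span a 3×3 grid.
`tr c : Fin 4 → Fin 4` are the three fixed point free translations of the four-point set: `tr 0` keeps `s1`,
`tr 1` keeps `s2`, `tr 2` (bar) changes both signs.
-/
set_option autoImplicit false
namespace Pool.Agent.H23.CG
open SimpleGraph

/-- the two conditions of a 99-graph, with numbers of common neighbours -/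
structure Is99 (G : SimpleGraph (Fin 99)) : Prop where
  lam : ∀ x y, G.Adj x y → (G.neighborSet x ∩ G.neighborSet y).ncard = 1
  mu : ∀ x y, x ≠ y → ¬ G.Adj x y → (G.neighborSet x ∩ G.neighborSet y).ncard = 2

/-- `S` induces the 3×3 rook graph `K₃ □ K₃` -/
def IsGrid (G : SimpleGraph (Fin 99)) (S : Set (Fin 99)) : Prop :=
  Nonempty (G.induce S ≃g ((⊤ : SimpleGraph (Fin 3)) □ (⊤ : SimpleGraph (Fin 3))))

/-- coordinates around a vertex `v` -/
structure Frame (G : SimpleGraph (Fin 99)) (v : Fin 99) where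
  a : Fin 7 → Bool → Fin 99
  x : Fin 7 → Fin 7 → Bool → Bool → Fin 99
  a_adj : ∀ i ε, G.Adj v (a i ε)
  a_inj : ∀ i j ε δ, a i ε = a j δ → i = j ∧ ε = δ
  a_surj : ∀ w, G.Adj v w → ∃ i ε, w = a i ε
  a_a : ∀ i j ε δ, G.Adj (a i ε) (a j δ) ↔ i = j ∧ ε ≠ δ
  x_symm : ∀ i j ε δ, x i j ε δ = x j i δ ε
  x_far : ∀ i j ε δ, i ≠ j → x i j ε δ ≠ v ∧ ¬ G.Adj v (x i j ε δ)
  a_x : ∀ i j k ε δ η, i ≠ j → (G.Adj (a k η) (x i j ε δ) ↔ (k = i ∧ η = ε) ∨ (k = j ∧ η = δ))
  x_inj : ∀ i j k l ε δ ε' δ', i ≠ j → k ≠ l → x i j ε δ = x k l ε' δ' →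
    (i = k ∧ j = l ∧ ε = ε' ∧ δ = δ') ∨ (i = l ∧ j = k ∧ ε = δ' ∧ δ = ε')
  cover : ∀ w, w ≠ v → ¬ G.Adj v w → ∃ i j ε δ, i ≠ j ∧ w = x i j ε δ

variable {G : SimpleGraph (Fin 99)} {v : Fin 99}

/-- renumbering of the lines -/
def Frame.perm (F : Frame G v) (π : Equiv.Perm (Fin 7)) : Frame G v where
  a i ε := F.a (π i) ε
  x i j ε δ := F.x (π i) (π j) ε δ
  a_adj i ε := F.a_adj (π i) ε
  a_inj i j ε δ h := by
    have := F.a_inj _ _ _ _ h
    exact ⟨π.injective this.1, this.2⟩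
  a_surj w hw := by
    obtain ⟨i, ε, h⟩ := F.a_surj w hw
    exact ⟨π.symm i, ε, by simpa using h⟩
  a_a i j ε δ := by
    rw [F.a_a]; simp
  x_symm i j ε δ := F.x_symm _ _ _ _
  x_far i j ε δ h := F.x_far _ _ _ _ (fun e => h (π.injective e))
  a_x i j k ε δ η h := by
    rw [F.a_x _ _ _ _ _ _ (fun e => h (π.injective e))]; simp
  x_inj i j k l ε δ ε' δ' h h' e := by
    have := F.x_inj _ _ _ _ _ _ _ _ (fun e => h (π.injective e)) (fun e => h' (π.injective e)) e
    simpa using this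
  cover w h1 h2 := by
    obtain ⟨i, j, ε, δ, hij, h⟩ := F.cover w h1 h2
    exact ⟨π.symm i, π.symm j, ε, δ, fun e => hij (π.symm.injective e), by simpa using h⟩

/-- signs of the four points -/
def s1 : Fin 4 → Bool := ![false, false, true, true]
def s2 : Fin 4 → Bool := ![false, true, false, true]
/-- translations: `tr 0` keeps `s1`, `tr 1` keeps `s2`, `tr 2` changes both -/
def tr : Fin 3 → Fin 4 → Fin 4 := ![![1, 0, 3, 2], ![2, 3, 0, 1], ![3, 2, 1, 0]]

/-- the point `p` of the block of `A` -/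
def Frame.pt (F : Frame G v) (A : Fin 7 × Fin 7) (p : Fin 4) : Fin 99 := F.x A.1 A.2 (s1 p) (s2 p)

/-- the lines `i` and `j` span a 3×3 grid (used for `i ≠ j`) -/
def Frame.Gp (F : Frame G v) (i j : Fin 7) : Prop :=
  (∀ ε, G.Adj (F.x i j ε true) (F.x i j ε false)) ∧ (∀ δ, G.Adj (F.x i j true δ) (F.x i j false δ))

/-- the nine vertices spanned by the lines `i`, `j` -/
def Frame.box (F : Frame G v) (i j : Fin 7) : Set (Fin 99) :=
  {w | w = v ∨ (∃ ε, w = F.a i ε) ∨ (∃ ε, w = F.a j ε) ∨ (∃ ε δ, w = F.x i j ε δ)}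

/-- adjacency between the blocks of `A` and `B` commutes with bar -/
def Frame.T (F : Frame G v) (A B : Fin 7 × Fin 7) : Prop :=
  ∀ p q, G.Adj (F.pt A p) (F.pt B q) → G.Adj (F.pt A (tr 2 p)) (F.pt B (tr 2 q))

/-- the three pairs in `T = {0,1,2}` -/
def EB : Fin 3 → Fin 7 × Fin 7 := ![(1, 2), (0, 2), (0, 1)]
/-- the three partitions `{CB s, DB s}` of `Q = {3,4,5,6}` -/
def CB : Fin 3 → Fin 7 × Fin 7 := ![(3, 4), (3, 5), (3, 6)]
def DB : Fin 3 → Fin 7 × Fin 7 := ![(5, 6), (4, 6), (4, 5)]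

/-- all pairs inside `{0,1,2}` and inside `{3,4,5,6}` are grid pairs -/
structure Split (F : Frame G v) : Prop where
  hT : ∀ i j : Fin 7, i.val < 3 → j.val < 3 → i ≠ j → F.Gp i j
  hQ : ∀ i j : Fin 7, 3 ≤ i.val → 3 ≤ j.val → i ≠ j → F.Gp i j

/-- the adjacency bijections of a split: `u s r` from the block `CB s` to the block `EB r`, `f s` from `CB s` to
`DB s`, and `w s r` from `CB s` through `DB s` to `EB r`; `b s` = the translation of `CB s` which corresponds under
`f s` to bar of `DB s` -/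
structure Maps (F : Frame G v) where
  u : Fin 3 → Fin 3 → Fin 4 → Fin 4
  w : Fin 3 → Fin 3 → Fin 4 → Fin 4
  f : Fin 3 → Fin 4 → Fin 4
  b : Fin 3 → Fin 3
  ui : ∀ s r, Function.Injective (u s r)
  wi : ∀ s r, Function.Injective (w s r)
  fi : ∀ s, Function.Injective (f s)
  hu : ∀ s r p q, G.Adj (F.pt (CB s) p) (F.pt (EB r) q) ↔ q = u s r p
  hw : ∀ s r p q, G.Adj (F.pt (DB s) (f s p)) (F.pt (EB r) q) ↔ q = w s r p
  hf : ∀ s p q, G.Adj (F.pt (CB s) p) (F.pt (DB s) q) ↔ q = f s p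
  hb : ∀ s p, f s (tr (b s) p) = tr 2 (f s p)

/-- `kap r r'`: the position (0 = first, 1 = second) in `EB r` of the common element of `EB r` and `EB r'` -/
def kap : Fin 3 → Fin 3 → Fin 3 := ![![0, 1, 0], ![1, 0, 0], ![1, 0, 0]]
/-- sign of the point `z` of `EB r` at the common element of `EB r` and `EB r'` -/
def sgn (r r' : Fin 3) (z : Fin 4) : Bool := if kap r r' = 0 then s1 z else s2 z

/-- the combinatorial data of a split -/
structure Loc (u w : Fin 3 → Fin 3 → Fin 4 → Fin 4) (b : Fin 3 → Fin 3) : Prop where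
  ui : ∀ s r, Function.Injective (u s r)
  wi : ∀ s r, Function.Injective (w s r)
  R2 : ∀ s p p', (Finset.univ.filter fun r => u s r p = w s r p').card =
    (if p' = p then 1 else 0) + (if p' = tr 2 p then 1 else 0) + (if p' = tr (b s) p then 1 else 0)
  R3 : ∀ r r', r ≠ r' → ∀ z z', (Finset.univ.filter fun s => ∃ p, u s r p = z ∧ u s r' p = z').card +
    (Finset.univ.filter fun s => ∃ p, w s r p = z ∧ w s r' p = z').card =
      if sgn r r' z = sgn r' r z' then 1 else 2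
  U : ∀ s r p p', u s r p' = w s r p → p' ≠ p → w s r p = tr 2 (u s r p) ∨ p' = tr 2 p
  U' : ∀ s r p p', u s r p = w s r p' → p' ≠ p → w s r p = tr 2 (u s r p) ∨ p' = tr (b s) p
  AP : ∀ r z, (Finset.univ.filter fun s => ∃ p, u s r p = z ∧ w s r p = z).card = 1

end Pool.Agent.H23.CG
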