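import Pool.Agent.H23.CG.Spl
import Pool.Agent.H23.CG.BtS
import Pool.Agent.H23.CG.BMask

/-!
FIN19. At least 19 grid pairs at a vertex are impossible (in normal position).

Let `f n = decide (F.T (blk (n / 49)) (blk (n % 49)))` with `blk k = (k / 7, k % 7)` (as elements of `Fin 7`; classical decidability). For `i < j`, `k < l`, `(i,j) ≠ (k,l)`: `f (vidx i j k l) = true ↔ F.T (i,j) (k,l)` (`T_symm`).
For `t = [t0,...,t6]` in `splits1` (resp. `splits2`) let `π` be the permutation of `Fin 7` with `π m = t_m` (each `t` is a permutation of `0..6`). `F.perm π` satisfies `Split` by the hypothesis (no bad pair lies inside `{t0,t1,t2}` or inside `{t3,..,t6}`: `decide`).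
`split_thm` for `F.perm π` gives `α`, `δ`; `(F.perm π).T A B` is `F.T (π A.1, π A.2) (π B.1, π B.2)` by definition (`Iff.rfl`), all the pairs are increasing (`t0<t1<t2`, `t3<t4<t5<t6`), so the 21 numbers `svars t` have
`f`-values `pvals [α 0, δ 0, ...]`; `good_mem`, `split_val` give the hypothesis of `bt_sound` for `sdata splits1`, `K = V = 0`, contradiction to `bt_splits1`.
It may be convenient to prove first `core` for one list `t`, given as a function `π : Fin 7 → Fin 7` with `t = List.ofFn ..`.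
-/
set_option autoImplicit false
namespace Pool.Agent.H23.CG
open SimpleGraph

variable {G : SimpleGraph (Fin 99)} {v : Fin 99}

theorem Frame.T_symm (F : Frame G v) (A B : Fin 7 × Fin 7) (h : F.T A B) : F.T B A :=
  fun p q hpq => (h q p hpq.symm).symm

private def f19_blk (k : ℕ) : Fin 7 × Fin 7 := (Fin.ofNat 7 (k / 7), Fin.ofNat 7 (k % 7))

private theorem f19_blk_eq (A : Fin 7 × Fin 7) : f19_blk (7 * A.1.val + A.2.val) = A := by
  obtain ⟨i, j⟩ := A
  have hi := i.2
  have hj := j.2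
  unfold f19_blk
  refine Prod.ext (Fin.ext ?_) (Fin.ext ?_)
  · show (7 * i.val + j.val) / 7 % 7 = i.val
    omega
  · show (7 * i.val + j.val) % 7 % 7 = j.val
    omega

open Classical in
private noncomputable def f19_f (F : Frame G v) (n : ℕ) : Bool :=
  decide (F.T (f19_blk (n / 49)) (f19_blk (n % 49)))

private theorem f19_vidx (F : Frame G v) (A B : Fin 7 × Fin 7) :
    f19_f F (vidx A.1.val A.2.val B.1.val B.2.val) = true ↔ F.T A B := by
  classical
  have hA1 := A.1.2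
  have hA2 := A.2.2
  have hB1 := B.1.2
  have hB2 := B.2.2
  have key : ∀ C D : Fin 7 × Fin 7,
      f19_f F (49 * (7 * C.1.val + C.2.val) + (7 * D.1.val + D.2.val)) = true ↔ F.T C D := by
    intro C D
    have hC1 := C.1.2
    have hC2 := C.2.2
    have hD1 := D.1.2
    have hD2 := D.2.2
    unfold f19_f
    rw [decide_eq_true_iff]
    have e1 : (49 * (7 * C.1.val + C.2.val) + (7 * D.1.val + D.2.val)) / 49 =
        7 * C.1.val + C.2.val := by omega
    have e2 : (49 * (7 * C.1.val + C.2.val) + (7 * D.1.val + D.2.val)) % 49 =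
        7 * D.1.val + D.2.val := by omega
    rw [e1, e2, f19_blk_eq, f19_blk_eq]
  unfold vidx
  split_ifs with hlt
  · exact key A B
  · rw [key B A]
    exact ⟨F.T_symm B A, F.T_symm A B⟩

private def f19_p (t : List ℕ) (i : Fin 7) : Fin 7 := Fin.ofNat 7 (nth t i.val)

private theorem f19_core (h : Is99 G) (F : Frame G v) (t : List ℕ) (ht : t ∈ splits1 ∨ t ∈ splits2)
    (hinj : Function.Injective (f19_p t)) (hnth : ∀ i : Fin 7, nth t i.val = (f19_p t i).val)
    (hgp : ∀ i j : Fin 7, (i.val < 3 ∧ j.val < 3 ∨ 3 ≤ i.val ∧ 3 ≤ j.val) → i ≠ j →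
      F.Gp (f19_p t i) (f19_p t j)) :
    ∃ w ∈ svals t, ∀ i, w.testBit i = ((smask t).testBit i && f19_f F i) := by
  let π : Equiv.Perm (Fin 7) := Equiv.ofBijective (f19_p t) (Finite.injective_iff_bijective.1 hinj)
  have hs : Split (F.perm π) :=
    ⟨fun i j hi hj hij => hgp i j (Or.inl ⟨hi, hj⟩) hij,
      fun i j hi hj hij => hgp i j (Or.inr ⟨hi, hj⟩) hij⟩
  obtain ⟨α, δ, hCE, hDE, hCD, hgood⟩ := split_thm h (F.perm π) hs
  have hv : ∀ A B : Fin 7 × Fin 7,
      f19_f F (vidx (nth t A.1.val) (nth t A.2.val) (nth t B.1.val) (nth t B.2.val)) = true ↔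
        (F.perm π).T A B := by
    intro A B
    rw [hnth, hnth, hnth, hnth]
    exact f19_vidx F (f19_p t A.1, f19_p t A.2) (f19_p t B.1, f19_p t B.2)
  have hCD' : ∀ s : Fin 3, f19_f F (vidx (nth t (CB s).1.val) (nth t (CB s).2.val)
      (nth t (DB s).1.val) (nth t (DB s).2.val)) = ((α s).val == (δ s).val) := by
    intro s
    rw [Bool.eq_iff_iff, hv, hCD s, beq_iff_eq, Fin.ext_iff]
  have hCE' : ∀ s r : Fin 3, f19_f F (vidx (nth t (CB s).1.val) (nth t (CB s).2.val)
      (nth t (EB r).1.val) (nth t (EB r).2.val)) = ((α s).val == r.val) := by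
    intro s r
    rw [Bool.eq_iff_iff, hv, hCE s r, beq_iff_eq, Fin.ext_iff]
    exact eq_comm
  have hDE' : ∀ s r : Fin 3, f19_f F (vidx (nth t (DB s).1.val) (nth t (DB s).2.val)
      (nth t (EB r).1.val) (nth t (EB r).2.val)) = ((δ s).val == r.val) := by
    intro s r
    rw [Bool.eq_iff_iff, hv, hDE s r, beq_iff_eq, Fin.ext_iff]
    exact eq_comm
  refine split_val t ht (f19_f F) _ (good_mem α δ hgood) fun k => ?_
  fin_cases k
  · exact hCD' 0
  · exact hCD' 1
  · exact hCD' 2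
  · exact hCE' 0 0
  · exact hCE' 0 1
  · exact hCE' 0 2
  · exact hCE' 1 0
  · exact hCE' 1 1
  · exact hCE' 1 2
  · exact hCE' 2 0
  · exact hCE' 2 1
  · exact hCE' 2 2
  · exact hDE' 0 0
  · exact hDE' 0 1
  · exact hDE' 0 2
  · exact hDE' 1 0
  · exact hDE' 1 1
  · exact hDE' 1 2
  · exact hDE' 2 0
  · exact hDE' 2 1
  · exact hDE' 2 2

private theorem f19_s1 : ∀ t ∈ splits1, (∀ i j : Fin 7, f19_p t i = f19_p t j → i = j) ∧
    (∀ i : Fin 7, nth t i.val = (f19_p t i).val) ∧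
    ∀ i j : Fin 7, (i.val < 3 ∧ j.val < 3 ∨ 3 ≤ i.val ∧ 3 ≤ j.val) → i ≠ j →
      f19_p t i ≠ f19_p t j ∧ ¬ (f19_p t i = 3 ∧ f19_p t j = 4) ∧
      ¬ (f19_p t i = 4 ∧ f19_p t j = 3) ∧ ¬ (f19_p t i = 5 ∧ f19_p t j = 6) ∧
      ¬ (f19_p t i = 6 ∧ f19_p t j = 5) := by
  decide +kernel

private theorem f19_s2 : ∀ t ∈ splits2, (∀ i j : Fin 7, f19_p t i = f19_p t j → i = j) ∧
    (∀ i : Fin 7, nth t i.val = (f19_p t i).val) ∧
    ∀ i j : Fin 7, (i.val < 3 ∧ j.val < 3 ∨ 3 ≤ i.val ∧ 3 ≤ j.val) → i ≠ j →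
      f19_p t i ≠ f19_p t j ∧ ¬ (f19_p t i = 4 ∧ f19_p t j = 6) ∧
      ¬ (f19_p t i = 6 ∧ f19_p t j = 4) ∧ ¬ (f19_p t i = 5 ∧ f19_p t j = 6) ∧
      ¬ (f19_p t i = 6 ∧ f19_p t j = 5) := by
  decide +kernel

theorem no19_1 (h : Is99 G) (F : Frame G v)
    (hg : ∀ i j : Fin 7, i ≠ j → ¬ (i = 3 ∧ j = 4) → ¬ (i = 4 ∧ j = 3) → ¬ (i = 5 ∧ j = 6) → ¬ (i = 6 ∧ j = 5) →
      F.Gp i j) : False := by
  have h1 : bt (sdata splits1) 0 0 = true := by
    refine bt_sound (f19_f F) (sdata splits1) 0 0 ?_ ?_ ?_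
    · intro e he
      unfold sdata at he
      rw [List.mem_map] at he
      obtain ⟨t, ht, rfl⟩ := he
      obtain ⟨a1, a2, a3⟩ := f19_s1 t ht
      have hgp : ∀ i j : Fin 7, (i.val < 3 ∧ j.val < 3 ∨ 3 ≤ i.val ∧ 3 ≤ j.val) → i ≠ j →
          F.Gp (f19_p t i) (f19_p t j) := by
        intro i j hij hne
        obtain ⟨b1, b2, b3, b4, b5⟩ := a3 i j hij hne
        exact hg _ _ b1 b2 b3 b4 b5
      have hinj : Function.Injective (f19_p t) := fun i j => a1 i j
      obtain ⟨w, hw1, hw2⟩ := f19_core h F t (Or.inl ht) hinj a2 hgp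
      dsimp only
      exact ⟨w, hw1, hw2⟩
    · intro i hi
      rw [Nat.zero_testBit] at hi
      exact absurd hi (by decide)
    · intro i _
      exact Nat.zero_testBit i
  rw [bt_splits1] at h1
  exact absurd h1 (by decide)

theorem no19_2 (h : Is99 G) (F : Frame G v)
    (hg : ∀ i j : Fin 7, i ≠ j → ¬ (i = 4 ∧ j = 6) → ¬ (i = 6 ∧ j = 4) → ¬ (i = 5 ∧ j = 6) → ¬ (i = 6 ∧ j = 5) →
      F.Gp i j) : False := by
  have h1 : bt (sdata splits2) 0 0 = true := by
    refine bt_sound (f19_f F) (sdata splits2) 0 0 ?_ ?_ ?_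
    · intro e he
      unfold sdata at he
      rw [List.mem_map] at he
      obtain ⟨t, ht, rfl⟩ := he
      obtain ⟨a1, a2, a3⟩ := f19_s2 t ht
      have hgp : ∀ i j : Fin 7, (i.val < 3 ∧ j.val < 3 ∨ 3 ≤ i.val ∧ 3 ≤ j.val) → i ≠ j →
          F.Gp (f19_p t i) (f19_p t j) := by
        intro i j hij hne
        obtain ⟨b1, b2, b3, b4, b5⟩ := a3 i j hij hne
        exact hg _ _ b1 b2 b3 b4 b5
      have hinj : Function.Injective (f19_p t) := fun i j => a1 i j
      obtain ⟨w, hw1, hw2⟩ := f19_core h F t (Or.inr ht) hinj a2 hgp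
      dsimp only
      exact ⟨w, hw1, hw2⟩
    · intro i hi
      rw [Nat.zero_testBit] at hi
      exact absurd hi (by decide)
    · intro i _
      exact Nat.zero_testBit i
  rw [bt_splits2] at h1
  exact absurd h1 (by decide)

end Pool.Agent.H23.CG
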