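import Pool.Agent.H23.CG.LocDef

/-!
# Finite objects of the last step

Unknown of the backtracking: for blocks `(i,j)`, `(k,l)` (`i < j`, `k < l`) the bit with number `vidx i j k l` says
whether `F.T (i,j) (k,l)`.  A split is a list `[t0,t1,t2,q0,q1,q2,q3]` (`t0<t1<t2`, `q0<q1<q2<q3`).
-/
set_option autoImplicit false
namespace Pool.Agent.H23.CG

/-- one of the 96 patterns -/
def Good (α δ : Fin 3 → Fin 3) : Prop :=
  goodB (α 0).val (δ 0).val (α 1).val (δ 1).val (α 2).val (δ 2).val = true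

def vidx (i j k l : ℕ) : ℕ :=
  if 7 * i + j < 7 * k + l then 49 * (7 * i + j) + (7 * k + l) else 49 * (7 * k + l) + (7 * i + j)

def nth (t : List ℕ) (i : ℕ) : ℕ := t.getD i 0

/-- the numbers of the 21 bits of a split: `T (C s) (D s)`, then `T (C s) (E r)`, then `T (D s) (E r)` -/
def svars (t : List ℕ) : List ℕ :=
  let v (A B : Fin 7 × Fin 7) := vidx (nth t A.1) (nth t A.2) (nth t B.1) (nth t B.2)
  [v (CB 0) (DB 0), v (CB 1) (DB 1), v (CB 2) (DB 2),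
   v (CB 0) (EB 0), v (CB 0) (EB 1), v (CB 0) (EB 2), v (CB 1) (EB 0), v (CB 1) (EB 1), v (CB 1) (EB 2),
   v (CB 2) (EB 0), v (CB 2) (EB 1), v (CB 2) (EB 2),
   v (DB 0) (EB 0), v (DB 0) (EB 1), v (DB 0) (EB 2), v (DB 1) (EB 0), v (DB 1) (EB 1), v (DB 1) (EB 2),
   v (DB 2) (EB 0), v (DB 2) (EB 1), v (DB 2) (EB 2)]

/-- the 21 truth values of the pattern `[α0, δ0, α1, δ1, α2, δ2]` in the same order -/
def pvals (l : List ℕ) : List Bool :=
  let a0 := nth l 0; let d0 := nth l 1; let a1 := nth l 2; let d1 := nth l 3; let a2 := nth l 4; let d2 := nth l 5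
  [a0 == d0, a1 == d1, a2 == d2,
   a0 == 0, a0 == 1, a0 == 2, a1 == 0, a1 == 1, a1 == 2, a2 == 0, a2 == 1, a2 == 2,
   d0 == 0, d0 == 1, d0 == 2, d1 == 0, d1 == 1, d1 == 2, d2 == 0, d2 == 1, d2 == 2]

def goodList : List (List ℕ) :=
  ((List.range 729).map fun k => [k % 3, k / 3 % 3, k / 9 % 3, k / 27 % 3, k / 81 % 3, k / 243 % 3]).filter
    fun l => goodB (nth l 0) (nth l 1) (nth l 2) (nth l 3) (nth l 4) (nth l 5)

/-- bit mask -/
def bmask (vs : List ℕ) (bs : List Bool) : ℕ :=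
  (vs.zip bs).foldl (fun m p => m ||| (cond p.2 (1 <<< p.1) 0)) 0

def smask (t : List ℕ) : ℕ := bmask (svars t) (List.replicate 21 true)
def svals (t : List ℕ) : List ℕ := goodList.map fun l => bmask (svars t) (pvals l)

/-- backtracking: `K` = known bits, `V` = their values; `true` iff there is an assignment -/
def bt : List (ℕ × List ℕ) → ℕ → ℕ → Bool
  | [], _, _ => true
  | (m, vs) :: rest, K, V =>
      vs.any fun v => Nat.beq ((V ^^^ v) &&& (K &&& m)) 0 && bt rest (K ||| m) (V ||| v)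

def splits1 : List (List ℕ) :=
  [[0, 4, 6, 1, 2, 3, 5], [2, 3, 5, 0, 1, 4, 6], [1, 4, 6, 0, 2, 3, 5], [2, 3, 6, 0, 1, 4, 5],
   [2, 4, 5, 0, 1, 3, 6], [2, 4, 6, 0, 1, 3, 5]]
def splits2 : List (List ℕ) :=
  [[0, 3, 6, 1, 2, 4, 5], [1, 4, 5, 0, 2, 3, 6], [2, 3, 6, 0, 1, 4, 5], [2, 4, 5, 0, 1, 3, 6],
   [1, 3, 6, 0, 2, 4, 5], [3, 4, 5, 0, 1, 2, 6]]

def sdata (L : List (List ℕ)) : List (ℕ × List ℕ) := L.map fun t => (smask t, svals t)

end Pool.Agent.H23.CG
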