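import Mathlib

/-!
LAB. Labelling of a set of 14 elements with a fixed point free involution.

Proof. Let `R = {w ∈ N | w < τ w}`; `N` is the disjoint union of `R` and `τ '' R`, so `R` has 7 elements; let
`e : Fin 7 ≃ R` (e.g. `Finset.orderIsoOfFin`), `a i true = e i`, `a i false = τ (e i)`.
-/
set_option autoImplicit false
namespace Pool.Agent.H23.CG

theorem exists_labelling (N : Set (Fin 99)) (hN : N.ncard = 14) (τ : Fin 99 → Fin 99)
    (h1 : ∀ w ∈ N, τ w ∈ N) (h2 : ∀ w ∈ N, τ w ≠ w) (h3 : ∀ w ∈ N, τ (τ w) = w) :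
    ∃ a : Fin 7 → Bool → Fin 99, (∀ i ε, a i ε ∈ N) ∧ (∀ i j ε δ, a i ε = a j δ → i = j ∧ ε = δ) ∧
      (∀ w ∈ N, ∃ i ε, w = a i ε) ∧ ∀ i, τ (a i true) = a i false := by
  classical
  set R : Finset (Fin 99) := Finset.univ.filter fun w => w ∈ N ∧ w < τ w with hR
  have hmR : ∀ w, w ∈ R ↔ w ∈ N ∧ w < τ w := by
    intro w
    rw [hR, Finset.mem_filter]
    exact ⟨fun h => h.2, fun h => ⟨Finset.mem_univ _, h⟩⟩
  have hNu : N = ((R ∪ R.image τ : Finset (Fin 99)) : Set (Fin 99)) := by
    ext w
    rw [Finset.mem_coe, Finset.mem_union, Finset.mem_image, hmR]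
    constructor
    · intro hw
      rcases lt_or_gt_of_ne (h2 w hw) with h | h
      · right
        refine ⟨τ w, (hmR _).2 ⟨h1 w hw, ?_⟩, h3 w hw⟩
        rw [h3 w hw]
        exact h
      · exact Or.inl ⟨hw, h⟩
    · rintro (⟨hw, -⟩ | ⟨u, hu, rfl⟩)
      · exact hw
      · exact h1 u ((hmR u).1 hu).1
  have hdisj : Disjoint R (R.image τ) := by
    rw [Finset.disjoint_left]
    intro w hw hw'
    rw [Finset.mem_image] at hw'
    obtain ⟨u, hu, rfl⟩ := hw'
    rw [hmR] at hw hu
    have h4 := hw.2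
    rw [h3 u hu.1] at h4
    exact absurd hu.2 (not_lt.2 h4.le)
  have hinj : Set.InjOn τ (R : Set (Fin 99)) := by
    intro u hu w hw he
    have hu' := ((hmR u).1 hu).1
    have hw' := ((hmR w).1 hw).1
    rw [← h3 u hu', he, h3 w hw']
  have hcard : R.card = 7 := by
    have h4 : N.ncard = R.card + R.card := by
      rw [hNu, Set.ncard_coe_finset, Finset.card_union_of_disjoint hdisj,
        Finset.card_image_of_injOn hinj]
    omega
  set e := R.orderIsoOfFin hcard with he
  have heR : ∀ i, (e i : Fin 99) ∈ R := fun i => (e i).2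
  have heN : ∀ i, (e i : Fin 99) ∈ N := fun i => ((hmR _).1 (heR i)).1
  refine ⟨fun i ε => if ε = true then (e i : Fin 99) else τ (e i), ?_, ?_, ?_, ?_⟩
  · intro i ε
    dsimp only
    split_ifs
    · exact heN i
    · exact h1 _ (heN i)
  · intro i j ε δ h
    have hne : ∀ i j, (e i : Fin 99) ≠ τ (e j) := by
      intro i j h
      refine (Finset.disjoint_left.1 hdisj) (heR i) ?_
      rw [h]
      exact Finset.mem_image_of_mem _ (heR j)
    cases ε <;> cases δ
    · simp only [Bool.false_eq_true, if_false] at h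
      have h4 : (e i : Fin 99) = e j := hinj (heR i) (heR j) h
      exact ⟨e.injective (Subtype.ext h4), rfl⟩
    · simp only [Bool.false_eq_true, if_false, if_true] at h
      exact absurd h.symm (hne j i)
    · simp only [Bool.false_eq_true, if_false, if_true] at h
      exact absurd h (hne i j)
    · simp only [if_true] at h
      exact ⟨e.injective (Subtype.ext h), rfl⟩
  · intro w hw
    rw [hNu, Finset.mem_coe, Finset.mem_union, Finset.mem_image] at hw
    rcases hw with hw | ⟨u, hu, rfl⟩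
    · refine ⟨e.symm ⟨w, hw⟩, true, ?_⟩
      simp
    · refine ⟨e.symm ⟨u, hu⟩, false, ?_⟩
      simp
  · intro i
    simp

end Pool.Agent.H23.CG
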