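import Pool.Agent.H23.CG.Reg
import Pool.Agent.H23.CG.Lab

/-!
FRM. Every vertex of a 99-graph has a frame.

Proof. For `w ∈ N v` let `τ w` be the third point of the triangle on `v w` (`Is99.third`, `choose`; outside `N v` arbitrary). `τ w ∈ N v`,
`τ w ≠ w`, `τ (τ w) = w`. LAB gives `a`. `a_a`: `a i true`, `a i false` are adjacent; if `a i ε`, `a j δ` are adjacent then
`a j δ` is a common neighbour of `v` and `a i ε`, so `a j δ = τ (a i ε) = a i (!ε)`.
For `i ≠ j` the vertices `a i ε`, `a j δ` are different and not adjacent, `v` is one of their two common neighbours; `x i j ε δ` is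
the other one (`Is99.two`).  For `i = j` put `x i i ε δ := v` (any value symmetric in `ε`, `δ`; only `x_symm` speaks about `i = j`).
To get `x_symm` it is convenient to prove uniqueness first: for `i ≠ j` there is exactly one `w ≠ v` adjacent to both, and the condition
is symmetric.
`x_far`: `w = x i j ε δ ≠ v`; if `w` is adjacent to `v` then `w, a i ε` are both neighbours of `v`, adjacent: `w = a i (!ε)`, similarly
`w = a j (!δ)`, contradiction to `a_inj`.
`a_x`: `←` by definition. `→`: `w = x i j ε δ` is not adjacent to `v` and `≠ v`, so `v`, `w` have exactly two common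
neighbours, and `a i ε ≠ a j δ` are two of them; so `a k η` is one of them (`no3`).
`x_inj`: the set of the `a k η` adjacent to `w` is `{a i ε, a j δ}` and also `{a k ε', a l δ'}` (use `a_x`).
`cover`: `w ≠ v` not adjacent to `v`: two common neighbours `z ≠ z'`, `z = a i ε`, `z' = a j δ`; if `i = j` then `z, z'` are adjacent
with the two common neighbours `v, w` (`no2`); so `i ≠ j` and `w = x i j ε δ` by uniqueness.
-/
set_option autoImplicit false
namespace Pool.Agent.H23.CG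
open SimpleGraph

theorem exists_frame {G : SimpleGraph (Fin 99)} (h : Is99 G) (v : Fin 99) : Nonempty (Frame G v) := by
  classical
  have ht : ∀ w, ∃ z, G.Adj v w → (G.Adj v z ∧ G.Adj w z ∧
      ∀ u, G.Adj v u → G.Adj w u → u = z) := by
    intro w
    by_cases hw : G.Adj v w
    · obtain ⟨z, h1, h2, h3⟩ := h.third hw
      exact ⟨z, fun _ => ⟨h1, h2, h3⟩⟩
    · exact ⟨v, fun h' => absurd h' hw⟩
  choose τ hτ using ht
  have hττ : ∀ w, G.Adj v w → τ (τ w) = w := fun w hw =>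
    ((hτ (τ w) (hτ w hw).1).2.2 w hw (hτ w hw).2.1.symm).symm
  obtain ⟨a, ha1, ha2, ha3, ha4⟩ := exists_labelling (G.neighborSet v) (h.deg v) τ
    (fun w hw => (hτ w hw).1) (fun w hw => (hτ w hw).2.1.ne') (fun w hw => hττ w hw)
  have hva : ∀ i ε, G.Adj v (a i ε) := ha1
  have hτa : ∀ i ε, τ (a i ε) = a i (!ε) := by
    intro i ε
    cases ε
    · rw [← ha4 i, hττ _ (hva i true)]
      rfl
    · exact ha4 i
  have haa : ∀ i j ε δ, G.Adj (a i ε) (a j δ) ↔ i = j ∧ ε ≠ δ := by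
    intro i j ε δ
    constructor
    · intro hadj
      have h1 := (hτ (a i ε) (hva i ε)).2.2 (a j δ) (hva j δ) hadj
      rw [hτa] at h1
      obtain ⟨h2, h3⟩ := ha2 _ _ _ _ h1
      refine ⟨h2.symm, ?_⟩
      rw [h3]
      cases ε <;> decide
    · rintro ⟨rfl, hne⟩
      have h1 := (hτ (a i ε) (hva i ε)).2.1
      rw [hτa] at h1
      have h2 : (!ε) = δ := by
        cases ε <;> cases δ <;> first | rfl | exact absurd rfl hne
      rwa [h2] at h1
  have hx : ∀ i j ε δ, ∃ w, i ≠ j → (w ≠ v ∧ G.Adj (a i ε) w ∧ G.Adj (a j δ) w ∧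
      ∀ u, u ≠ v → G.Adj (a i ε) u → G.Adj (a j δ) u → u = w) := by
    intro i j ε δ
    by_cases hij : i = j
    · exact ⟨v, fun h' => absurd hij h'⟩
    have hne : a i ε ≠ a j δ := fun he => hij (ha2 _ _ _ _ he).1
    have hna : ¬ G.Adj (a i ε) (a j δ) := fun he => hij ((haa _ _ _ _).1 he).1
    obtain ⟨z, z', hzz, h1, h2, h3, h4, h5⟩ := h.two hne hna
    rcases h5 v (hva i ε).symm (hva j δ).symm with e | e
    · subst e
      refine ⟨z', fun _ => ⟨hzz.symm, h3, h4, fun u hu hu1 hu2 => ?_⟩⟩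
      rcases h5 u hu1 hu2 with e | e
      · exact absurd e hu
      · exact e
    · subst e
      refine ⟨z, fun _ => ⟨hzz, h1, h2, fun u hu hu1 hu2 => ?_⟩⟩
      rcases h5 u hu1 hu2 with e | e
      · exact e
      · exact absurd e hu
  choose x₀ hx₀ using hx
  set x : Fin 7 → Fin 7 → Bool → Bool → Fin 99 := fun i j ε δ =>
    if i = j then v else x₀ i j ε δ with hxdef
  have hxe : ∀ i j ε δ, i ≠ j → x i j ε δ = x₀ i j ε δ := by
    intro i j ε δ hij
    rw [hxdef]
    exact if_neg hij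
  have hxv : ∀ i j ε δ, i ≠ j → x i j ε δ ≠ v := by
    intro i j ε δ hij
    rw [hxe _ _ _ _ hij]
    exact (hx₀ i j ε δ hij).1
  have hx1 : ∀ i j ε δ, i ≠ j → G.Adj (a i ε) (x i j ε δ) := by
    intro i j ε δ hij
    rw [hxe _ _ _ _ hij]
    exact (hx₀ i j ε δ hij).2.1
  have hx2 : ∀ i j ε δ, i ≠ j → G.Adj (a j δ) (x i j ε δ) := by
    intro i j ε δ hij
    rw [hxe _ _ _ _ hij]
    exact (hx₀ i j ε δ hij).2.2.1
  have hx3 : ∀ i j ε δ, i ≠ j → ∀ u, u ≠ v → G.Adj (a i ε) u → G.Adj (a j δ) u →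
      u = x i j ε δ := by
    intro i j ε δ hij
    rw [hxe _ _ _ _ hij]
    exact (hx₀ i j ε δ hij).2.2.2
  have hfar : ∀ i j ε δ, i ≠ j → x i j ε δ ≠ v ∧ ¬ G.Adj v (x i j ε δ) := by
    intro i j ε δ hij
    refine ⟨hxv i j ε δ hij, fun hadj => hij ?_⟩
    have h1 := (hτ (a i ε) (hva i ε)).2.2 _ hadj (hx1 i j ε δ hij)
    have h2 := (hτ (a j δ) (hva j δ)).2.2 _ hadj (hx2 i j ε δ hij)
    rw [hτa] at h1 h2
    exact (ha2 _ _ _ _ (h1.symm.trans h2)).1
  have hax : ∀ i j k ε δ η, i ≠ j →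
      (G.Adj (a k η) (x i j ε δ) ↔ (k = i ∧ η = ε) ∨ (k = j ∧ η = δ)) := by
    intro i j k ε δ η hij
    constructor
    · intro hadj
      by_contra hcon
      push Not at hcon
      have h1 : a i ε ≠ a k η := fun he =>
        hcon.1 (ha2 _ _ _ _ he).1.symm (ha2 _ _ _ _ he).2.symm
      have h2 : a j δ ≠ a k η := fun he =>
        hcon.2 (ha2 _ _ _ _ he).1.symm (ha2 _ _ _ _ he).2.symm
      have h3 : a i ε ≠ a j δ := fun he => hij (ha2 _ _ _ _ he).1
      exact h.no3 (hfar i j ε δ hij).1.symm h3 h1 h2 (hva i ε) (hx1 i j ε δ hij).symm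
        (hva j δ) (hx2 i j ε δ hij).symm (hva k η) hadj.symm
    · rintro (⟨rfl, rfl⟩ | ⟨rfl, rfl⟩)
      · exact hx1 _ _ _ _ hij
      · exact hx2 _ _ _ _ hij
  refine ⟨⟨a, x, hva, ha2, fun w hw => ha3 w hw, haa, ?_, hfar, hax, ?_, ?_⟩⟩
  · intro i j ε δ
    by_cases hij : i = j
    · rw [hxdef]
      show (if i = j then v else x₀ i j ε δ) = if j = i then v else x₀ j i δ ε
      rw [if_pos hij, if_pos hij.symm]
    · exact hx3 j i δ ε (Ne.symm hij) _ (hxv i j ε δ hij) (hx2 i j ε δ hij) (hx1 i j ε δ hij)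
  · intro i j k l ε δ ε' δ' hij hkl he
    have h1 := hx1 k l ε' δ' hkl
    have h2 := hx2 k l ε' δ' hkl
    rw [← he, hax i j _ _ _ _ hij] at h1 h2
    rcases h1 with ⟨e1, e2⟩ | ⟨e1, e2⟩ <;> rcases h2 with ⟨e3, e4⟩ | ⟨e3, e4⟩
    · exact absurd (e1.trans e3.symm) hkl
    · exact Or.inl ⟨e1.symm, e3.symm, e2.symm, e4.symm⟩
    · exact Or.inr ⟨e3.symm, e1.symm, e4.symm, e2.symm⟩
    · exact absurd (e1.trans e3.symm) hkl
  · intro w hwv hadj
    obtain ⟨z, z', hzz, h1, h2, h3, h4, -⟩ := h.two (Ne.symm hwv) hadj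
    obtain ⟨i, ε, rfl⟩ := ha3 z h1
    obtain ⟨j, δ, rfl⟩ := ha3 z' h3
    have hij : i ≠ j := by
      rintro rfl
      have h5 : ε ≠ δ := fun e => hzz (by rw [e])
      exact h.no2 (Ne.symm hwv) h1.symm h3.symm h2.symm h4.symm ((haa _ _ _ _).2 ⟨rfl, h5⟩)
    exact ⟨i, j, ε, δ, hij, hx3 i j ε δ hij w hwv h2.symm h4.symm⟩

end Pool.Agent.H23.CG
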