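import Pool.Agent.H23.CG.Blk

/-!
GRD. A grid through `v` is a `box`.

Let `e : G.induce S ≃g K₃ □ K₃`, `φ : Fin 3 × Fin 3 → Fin 99` its inverse (`φ p = (e.symm p).1`): injective, range `S`, `G.Adj (φ p) (φ q) ↔ (p.1 ≠ q.1 ∧ p.2 = q.2) ∨ (p.1 = q.1 ∧ p.2 ≠ q.2)` (`boxProd_adj`, `top_adj`). Let `φ (m, n) = v`; let `m', m''` be the two other rows and
`n', n''` the two other columns (composing with permutations of the factors one may assume `m = n = 0`; or write `m' = m + 1`, `m'' = m + 2`, `n' = n + 1`, `n'' = n + 2` in `Fin 3`).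
`φ (m', n)`, `φ (m'', n)` are adjacent neighbours of `v`: they are `a i ε`, `a i (!ε)` for some `i` (`a_surj`, `a_a`). Similarly `φ (m, n')`, `φ (m, n'')` are `a j δ`, `a j (!δ)`; `i ≠ j` since `φ` is injective and there are only two `a i ·`.
`φ (m', n')` is adjacent to `φ (m', n) = a i ε` and `φ (m, n') = a j δ`, different from `v` and not adjacent to `v`: by `cover` and `a_x` it is `x i j ε δ`. Same for the other three: `φ` of the four remaining places are the `x i j · ·` with all four sign combinations. So `S = box i j`, and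
`Gp i j`: `x i j ε true`, `x i j ε false` are in one row, etc. If `j < i` exchange them (`x_symm`, `box i j = box j i`, `Gp_symm`).
-/
set_option autoImplicit false
namespace Pool.Agent.H23.CG
open SimpleGraph

/-- the nine vertices of a grid through `v` -/
private theorem grd_psi {G : SimpleGraph (Fin 99)} {v : Fin 99} (S : Set (Fin 99))
    (hS : IsGrid G S) (hv : v ∈ S) : ∃ ψ : Fin 3 → Fin 3 → Fin 99, ψ 0 0 = v ∧
      (∀ s t s' t', ψ s t = ψ s' t' → s = s' ∧ t = t') ∧ (∀ w, w ∈ S ↔ ∃ s t, w = ψ s t) ∧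
      (∀ s t s' t', G.Adj (ψ s t) (ψ s' t') ↔ (s ≠ s' ∧ t = t') ∨ (s = s' ∧ t ≠ t')) := by
  obtain ⟨e⟩ := hS
  obtain ⟨m, n⟩ : ∃ m, m = (e ⟨v, hv⟩).1 := ⟨_, rfl⟩
  obtain ⟨m', n'⟩ : ∃ m', m' = (e ⟨v, hv⟩).2 := ⟨_, rfl⟩
  refine ⟨fun s t => (e.symm (m + s, m' + t)).1, ?_, ?_, ?_, ?_⟩
  · show (e.symm (m + 0, m' + 0)).1 = v
    rw [add_zero, add_zero, n, n']
    show (e.symm (e ⟨v, hv⟩)).1 = v
    rw [RelIso.symm_apply_apply]
  · intro s t s' t' h
    have h1 := e.symm.injective (Subtype.ext h)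
    rw [Prod.mk.injEq] at h1
    exact ⟨add_left_cancel h1.1, add_left_cancel h1.2⟩
  · intro w
    constructor
    · intro hw
      refine ⟨(e ⟨w, hw⟩).1 - m, (e ⟨w, hw⟩).2 - m', ?_⟩
      show w = (e.symm (m + ((e ⟨w, hw⟩).1 - m), m' + ((e ⟨w, hw⟩).2 - m'))).1
      rw [add_sub_cancel, add_sub_cancel]
      show w = (e.symm (e ⟨w, hw⟩)).1
      rw [RelIso.symm_apply_apply]
    · rintro ⟨s, t, rfl⟩
      exact (e.symm (m + s, m' + t)).2
  · intro s t s' t'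
    have h1 : G.Adj (e.symm (m + s, m' + t)).1 (e.symm (m + s', m' + t')).1 ↔
        ((⊤ : SimpleGraph (Fin 3)) □ (⊤ : SimpleGraph (Fin 3))).Adj (m + s, m' + t)
          (m + s', m' + t') := by
      have h2 := e.symm.map_rel_iff (a := (m + s, m' + t)) (b := (m + s', m' + t'))
      exact h2
    show G.Adj (e.symm (m + s, m' + t)).1 (e.symm (m + s', m' + t')).1 ↔ _
    rw [h1, boxProd_adj]
    simp only [top_adj, ne_eq, add_right_inj]
    tauto

private theorem grd_line {G : SimpleGraph (Fin 99)} {v : Fin 99} (F : Frame G v)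
    (ρ : Fin 3 → Fin 99) (h1 : G.Adj v (ρ 1)) (h2 : G.Adj v (ρ 2)) (h3 : G.Adj (ρ 1) (ρ 2)) :
    ∃ (i : Fin 7) (α : Bool → Fin 3), (∀ b, ρ (α b) = F.a i b) ∧ (∀ s, s = 0 ∨ ∃ b, s = α b) ∧
      (∀ b, α b ≠ 0) := by
  obtain ⟨i, ε, e1⟩ := F.a_surj _ h1
  obtain ⟨i', ε', e2⟩ := F.a_surj _ h2
  rw [e1, e2, F.a_a] at h3
  obtain ⟨rfl, hne⟩ := h3
  rcases ε with _ | _ <;> rcases ε' with _ | _
  · exact absurd rfl hne
  · refine ⟨i, fun b => if b then 2 else 1, fun b => ?_, fun s => ?_, fun b => ?_⟩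
    · rcases b with _ | _
      · exact e1
      · exact e2
    · fin_cases s
      · exact Or.inl rfl
      · exact Or.inr ⟨false, rfl⟩
      · exact Or.inr ⟨true, rfl⟩
    · rcases b with _ | _ <;> simp
  · refine ⟨i, fun b => if b then 1 else 2, fun b => ?_, fun s => ?_, fun b => ?_⟩
    · rcases b with _ | _
      · exact e2
      · exact e1
    · fin_cases s
      · exact Or.inl rfl
      · exact Or.inr ⟨true, rfl⟩
      · exact Or.inr ⟨false, rfl⟩
    · rcases b with _ | _ <;> simp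
  · exact absurd rfl hne

private theorem grd_x {G : SimpleGraph (Fin 99)} {v : Fin 99} (F : Frame G v) {i j : Fin 7}
    (hij : i ≠ j) {ε δ : Bool} {w : Fin 99} (hw : w ≠ v) (hv : ¬ G.Adj v w)
    (h1 : G.Adj (F.a i ε) w) (h2 : G.Adj (F.a j δ) w) : w = F.x i j ε δ := by
  obtain ⟨k, l, η, θ, hkl, rfl⟩ := F.cover w hw hv
  rw [F.a_x _ _ _ _ _ _ hkl] at h1 h2
  rcases h1 with ⟨rfl, rfl⟩ | ⟨rfl, rfl⟩
  · rcases h2 with ⟨rfl, rfl⟩ | ⟨rfl, rfl⟩
    · exact absurd rfl hij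
    · rfl
  · rcases h2 with ⟨rfl, rfl⟩ | ⟨rfl, rfl⟩
    · exact F.x_symm _ _ _ _
    · exact absurd rfl hij

private theorem grd_box_symm {G : SimpleGraph (Fin 99)} {v : Fin 99} (F : Frame G v)
    (i j : Fin 7) : F.box i j = F.box j i := by
  have key : ∀ i j : Fin 7, F.box i j ⊆ F.box j i := by
    intro i j w hw
    rcases hw with h | h | h | ⟨ε, δ, h⟩
    · exact Or.inl h
    · exact Or.inr (Or.inr (Or.inl h))
    · exact Or.inr (Or.inl h)
    · exact Or.inr (Or.inr (Or.inr ⟨δ, ε, by rw [h]; exact F.x_symm _ _ _ _⟩))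
  exact Set.Subset.antisymm (key i j) (key j i)

theorem grid_box {G : SimpleGraph (Fin 99)} {v : Fin 99} (h : Is99 G) (F : Frame G v) (S : Set (Fin 99))
    (hS : IsGrid G S) (hv : v ∈ S) : ∃ i j, i < j ∧ F.Gp i j ∧ S = F.box i j := by
  obtain ⟨ψ, h0, hinj, hmem, hadj⟩ := grd_psi S hS hv
  have hrow : ∀ s t : Fin 3, s ≠ t → G.Adj (ψ s 0) (ψ t 0) := fun s t hst =>
    (hadj s 0 t 0).mpr (Or.inl ⟨hst, rfl⟩)
  have hcol : ∀ s t : Fin 3, s ≠ t → G.Adj (ψ 0 s) (ψ 0 t) := fun s t hst =>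
    (hadj 0 s 0 t).mpr (Or.inr ⟨rfl, hst⟩)
  obtain ⟨i, α, hα, hα2, hα3⟩ := grd_line F (fun s => ψ s 0) (by
    have := hrow 0 1 (by decide); rwa [h0] at this) (by
    have := hrow 0 2 (by decide); rwa [h0] at this) (hrow 1 2 (by decide))
  obtain ⟨j, β, hβ, hβ2, hβ3⟩ := grd_line F (fun s => ψ 0 s) (by
    have := hcol 0 1 (by decide); rwa [h0] at this) (by
    have := hcol 0 2 (by decide); rwa [h0] at this) (hcol 1 2 (by decide))
  have hα' : ∀ b, ψ (α b) 0 = F.a i b := hα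
  have hβ' : ∀ b, ψ 0 (β b) = F.a j b := hβ
  have hij : i ≠ j := by
    rintro rfl
    have h1 : ψ (α true) 0 = ψ 0 (β true) := by rw [hα', hβ']
    exact hα3 true (hinj _ _ _ _ h1).1
  have hx : ∀ b c, ψ (α b) (β c) = F.x i j b c := by
    intro b c
    refine grd_x F hij ?_ ?_ ?_ ?_
    · intro h1
      rw [← h0] at h1
      exact hα3 b (hinj _ _ _ _ h1).1
    · rw [← h0, hadj]
      rintro (⟨_, h2⟩ | ⟨h2, _⟩)
      · exact hβ3 c h2.symm
      · exact hα3 b h2.symm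
    · rw [← hα', hadj]
      exact Or.inr ⟨rfl, (hβ3 c).symm⟩
    · rw [← hβ', hadj]
      exact Or.inl ⟨(hα3 b).symm, rfl⟩
  have hbox : S = F.box i j := by
    ext w
    rw [hmem]
    constructor
    · rintro ⟨s, t, rfl⟩
      rcases hα2 s with rfl | ⟨b, rfl⟩
      · rcases hβ2 t with rfl | ⟨c, rfl⟩
        · exact Or.inl h0
        · exact Or.inr (Or.inr (Or.inl ⟨c, hβ' c⟩))
      · rcases hβ2 t with rfl | ⟨c, rfl⟩
        · exact Or.inr (Or.inl ⟨b, hα' b⟩)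
        · exact Or.inr (Or.inr (Or.inr ⟨b, c, hx b c⟩))
    · rintro (rfl | ⟨ε, rfl⟩ | ⟨ε, rfl⟩ | ⟨ε, δ, rfl⟩)
      · exact ⟨0, 0, h0.symm⟩
      · exact ⟨α ε, 0, (hα' ε).symm⟩
      · exact ⟨0, β ε, (hβ' ε).symm⟩
      · exact ⟨α ε, β δ, (hx ε δ).symm⟩
  have hαi : α true ≠ α false := by
    intro h1
    have h2 : F.a i true = F.a i false := by rw [← hα', ← hα', h1]
    exact absurd (F.a_inj _ _ _ _ h2).2 (by decide)
  have hβi : β true ≠ β false := by
    intro h1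
    have h2 : F.a j true = F.a j false := by rw [← hβ', ← hβ', h1]
    exact absurd (F.a_inj _ _ _ _ h2).2 (by decide)
  have hg : F.Gp i j := by
    refine ⟨fun ε => ?_, fun δ => ?_⟩
    · rw [← hx, ← hx, hadj]
      exact Or.inr ⟨rfl, hβi⟩
    · rw [← hx, ← hx, hadj]
      exact Or.inl ⟨hαi, rfl⟩
  rcases lt_or_gt_of_ne hij with h | h
  · exact ⟨i, j, h, hg, hbox⟩
  · exact ⟨j, i, h, F.Gp_symm hg, by rw [hbox, grd_box_symm]⟩

/-- a grid has nine vertices -/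
theorem grid_card {G : SimpleGraph (Fin 99)} (S : Set (Fin 99)) (hS : IsGrid G S) : S.ncard = 9 := by
  obtain ⟨e⟩ := hS
  rw [← Nat.card_coe_set_eq, Nat.card_congr e.toEquiv, Nat.card_prod]
  simp

end Pool.Agent.H23.CG
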