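import Pool.Agent.H23.CG.Perm

/-!
HD. The functions `h s r = (u s r)⁻¹ ∘ w s r` and `d s r = (cl (u s r))⁻¹`.

Injective self-maps of a finite type are bijective (`Finite.injective_iff_bijective`), take inverses (`Equiv.ofBijective`).
-/
set_option autoImplicit false
namespace Pool.Agent.H23.CG

theorem exists_hd (u w : Fin 3 → Fin 3 → Fin 4 → Fin 4) (ui : ∀ s r, Function.Injective (u s r))
    (wi : ∀ s r, Function.Injective (w s r)) :
    ∃ (h : Fin 3 → Fin 3 → Fin 4 → Fin 4) (d : Fin 3 → Fin 3 → Fin 3 → Fin 3),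
      (∀ s r, Function.Injective (h s r)) ∧ (∀ s r, u s r ∘ h s r = w s r) ∧
      (∀ s r, Function.Injective (d s r)) ∧ ∀ s r x, cl (u s r) (d s r x) = x := by
  have bu : ∀ s r, Function.Bijective (u s r) := fun s r => Finite.injective_iff_bijective.mp (ui s r)
  have bc : ∀ s r, Function.Bijective (cl (u s r)) := fun s r =>
    Finite.injective_iff_bijective.mp (cl_inj _ (ui s r))
  refine ⟨fun s r => (Equiv.ofBijective _ (bu s r)).symm ∘ w s r,
    fun s r => (Equiv.ofBijective _ (bc s r)).symm, ?_, ?_, ?_, ?_⟩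
  · intro s r
    exact (Equiv.injective _).comp (wi s r)
  · intro s r
    funext p
    exact Equiv.apply_symm_apply (Equiv.ofBijective _ (bu s r)) (w s r p)
  · intro s r
    exact Equiv.injective _
  · intro s r x
    exact Equiv.apply_symm_apply (Equiv.ofBijective _ (bc s r)) x

end Pool.Agent.H23.CG
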