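import Pool.Agent.H23.CG.Perm

/-!
JN. `4 * Jn h h' a b = |4 [a = b] + ∑ p, chi a (h p) * chi b (h' p)|`.

`chi a p = 1 - 2 * sb a p` (`decide` for all `a`, `p`), so `chi a p * chi b q = 1 - 2 * ((sb a p + sb b q) % 2)` (`decide`, 144 cases) and the sum
is `4 - 2N` with `N` as in `Jn` (`ev_code4`). For injective `h`: `∑ p, sb a (h p) = ∑ p, sb a p = 2` (the sum over all of `Fin 4`, e.g. `decide` or a bijection), so `N` is
even (the sum of the `sb`'s is 4 and `% 2` does not change the parity), `0 ≤ N ≤ 4`. For `a = b`: `4 + 4 - 2N = 4 (2 - N/2) ≥ 0`. For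
`a ≠ b`: `|4 - 2N| = 4` for `N = 0, 4` and `0` for `N = 2`.
-/
set_option autoImplicit false
namespace Pool.Agent.H23.CG

private theorem chi_prod (a b : Fin 3) (p q : Fin 4) :
    chi a p * chi b q = 1 - 2 * (((sb a.val p.val + sb b.val q.val) % 2 : ℕ) : ℤ) := by
  revert a b p q; decide +kernel

private theorem sb_sum (g : Fin 4 → Fin 4) (hg : Function.Injective g) (a : Fin 3) :
    sb a.val (g 0).val + sb a.val (g 1).val + sb a.val (g 2).val + sb a.val (g 3).val = 2 := by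
  have key : ∀ x y z w : Fin 4, (x ≠ y ∧ x ≠ z ∧ x ≠ w ∧ y ≠ z ∧ y ≠ w ∧ z ≠ w) → ∀ a : Fin 3,
      sb a.val x.val + sb a.val y.val + sb a.val z.val + sb a.val w.val = 2 := by decide +kernel
  apply key
  refine ⟨?_, ?_, ?_, ?_, ?_, ?_⟩ <;> intro hh <;> exact absurd (hg hh) (by decide)

theorem Jn_code (h h' : Fin 4 → Fin 4) (hh : Function.Injective h) (hh' : Function.Injective h') (a b : Fin 3) :
    4 * (Jn (code4 h) (code4 h') a.val b.val : ℤ) =
      |4 * (if a = b then 1 else 0) + ∑ p, chi a (h p) * chi b (h' p)| := by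
  have s1 := sb_sum h hh a
  have s2 := sb_sum h' hh' b
  have v0 : ev (code4 h) 0 = (h 0).val := ev_code4 h 0
  have v1 : ev (code4 h) 1 = (h 1).val := ev_code4 h 1
  have v2 : ev (code4 h) 2 = (h 2).val := ev_code4 h 2
  have v3 : ev (code4 h) 3 = (h 3).val := ev_code4 h 3
  have w0 : ev (code4 h') 0 = (h' 0).val := ev_code4 h' 0
  have w1 : ev (code4 h') 1 = (h' 1).val := ev_code4 h' 1
  have w2 : ev (code4 h') 2 = (h' 2).val := ev_code4 h' 2
  have w3 : ev (code4 h') 3 = (h' 3).val := ev_code4 h' 3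
  have hab : a = b ↔ a.val = b.val := Fin.ext_iff
  rw [Fin.sum_univ_four]
  simp only [chi_prod]
  unfold Jn
  simp only [v0, v1, v2, v3, w0, w1, w2, w3]
  generalize hA0 : sb a.val (h 0).val = A0 at *
  generalize hA1 : sb a.val (h 1).val = A1 at *
  generalize hA2 : sb a.val (h 2).val = A2 at *
  generalize hA3 : sb a.val (h 3).val = A3 at *
  generalize hB0 : sb b.val (h' 0).val = B0 at *
  generalize hB1 : sb b.val (h' 1).val = B1 at *
  generalize hB2 : sb b.val (h' 2).val = B2 at *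
  generalize hB3 : sb b.val (h' 3).val = B3 at *
  have hN : ∃ N, (A0 + B0) % 2 + (A1 + B1) % 2 + (A2 + B2) % 2 + (A3 + B3) % 2 = N ∧ (N = 0 ∨ N = 2 ∨ N = 4) := by
    refine ⟨_, rfl, ?_⟩
    omega
  obtain ⟨N, hN1, hN2⟩ := hN
  have e : (4 * (if a = b then 1 else 0) + (1 - 2 * (((A0 + B0) % 2 : ℕ) : ℤ) + (1 - 2 * (((A1 + B1) % 2 : ℕ) : ℤ)) +
      (1 - 2 * (((A2 + B2) % 2 : ℕ) : ℤ)) + (1 - 2 * (((A3 + B3) % 2 : ℕ) : ℤ))) : ℤ) =
      4 * (if a = b then 1 else 0) + (4 - 2 * (N : ℤ)) := by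
    rw [← hN1]; push_cast; ring
  rw [e, hN1]
  by_cases hc : a = b
  · have hc' : a.val = b.val := hab.mp hc
    simp only [hc, if_true]
    rcases hN2 with r | r | r <;> subst r <;> norm_num
  · have hc' : ¬ a.val = b.val := fun x => hc (hab.mpr x)
    simp only [hc, hc', if_false]
    rcases hN2 with r | r | r <;> subst r <;> norm_num

theorem Jn_le (h h' a b : ℕ) : Jn h h' a b ≤ 2 := by
  unfold Jn
  simp only
  split_ifs <;> omega

end Pool.Agent.H23.CG
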