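import Pool.Agent.H23.CG.Jn

/-!
KKA. The contribution of one partition in terms of `h`.

`chi (cl g a) (g p) = σ * chi a p` for all `p` with `σ = ±1` (`chi_cl`), `chi (cl g' b) (g' p) = σ' * chi b p`. So
`KK g g' (cl g a) (cl g' b) = σ σ' ∑ p, chi a p * chi b p = σ σ' * 4 [a = b]` (`chi_sum`) and
`KK (g ∘ h) (g' ∘ h') (cl g a) (cl g' b) = σ σ' ∑ p, chi a (h p) * chi b (h' p)`; then `Jn_code` and `|σ σ'| = 1`.
-/
set_option autoImplicit false
namespace Pool.Agent.H23.CG

theorem KK_abs (g g' h h' : Fin 4 → Fin 4) (hg : Function.Injective g) (hg' : Function.Injective g')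
    (hh : Function.Injective h) (hh' : Function.Injective h') (a b : Fin 3) :
    |KK g g' (cl g a) (cl g' b) + KK (g ∘ h) (g' ∘ h') (cl g a) (cl g' b)| =
      4 * (Jn (code4 h) (code4 h') a.val b.val : ℤ) := by
  rw [Jn_code h h' hh hh' a b]
  have e1 : ∀ σ σ' : ℤ, (∀ p, chi (cl g a) (g p) = σ * chi a p) → (∀ p, chi (cl g' b) (g' p) = σ' * chi b p) →
      KK g g' (cl g a) (cl g' b) + KK (g ∘ h) (g' ∘ h') (cl g a) (cl g' b) =
      (σ * σ') * (4 * (if a = b then 1 else 0) + ∑ p, chi a (h p) * chi b (h' p)) := by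
    intro σ σ' h1 h2
    unfold KK
    have q1 : ∑ p, chi (cl g a) (g p) * chi (cl g' b) (g' p) = (σ * σ') * ∑ p, chi a p * chi b p := by
      rw [Finset.mul_sum]
      refine Finset.sum_congr rfl fun p _ => ?_
      rw [h1, h2]; ring
    have q2 : ∑ p, chi (cl g a) ((g ∘ h) p) * chi (cl g' b) ((g' ∘ h') p) =
        (σ * σ') * ∑ p, chi a (h p) * chi b (h' p) := by
      rw [Finset.mul_sum]
      refine Finset.sum_congr rfl fun p _ => ?_
      simp only [Function.comp]
      rw [h1, h2]; ring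
    rw [q1, q2, chi_sum]
    split_ifs <;> ring
  rcases chi_cl g hg a with h1 | h1 <;> rcases chi_cl g' hg' b with h2 | h2
  · rw [e1 1 1 (by simpa using h1) (by simpa using h2)]; norm_num
  · rw [e1 1 (-1) (by simpa using h1) (by simpa using h2)]
    rw [abs_mul]; norm_num
  · rw [e1 (-1) 1 (by simpa using h1) (by simpa using h2)]
    rw [abs_mul]; norm_num
  · rw [e1 (-1) (-1) (by simpa using h1) (by simpa using h2)]; norm_num

end Pool.Agent.H23.CG
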