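import Pool.Agent.H23.CG.Tab
import Pool.Agent.H23.CG.Def

/-!
# Finite objects of the local theorem

`chi c` (c : Fin 3) are the three non-trivial characters of the four-point set: `chi c (tr c p) = chi c p`.
`cl g c` = the class to which an injective `g` maps the class `c`: `g (tr c p) = tr (cl g c) (g p)`.
Functions `Fin 4 → Fin 4` (and `Fin 3 → Fin 3`) are coded by natural numbers in base 4: `ev (code4 g) p = g p`.
`Jn h h' a b` is a quarter of `|4 [a = b] + ∑ p, chi a (h p) * chi b (h' p)|`.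
-/
set_option autoImplicit false
namespace Pool.Agent.H23.CG

def chi : Fin 3 → Fin 4 → ℤ := ![![1, 1, -1, -1], ![1, -1, 1, -1], ![1, -1, -1, 1]]

/-- the class of a pair of different points: `dv p (tr c p) = c` -/
def dv : Fin 4 → Fin 4 → Fin 3 := ![![0, 0, 1, 2], ![0, 0, 2, 1], ![1, 2, 0, 0], ![2, 1, 0, 0]]

def cl (g : Fin 4 → Fin 4) (c : Fin 3) : Fin 3 := dv (g 0) (g (tr c 0))

def KK (g g' : Fin 4 → Fin 4) (x y : Fin 3) : ℤ := ∑ p, chi x (g p) * chi y (g' p)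

def code4 (g : Fin 4 → Fin 4) : ℕ := (g 0).val + 4 * (g 1).val + 16 * (g 2).val + 64 * (g 3).val
def code3 (g : Fin 3 → Fin 3) : ℕ := (g 0).val + 4 * (g 1).val + 16 * (g 2).val
def ev (k p : ℕ) : ℕ := (k >>> (2 * p)) % 4

def sb (a p : ℕ) : ℕ := match a with
  | 0 => p / 2
  | 1 => p % 2
  | _ => (p / 2 + p % 2) % 2

def Jn (h h' a b : ℕ) : ℕ :=
  let N := (sb a (ev h 0) + sb b (ev h' 0)) % 2 + (sb a (ev h 1) + sb b (ev h' 1)) % 2
    + (sb a (ev h 2) + sb b (ev h' 2)) % 2 + (sb a (ev h 3) + sb b (ev h' 3)) % 2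
  if a = b then 2 - N / 2 else if N = 2 then 0 else 1

def trN (c p : ℕ) : ℕ := p ^^^ (c + 1)
def clN (h b : ℕ) : ℕ := (ev h 0 ^^^ ev h (b + 1)) - 1
def fixN (h : ℕ) : ℕ :=
  (if ev h 0 = 0 then 1 else 0) + (if ev h 1 = 1 then 1 else 0) + (if ev h 2 = 2 then 1 else 0) +
  (if ev h 3 = 3 then 1 else 0)

/-- `27` bit mask of the places `9*pi+3*x+y` where `Jn` has the value `v`; `d r x` is the class (of the four-set `P`)
which `u r` maps to the class `x` of the block `E r` -/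
def m27 (v h0 h1 h2 d0 d1 d2 : ℕ) : ℕ :=
  Nat.ofBits fun i : Fin 27 =>
    if i.val < 9 then Jn h0 h1 (ev d0 (i.val / 3 % 3)) (ev d1 (i.val % 3)) == v
    else if i.val < 18 then Jn h0 h2 (ev d0 (i.val / 3 % 3)) (ev d2 (i.val % 3)) == v
    else Jn h1 h2 (ev d1 (i.val / 3 % 3)) (ev d2 (i.val % 3)) == v

def bN (c : Bool) : ℕ := cond c 1 0

/-- `t + 2*eC + 16*eD` -/
def bitsN (b h0 h1 h2 d0 d1 d2 : ℕ) : ℕ :=
  bN (b == 2) + 2 * (bN (ev d0 2 == 2) + 2 * bN (ev d1 2 == 2) + 4 * bN (ev d2 2 == 2)) +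
  16 * (bN (clN h0 b == ev d0 2) + 2 * bN (clN h1 b == ev d1 2) + 4 * bN (clN h2 b == ev d2 2))

/-- group of a triple of fixed point numbers -/
def gi (m0 m1 m2 : ℕ) : ℕ :=
  if m0 = 4 then 0 else if m1 = 4 then 1 else if m2 = 4 then 2 else
  if m0 = 0 then 3 else if m1 = 0 then 4 else 5

def R2N (b h0 h1 h2 : ℕ) : Bool :=
  (List.range 4).all fun q => (List.range 4).all fun p =>
    (bN (ev h0 q == p) + bN (ev h1 q == p) + bN (ev h2 q == p)) ==
    (bN (q == p) + bN (q == trN 2 p) + bN (q == trN b p))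

def UN (b h e : ℕ) : Bool :=
  (List.range 4).all fun p => ev h p == p || ev h p == trN e p || (ev h p == trN 2 p && ev h (trN b p) == p)

def perms4 : List ℕ := (List.range 256).filter fun k =>
  ev k 0 != ev k 1 && ev k 0 != ev k 2 && ev k 0 != ev k 3 && ev k 1 != ev k 2 && ev k 1 != ev k 3 && ev k 2 != ev k 3
def perms3 : List ℕ := (List.range 64).filter fun k =>
  ev k 0 != 3 && ev k 1 != 3 && ev k 2 != 3 && ev k 0 != ev k 1 && ev k 0 != ev k 2 && ev k 1 != ev k 2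

def memrec (b h0 h1 h2 d0 d1 d2 : ℕ) : Bool :=
  let n1 := m27 1 h0 h1 h2 d0 d1 d2
  let n2 := m27 2 h0 h1 h2 d0 d1 d2
  let bs := bitsN b h0 h1 h2 d0 d1 d2
  (grp (gi (fixN h0) (fixN h1) (fixN h2))).any fun c => Nat.beq c.1 n1 && Nat.beq c.2.1 n2 && c.2.2.contains bs

def tdchk (b : ℕ) : Bool :=
  perms4.all fun h0 => perms4.all fun h1 => perms4.all fun h2 =>
    !(R2N b h0 h1 h2) ||
    (mv (gi (fixN h0) (fixN h1) (fixN h2)) == (fixN h0, fixN h1, fixN h2) &&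
    perms3.all fun d0 => !(UN b h0 (ev d0 2)) || perms3.all fun d1 => !(UN b h1 (ev d1 2)) ||
      perms3.all fun d2 => !(UN b h2 (ev d2 2)) || memrec b h0 h1 h2 d0 d1 d2)

end Pool.Agent.H23.CG
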