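import Pool.Agent.H23.CG.LocDef

/-!
SUMK. Fourier form of `R3`.

For an injective `g : Fin 4 → Fin 4`: `∑ z, ∑ z', chi x z * chi y z' * [∃ p, g p = z ∧ g' p = z'] = KK g g' x y` (for `g, g'` injective, reindex by `p`:
`z = g p`, `z' = g' p`, every `z` has exactly one `p`).
Multiply `R3` by `chi x z * chi y z'` and sum over `z, z'`; the left side is `∑ s, (KK (u s r) (u s r') x y + KK (w s r) (w s r') x y)` (write the cardinalities as
sums of indicators: `Finset.card_filter`), and the right side is
`∑ z, ∑ z', chi x z * chi y z' * (if sgn r r' z = sgn r' r z' then 1 else 2)`, equal to `-8` if `x = kap r r'` and `y = kap r' r`, else `0` (`decide` over `r, r', x, y`).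
-/
set_option autoImplicit false
namespace Pool.Agent.H23.CG

theorem sum_KK (u w : Fin 3 → Fin 3 → Fin 4 → Fin 4) (ui : ∀ s r, Function.Injective (u s r))
    (wi : ∀ s r, Function.Injective (w s r))
    (R3 : ∀ r r', r ≠ r' → ∀ z z', (Finset.univ.filter fun s => ∃ p, u s r p = z ∧ u s r' p = z').card +
      (Finset.univ.filter fun s => ∃ p, w s r p = z ∧ w s r' p = z').card =
        if sgn r r' z = sgn r' r z' then 1 else 2)
    (r r' : Fin 3) (hr : r ≠ r') (x y : Fin 3) :
    ∑ s, (KK (u s r) (u s r') x y + KK (w s r) (w s r') x y) =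
      if x = kap r r' ∧ y = kap r' r then -8 else 0 := by
  classical
  have key : ∀ g g' : Fin 4 → Fin 4, Function.Injective g →
      ∑ z, ∑ z', chi x z * chi y z' * (if ∃ p, g p = z ∧ g' p = z' then 1 else 0) = KK g g' x y := by
    intro g g' hg
    have bij : Function.Bijective g := Finite.injective_iff_bijective.mp hg
    rw [← Equiv.sum_comp (Equiv.ofBijective _ bij)]
    unfold KK
    refine Finset.sum_congr rfl fun p _ => ?_
    simp only [Equiv.ofBijective_apply]
    rw [Finset.sum_eq_single (g' p)]
    · have : ∃ q, g q = g p ∧ g' q = g' p := ⟨p, rfl, rfl⟩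
      simp [this]
    · intro z' _ hz'
      have : ¬ ∃ q, g q = g p ∧ g' q = z' := by
        rintro ⟨q, h1, h2⟩
        have : q = p := hg h1
        subst this
        exact hz' h2.symm
      simp [this]
    · intro h; exact absurd (Finset.mem_univ _) h
  have e : ∑ s, (KK (u s r) (u s r') x y + KK (w s r) (w s r') x y) =
      ∑ z, ∑ z', chi x z * chi y z' * (if sgn r r' z = sgn r' r z' then 1 else 2) := by
    have e0 : ∀ z z', chi x z * chi y z' * (if sgn r r' z = sgn r' r z' then 1 else 2) =
        ∑ s, (chi x z * chi y z' * (if ∃ p, u s r p = z ∧ u s r' p = z' then 1 else 0) +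
          chi x z * chi y z' * (if ∃ p, w s r p = z ∧ w s r' p = z' then 1 else 0)) := by
      intro z z'
      have h := R3 r r' hr z z'
      rw [Finset.card_filter, Finset.card_filter] at h
      have h' : ((∑ s, (if ∃ p, u s r p = z ∧ u s r' p = z' then (1:ℤ) else 0)) +
          ∑ s, (if ∃ p, w s r p = z ∧ w s r' p = z' then (1:ℤ) else 0)) =
          (if sgn r r' z = sgn r' r z' then 1 else 2) := by
        have := congrArg (fun n : ℕ => (n : ℤ)) h
        push_cast at this
        exact this
      rw [← h', Finset.sum_add_distrib, ← Finset.mul_sum, ← Finset.mul_sum]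
      ring
    simp_rw [e0]
    rw [Finset.sum_congr rfl fun z _ => Finset.sum_comm, Finset.sum_comm]
    refine Finset.sum_congr rfl fun s _ => ?_
    rw [← key _ _ (ui s r), ← key _ _ (wi s r), ← Finset.sum_add_distrib]
    refine Finset.sum_congr rfl fun z _ => ?_
    rw [← Finset.sum_add_distrib]
  rw [e]
  have fin : ∀ r r' : Fin 3, r ≠ r' → ∀ x y : Fin 3,
      ∑ z, ∑ z', chi x z * chi y z' * (if sgn r r' z = sgn r' r z' then 1 else 2) =
      if x = kap r r' ∧ y = kap r' r then -8 else 0 := by decide +kernel
  exact fin r r' hr x y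

end Pool.Agent.H23.CG
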