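import Pool.Agent.H23.CG.KKA
import Pool.Agent.H23.CG.SumK

/-!
PARI. The parity condition for the three masks.

Notation: `j s r r' x y = Jn (code4 (h s r)) (code4 (h s r')) (d s r x) (d s r' y) ∈ {0,1,2}`. By `KK_abs` with `a = d s r x`, `b = d s r' y` (so `cl (u s r) a = x`,
`cl (u s r') b = y`) and `u s r ∘ h s r = w s r`: `|V s| = 4 * j s`, `V s = KK (u s r) (u s r') x y + KK (w s r) (w s r') x y`, and `∑ s, V s = -8` or `0` (`sum_KK`).
`parity_num` (integers): `V s = ± 4 j s`, `∑ V s = -8 e` (`e ∈ {0,1}`): the number of `s` with `j s = 1` is even, and if it is `0` then the number of `s` with `j s = 2` is odd iff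
`e = 1` (case distinction over the `j s`, `omega`).
`par_masks`: `Nat.eq_of_testBit_eq`; bit `i < 27` of `m27 v ..` is `Jn .. == v` (`Nat.testBit_ofBits_lt`), bits `≥ 27` are `0` (`Nat.testBit_ofBits_ge`); `Nat.testBit_xor`, `Nat.testBit_or`. For `i < 9` the pair is
`(r, r') = (0, 1)`, `x = i / 3 % 3`, `y = i % 3`; for `9 ≤ i < 18` it is `(0, 2)`, for `18 ≤ i` it is `(1, 2)`; `ev_code3` for `ev (code3 (d s r)) x`. `tgt = 2^4 + 2^10 + 2^18`: the places
`(x, y) = (kap r r', kap r' r)` are `(1,1)`, `(0,1)`, `(0,0)`: `4`, `9 + 1`, `18`.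
-/
set_option autoImplicit false
namespace Pool.Agent.H23.CG

theorem parity_num (V : Fin 3 → ℤ) (j : Fin 3 → ℕ) (hj : ∀ s, j s ≤ 2) (hV : ∀ s, |V s| = 4 * (j s : ℤ))
    (e : Bool) (hs : ∑ s, V s = if e then -8 else 0) :
    ((j 0 == 1) ^^ (j 1 == 1) ^^ (j 2 == 1)) = false ∧
    ((j 0 == 1) = false → (j 1 == 1) = false → (j 2 == 1) = false →
      ((j 0 == 2) ^^ (j 1 == 2) ^^ (j 2 == 2)) = e) := by
  have h0 := hj 0
  have h1 := hj 1
  have h2 := hj 2
  have v0 := hV 0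
  have v1 := hV 1
  have v2 := hV 2
  rw [Fin.sum_univ_three] at hs
  have a0 : V 0 = 4 * (j 0 : ℤ) ∨ V 0 = - (4 * (j 0 : ℤ)) := by
    rcases abs_choice (V 0) with h | h <;> [left; right] <;> linarith
  have a1 : V 1 = 4 * (j 1 : ℤ) ∨ V 1 = - (4 * (j 1 : ℤ)) := by
    rcases abs_choice (V 1) with h | h <;> [left; right] <;> linarith
  have a2 : V 2 = 4 * (j 2 : ℤ) ∨ V 2 = - (4 * (j 2 : ℤ)) := by
    rcases abs_choice (V 2) with h | h <;> [left; right] <;> linarith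
  have c0 : j 0 = 0 ∨ j 0 = 1 ∨ j 0 = 2 := by omega
  have c1 : j 1 = 0 ∨ j 1 = 1 ∨ j 1 = 2 := by omega
  have c2 : j 2 = 0 ∨ j 2 = 1 ∨ j 2 = 2 := by omega
  rcases c0 with c0 | c0 | c0 <;> rcases c1 with c1 | c1 | c1 <;> rcases c2 with c2 | c2 | c2 <;>
    cases e <;> simp only [c0, c1, c2] at a0 a1 a2 ⊢ <;> simp at hs ⊢ <;> omega

/-- the mask of the partition `s` -/
def mkm (v : ℕ) (h : Fin 3 → Fin 4 → Fin 4) (d : Fin 3 → Fin 3 → Fin 3) : ℕ :=
  m27 v (code4 (h 0)) (code4 (h 1)) (code4 (h 2)) (code3 (d 0)) (code3 (d 1)) (code3 (d 2))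

private theorem lt3 (i : ℕ) : i % 3 < 3 := Nat.mod_lt _ (by norm_num)

theorem par_core (u w : Fin 3 → Fin 3 → Fin 4 → Fin 4) (ui : ∀ s r, Function.Injective (u s r))
    (wi : ∀ s r, Function.Injective (w s r))
    (R3 : ∀ r r', r ≠ r' → ∀ z z', (Finset.univ.filter fun s => ∃ p, u s r p = z ∧ u s r' p = z').card +
      (Finset.univ.filter fun s => ∃ p, w s r p = z ∧ w s r' p = z').card =
        if sgn r r' z = sgn r' r z' then 1 else 2)
    (h : Fin 3 → Fin 3 → Fin 4 → Fin 4) (d : Fin 3 → Fin 3 → Fin 3 → Fin 3)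
    (hh : ∀ s r, Function.Injective (h s r)) (huh : ∀ s r, u s r ∘ h s r = w s r)
    (hcl : ∀ s r x, cl (u s r) (d s r x) = x) (r r' : Fin 3) (hr : r ≠ r') (x y : Fin 3) :
    (((Jn (code4 (h 0 r)) (code4 (h 0 r')) (d 0 r x).val (d 0 r' y).val == 1) ^^
      (Jn (code4 (h 1 r)) (code4 (h 1 r')) (d 1 r x).val (d 1 r' y).val == 1)) ^^
      (Jn (code4 (h 2 r)) (code4 (h 2 r')) (d 2 r x).val (d 2 r' y).val == 1)) = false ∧
    ((Jn (code4 (h 0 r)) (code4 (h 0 r')) (d 0 r x).val (d 0 r' y).val == 1) = false →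
     (Jn (code4 (h 1 r)) (code4 (h 1 r')) (d 1 r x).val (d 1 r' y).val == 1) = false →
     (Jn (code4 (h 2 r)) (code4 (h 2 r')) (d 2 r x).val (d 2 r' y).val == 1) = false →
     (((Jn (code4 (h 0 r)) (code4 (h 0 r')) (d 0 r x).val (d 0 r' y).val == 2) ^^
      (Jn (code4 (h 1 r)) (code4 (h 1 r')) (d 1 r x).val (d 1 r' y).val == 2)) ^^
      (Jn (code4 (h 2 r)) (code4 (h 2 r')) (d 2 r x).val (d 2 r' y).val == 2)) =
      decide (x = kap r r' ∧ y = kap r' r)) := by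
  have hk : ∀ s, |KK (u s r) (u s r') x y + KK (w s r) (w s r') x y| =
      4 * (Jn (code4 (h s r)) (code4 (h s r')) (d s r x).val (d s r' y).val : ℤ) := by
    intro s
    have := KK_abs (u s r) (u s r') (h s r) (h s r') (ui s r) (ui s r') (hh s r) (hh s r') (d s r x) (d s r' y)
    rw [hcl, hcl, huh, huh] at this
    exact this
  have := parity_num (fun s => KK (u s r) (u s r') x y + KK (w s r) (w s r') x y)
    (fun s => Jn (code4 (h s r)) (code4 (h s r')) (d s r x).val (d s r' y).val) (fun s => Jn_le _ _ _ _) hk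
    (decide (x = kap r r' ∧ y = kap r' r)) (by rw [sum_KK u w ui wi R3 r r' hr x y]; simp)
  exact this

theorem par_masks (u w : Fin 3 → Fin 3 → Fin 4 → Fin 4) (ui : ∀ s r, Function.Injective (u s r))
    (wi : ∀ s r, Function.Injective (w s r))
    (R3 : ∀ r r', r ≠ r' → ∀ z z', (Finset.univ.filter fun s => ∃ p, u s r p = z ∧ u s r' p = z').card +
      (Finset.univ.filter fun s => ∃ p, w s r p = z ∧ w s r' p = z').card =
        if sgn r r' z = sgn r' r z' then 1 else 2)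
    (h : Fin 3 → Fin 3 → Fin 4 → Fin 4) (d : Fin 3 → Fin 3 → Fin 3 → Fin 3)
    (hh : ∀ s r, Function.Injective (h s r)) (huh : ∀ s r, u s r ∘ h s r = w s r)
    (hd : ∀ s r, Function.Injective (d s r)) (hcl : ∀ s r x, cl (u s r) (d s r x) = x) :
    (mkm 1 (h 0) (d 0) ^^^ mkm 1 (h 1) (d 1) ^^^ mkm 1 (h 2) (d 2)) = 0 ∧
    ((mkm 2 (h 0) (d 0) ^^^ mkm 2 (h 1) (d 1) ^^^ mkm 2 (h 2) (d 2) ^^^ tgt) |||
      (mkm 1 (h 0) (d 0) ||| mkm 1 (h 1) (d 1) ||| mkm 1 (h 2) (d 2))) =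
      (mkm 1 (h 0) (d 0) ||| mkm 1 (h 1) (d 1) ||| mkm 1 (h 2) (d 2)) := by
  have core := par_core u w ui wi R3 h d hh huh hcl
  -- the bits of the masks
  have b0 : ∀ v s (i : ℕ), i < 9 → (mkm v (h s) (d s)).testBit i =
      (Jn (code4 (h s 0)) (code4 (h s 1)) (d s 0 ⟨i / 3 % 3, lt3 _⟩).val (d s 1 ⟨i % 3, lt3 _⟩).val == v) := by
    intro v s i hi
    unfold mkm m27
    rw [Nat.testBit_ofBits_lt _ _ (by omega)]
    simp only [hi, if_true]
    rw [← ev_code3, ← ev_code3]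
  have b1 : ∀ v s (i : ℕ), 9 ≤ i → i < 18 → (mkm v (h s) (d s)).testBit i =
      (Jn (code4 (h s 0)) (code4 (h s 2)) (d s 0 ⟨i / 3 % 3, lt3 _⟩).val (d s 2 ⟨i % 3, lt3 _⟩).val == v) := by
    intro v s i hi1 hi
    unfold mkm m27
    rw [Nat.testBit_ofBits_lt _ _ (by omega)]
    have : ¬ i < 9 := by omega
    simp only [this, hi, if_true, if_false]
    rw [← ev_code3, ← ev_code3]
  have b2 : ∀ v s (i : ℕ), 18 ≤ i → i < 27 → (mkm v (h s) (d s)).testBit i =
      (Jn (code4 (h s 1)) (code4 (h s 2)) (d s 1 ⟨i / 3 % 3, lt3 _⟩).val (d s 2 ⟨i % 3, lt3 _⟩).val == v) := by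
    intro v s i hi1 hi
    unfold mkm m27
    rw [Nat.testBit_ofBits_lt _ _ (by omega)]
    have h1 : ¬ i < 9 := by omega
    have h2 : ¬ i < 18 := by omega
    simp only [h1, h2, if_false]
    rw [← ev_code3, ← ev_code3]
  have b3 : ∀ v s (i : ℕ), 27 ≤ i → (mkm v (h s) (d s)).testBit i = false := by
    intro v s i hi
    unfold mkm m27
    apply Nat.testBit_lt_two_pow
    exact lt_of_lt_of_le (Nat.ofBits_lt_two_pow _) (Nat.pow_le_pow_right (by norm_num) hi)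
  -- the bits of tgt
  have t0 : ∀ i < 9, tgt.testBit i = decide ((⟨i / 3 % 3, lt3 _⟩ : Fin 3) = kap 0 1 ∧ (⟨i % 3, lt3 _⟩ : Fin 3) = kap 1 0) := by
    decide
  have t1 : ∀ i < 18, 9 ≤ i → tgt.testBit i = decide ((⟨i / 3 % 3, lt3 _⟩ : Fin 3) = kap 0 2 ∧ (⟨i % 3, lt3 _⟩ : Fin 3) = kap 2 0) := by
    decide
  have t2 : ∀ i < 27, 18 ≤ i → tgt.testBit i = decide ((⟨i / 3 % 3, lt3 _⟩ : Fin 3) = kap 1 2 ∧ (⟨i % 3, lt3 _⟩ : Fin 3) = kap 2 1) := by
    decide
  have t3 : ∀ i, 27 ≤ i → tgt.testBit i = false := by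
    intro i hi
    apply Nat.testBit_lt_two_pow
    exact lt_of_lt_of_le (show tgt < 2 ^ 27 by decide) (Nat.pow_le_pow_right (by norm_num) hi)
  -- both statements at one bit
  have one : ∀ i, (((mkm 1 (h 0) (d 0)).testBit i ^^ (mkm 1 (h 1) (d 1)).testBit i) ^^ (mkm 1 (h 2) (d 2)).testBit i) = false ∧
      ((mkm 1 (h 0) (d 0)).testBit i = false → (mkm 1 (h 1) (d 1)).testBit i = false →
        (mkm 1 (h 2) (d 2)).testBit i = false →
        (((mkm 2 (h 0) (d 0)).testBit i ^^ (mkm 2 (h 1) (d 1)).testBit i) ^^ (mkm 2 (h 2) (d 2)).testBit i) =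
          tgt.testBit i) := by
    intro i
    by_cases h9 : i < 9
    · rw [b0 1 0 i h9, b0 1 1 i h9, b0 1 2 i h9, b0 2 0 i h9, b0 2 1 i h9, b0 2 2 i h9, t0 i h9]
      exact core 0 1 (by decide) _ _
    · by_cases h18 : i < 18
      · have h9' : 9 ≤ i := by omega
        rw [b1 1 0 i h9' h18, b1 1 1 i h9' h18, b1 1 2 i h9' h18, b1 2 0 i h9' h18, b1 2 1 i h9' h18,
          b1 2 2 i h9' h18, t1 i h18 h9']
        exact core 0 2 (by decide) _ _
      · by_cases h27 : i < 27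
        · have h18' : 18 ≤ i := by omega
          rw [b2 1 0 i h18' h27, b2 1 1 i h18' h27, b2 1 2 i h18' h27, b2 2 0 i h18' h27, b2 2 1 i h18' h27,
            b2 2 2 i h18' h27, t2 i h27 h18']
          exact core 1 2 (by decide) _ _
        · have h27' : 27 ≤ i := by omega
          rw [b3 1 0 i h27', b3 1 1 i h27', b3 1 2 i h27', b3 2 0 i h27', b3 2 1 i h27', b3 2 2 i h27', t3 i h27']
          simp
  constructor
  · apply Nat.eq_of_testBit_eq
    intro i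
    rw [Nat.testBit_xor, Nat.testBit_xor, Nat.zero_testBit]
    exact (one i).1
  · apply Nat.eq_of_testBit_eq
    intro i
    simp only [Nat.testBit_xor, Nat.testBit_or]
    obtain ⟨q1, q2⟩ := one i
    revert q1 q2
    cases (mkm 1 (h 0) (d 0)).testBit i <;> cases (mkm 1 (h 1) (d 1)).testBit i <;>
      cases (mkm 1 (h 2) (d 2)).testBit i <;> cases (mkm 2 (h 0) (d 0)).testBit i <;>
      cases (mkm 2 (h 1) (d 1)).testBit i <;> cases (mkm 2 (h 2) (d 2)).testBit i <;>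
      cases tgt.testBit i <;> simp

end Pool.Agent.H23.CG
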