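import Pool.Agent.H23.CG.LocDef

/-! TDK. Kernel check that all valid data of one partition are in the table (about 30-60 s each). -/
set_option autoImplicit false
namespace Pool.Agent.H23.CG

theorem tdchk_0 : tdchk 0 = true := by
  decide +kernel

theorem tdchk_1 : tdchk 1 = true := by
  decide +kernel

theorem tdchk_2 : tdchk 2 = true := by
  decide +kernel

end Pool.Agent.H23.CG
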