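import Pool.Agent.H23.CG.Perm
import Pool.Agent.H23.CG.Tdk
import Pool.Agent.H23.CG.Pari

/-!
TDM. The record of one partition is in the table.

`tdchk b.val = true` (`Tdk`, `fin_cases b`), unfold: `List.all_eq_true`, instantiate with `h0 = code4 (h 0)`, ... ∈ `perms4` (`code4_mem`), `code3 (d r) ∈ perms3` (`code3_mem`).
`R2N b (code4 (h 0)) .. = true`: from `R2` (all `q, p < 4`; `ev_code4`, `trN_val`; `Finset.card_filter` over `Fin 3` is the sum of the three indicators).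
`UN b (code4 (h r)) (ev (code3 (d r)) 2) = true` from `U` (`ev_code3`, `ev_code4`, `trN_val`).
Then `memrec .. = true`: `List.any_eq_true` gives the record `c`.
-/
set_option autoImplicit false
namespace Pool.Agent.H23.CG

/-- group of the partition -/
def gidx (h : Fin 3 → Fin 4 → Fin 4) : ℕ := gi (fixN (code4 (h 0))) (fixN (code4 (h 1))) (fixN (code4 (h 2)))
def mkbits (b : Fin 3) (h : Fin 3 → Fin 4 → Fin 4) (d : Fin 3 → Fin 3 → Fin 3) : ℕ :=
  bitsN b.val (code4 (h 0)) (code4 (h 1)) (code4 (h 2)) (code3 (d 0)) (code3 (d 1)) (code3 (d 2))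

theorem td_mem (b : Fin 3) (h : Fin 3 → Fin 4 → Fin 4) (d : Fin 3 → Fin 3 → Fin 3)
    (hh : ∀ r, Function.Injective (h r)) (hd : ∀ r, Function.Injective (d r))
    (R2 : ∀ q p, (Finset.univ.filter fun r => h r q = p).card =
      (if q = p then 1 else 0) + (if q = tr 2 p then 1 else 0) + (if q = tr b p then 1 else 0))
    (U : ∀ r p, h r p = p ∨ h r p = tr (d r 2) p ∨ (h r p = tr 2 p ∧ h r (tr b p) = p)) :
    mv (gidx h) = (fixN (code4 (h 0)), fixN (code4 (h 1)), fixN (code4 (h 2))) ∧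
    ∃ c ∈ grp (gidx h), c.1 = mkm 1 h d ∧ c.2.1 = mkm 2 h d ∧ mkbits b h d ∈ c.2.2 := by
  have T : tdchk b.val = true := by
    fin_cases b
    · exact tdchk_0
    · exact tdchk_1
    · exact tdchk_2
  -- R2
  have hR2 : R2N b.val (code4 (h 0)) (code4 (h 1)) (code4 (h 2)) = true := by
    unfold R2N
    rw [List.all_eq_true]
    intro q hq
    rw [List.all_eq_true]
    intro p hp
    rw [List.mem_range] at hq hp
    have hqp := R2 ⟨q, hq⟩ ⟨p, hp⟩
    rw [Finset.card_filter, Fin.sum_univ_three] at hqp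
    have e : ∀ r, ev (code4 (h r)) q = (h r ⟨q, hq⟩).val := fun r => ev_code4 (h r) ⟨q, hq⟩
    have t2 : trN 2 p = (tr 2 ⟨p, hp⟩).val := trN_val 2 ⟨p, hp⟩
    have tb : trN b.val p = (tr b ⟨p, hp⟩).val := trN_val b ⟨p, hp⟩
    rw [e 0, e 1, e 2, t2, tb]
    have f1 : ∀ x : Fin 4, bN (x.val == p) = if x = ⟨p, hp⟩ then 1 else 0 := by
      intro x
      by_cases hx : x = ⟨p, hp⟩
      · subst hx; simp [bN]
      · have h2 : (x.val == p) = false := by
          rw [beq_eq_false_iff_ne]; exact fun e => hx (Fin.ext e)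
        rw [h2]; simp [bN, hx]
    have f2 : ∀ x : Fin 4, bN (q == x.val) = if (⟨q, hq⟩ : Fin 4) = x then 1 else 0 := by
      intro x
      by_cases hx : (⟨q, hq⟩ : Fin 4) = x
      · subst hx; simp [bN]
      · have h2 : (q == x.val) = false := by
          rw [beq_eq_false_iff_ne]; exact fun e => hx (Fin.ext e)
        rw [h2]; simp [bN, hx]
    have f3 : bN (q == p) = if (⟨q, hq⟩ : Fin 4) = ⟨p, hp⟩ then 1 else 0 := f2 ⟨p, hp⟩
    rw [f1, f1, f1, f2, f2, f3, hqp]
    simp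
  have hUN : ∀ r, UN b.val (code4 (h r)) (ev (code3 (d r)) 2) = true := by
    intro r
    unfold UN
    rw [List.all_eq_true]
    intro p hp
    rw [List.mem_range] at hp
    have e : ∀ q : Fin 4, ev (code4 (h r)) q.val = (h r q).val := fun q => ev_code4 (h r) q
    have e2 : ev (code3 (d r)) 2 = (d r 2).val := ev_code3 (d r) 2
    have t2 : trN 2 p = (tr 2 ⟨p, hp⟩).val := trN_val 2 ⟨p, hp⟩
    have tb : trN b.val p = (tr b ⟨p, hp⟩).val := trN_val b ⟨p, hp⟩
    have te : trN (d r 2).val p = (tr (d r 2) ⟨p, hp⟩).val := trN_val (d r 2) ⟨p, hp⟩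
    have ep : ev (code4 (h r)) p = (h r ⟨p, hp⟩).val := e ⟨p, hp⟩
    rw [e2, t2, tb, te, ep, e]
    rcases U r ⟨p, hp⟩ with hu | hu | ⟨hu1, hu2⟩
    · simp [hu]
    · simp [hu]
    · simp [hu1, hu2]
  unfold tdchk at T
  rw [List.all_eq_true] at T
  have T1 := T _ (code4_mem (h 0) (hh 0))
  rw [List.all_eq_true] at T1
  have T2 := T1 _ (code4_mem (h 1) (hh 1))
  rw [List.all_eq_true] at T2
  have T3 := T2 _ (code4_mem (h 2) (hh 2))
  rw [hR2] at T3
  simp only [Bool.not_true, Bool.false_or, Bool.and_eq_true] at T3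
  obtain ⟨T4, T5⟩ := T3
  refine ⟨by simpa [gidx] using T4, ?_⟩
  rw [List.all_eq_true] at T5
  have T6 := T5 _ (code3_mem (d 0) (hd 0))
  rw [hUN 0] at T6
  simp only [Bool.not_true, Bool.false_or] at T6
  rw [List.all_eq_true] at T6
  have T7 := T6 _ (code3_mem (d 1) (hd 1))
  rw [hUN 1] at T7
  simp only [Bool.not_true, Bool.false_or] at T7
  rw [List.all_eq_true] at T7
  have T8 := T7 _ (code3_mem (d 2) (hd 2))
  rw [hUN 2] at T8
  simp only [Bool.not_true, Bool.false_or] at T8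
  unfold memrec at T8
  rw [List.any_eq_true] at T8
  obtain ⟨c, hc, hc2⟩ := T8
  simp only [Bool.and_eq_true] at hc2
  obtain ⟨⟨c1, c2⟩, c3⟩ := hc2
  refine ⟨c, hc, ?_, ?_, ?_⟩
  · exact Nat.eq_of_beq_eq_true c1
  · exact Nat.eq_of_beq_eq_true c2
  · exact List.contains_iff_mem.mp c3

end Pool.Agent.H23.CG
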