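import Pool.Agent.H23.CG.HD
import Pool.Agent.H23.CG.Tdm
import Pool.Agent.H23.CG.ChkS
import Pool.Agent.H23.CG.FinDef

/-!
LOCT. The local theorem.

Take `h`, `d` from HD. For each `s`: hypotheses of `td_mem` for `b s`, `h s`, `d s`:
`R2`: `h s r q = p ↔ u s r p = w s r q` (as `w s r q = u s r (h s r q)`, `ui`), so `Loc.R2` with `p' = q`.
`U`: let `e = d s r 2`, so `cl (u s r) e = 2` and `u s r (tr e p) = tr 2 (u s r p)` (`cl_spec`); hence `w s r p = tr 2 (u s r p) ↔ h s r p = tr e p`. If `h s r p ≠ p`: `Loc.U` with `p' = h s r p` gives `h s r p = tr e p` or `h s r p = tr 2 p`;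
`Loc.U'` with the `p'` such that `h s r p' = p` (it exists; `p' ≠ p`) gives `h s r p = tr e p` or `p' = tr (b s) p`, i.e. `h s r (tr (b s) p) = p`.
`mv` sums: `fixN (code4 (h s r)) = #{p | h s r p = p} = #{p | u s r p = w s r p}`, and `∑ s` of it is `∑ z, #{s | ∃ p, u s r p = z ∧ w s r p = z} = 4` (`AP`; for fixed `s` the map `p ↦ u s r p` is a bijection from the fixed points to the `z`).
`par`: `par_masks`. So `chk_all` gives `patB (mkbits (b 0) ..) (mkbits (b 1) ..) (mkbits (b 2) ..) = true` (`gidx < 6` by the definition of `gi`).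
Unfold `patB`, `dec1`: `mkbits / 2 % 8` is the mask of the `r` with `d s r 2 = 2`, i.e. `cl (u s r) 2 = 2`, i.e. `∀ p, u s r (tr 2 p) = tr 2 (u s r p)` (`cl_spec`, `tr_inj`); it is `1, 2, 4`, so exactly one `r = α s`. `mkbits / 16 % 8` is the mask
of the `r` with `clN (code4 (h s r)) (b s) = ev (code3 (d s r)) 2`, i.e. `cl (h s r) (b s) = d s r 2`, i.e. (`cl_comp`, `w = u ∘ h`) `cl (w s r) (b s) = 2`, i.e. `∀ p, w s r (tr (b s) p) = tr 2 (w s r p)`: exactly one `r = δ s`. `mkbits % 2 = 1 ↔ b s = 2`,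
and `dec1` says `↔ α s = δ s`. The last component is `goodB`.
-/
set_option autoImplicit false
namespace Pool.Agent.H23.CG

private theorem dec1_bits : ∀ t e0 e1 e2 f0 f1 f2 : Bool,
    dec1 (bN t + 2 * (bN e0 + 2 * bN e1 + 4 * bN e2) + 16 * (bN f0 + 2 * bN f1 + 4 * bN f2)) = none ∨
    ∃ i j : Fin 3, dec1 (bN t + 2 * (bN e0 + 2 * bN e1 + 4 * bN e2) + 16 * (bN f0 + 2 * bN f1 + 4 * bN f2)) =
        some (i.val, j.val) ∧ (∀ r : Fin 3, (![e0, e1, e2] : Fin 3 → Bool) r = true ↔ r = i) ∧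
        (∀ r : Fin 3, (![f0, f1, f2] : Fin 3 → Bool) r = true ↔ r = j) ∧ (t = true ↔ i = j) := by
  decide +kernel

private theorem dec1_mk (b : Fin 3) (h : Fin 3 → Fin 4 → Fin 4) (d : Fin 3 → Fin 3 → Fin 3)
    (hh : ∀ r, Function.Injective (h r)) (x x' : ℕ) (hx : dec1 (mkbits b h d) = some (x, x')) :
    ∃ i j : Fin 3, x = i.val ∧ x' = j.val ∧ (∀ r, d r 2 = 2 ↔ r = i) ∧ (∀ r, cl (h r) b = d r 2 ↔ r = j) ∧
      (b = 2 ↔ i = j) := by
  have key := dec1_bits (b.val == 2) (ev (code3 (d 0)) 2 == 2) (ev (code3 (d 1)) 2 == 2) (ev (code3 (d 2)) 2 == 2)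
    (clN (code4 (h 0)) b.val == ev (code3 (d 0)) 2) (clN (code4 (h 1)) b.val == ev (code3 (d 1)) 2)
    (clN (code4 (h 2)) b.val == ev (code3 (d 2)) 2)
  have hx' : dec1 (bN (b.val == 2) + 2 * (bN (ev (code3 (d 0)) 2 == 2) + 2 * bN (ev (code3 (d 1)) 2 == 2) +
      4 * bN (ev (code3 (d 2)) 2 == 2)) + 16 * (bN (clN (code4 (h 0)) b.val == ev (code3 (d 0)) 2) +
      2 * bN (clN (code4 (h 1)) b.val == ev (code3 (d 1)) 2) +
      4 * bN (clN (code4 (h 2)) b.val == ev (code3 (d 2)) 2))) = some (x, x') := hx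
  rw [hx'] at key
  rcases key with key | ⟨i, j, h12, h3, h4, h5⟩
  · exact absurd key (by simp)
  have h12' := Option.some.inj h12
  have h1 : x = i.val := congrArg Prod.fst h12'
  have h2 : x' = j.val := congrArg Prod.snd h12'
  have e3 : ∀ r, ev (code3 (d r)) 2 = (d r 2).val := fun r => ev_code3 (d r) 2
  have e4 : ∀ r, clN (code4 (h r)) b.val = (cl (h r) b).val := fun r => clN_code (h r) (hh r) b
  refine ⟨i, j, h1, h2, ?_, ?_, ?_⟩
  · intro r
    rw [← h3 r]
    have : (![ev (code3 (d 0)) 2 == 2, ev (code3 (d 1)) 2 == 2, ev (code3 (d 2)) 2 == 2] : Fin 3 → Bool) r =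
        ((d r 2).val == 2) := by
      fin_cases r
      · exact congrArg (· == 2) (e3 0)
      · exact congrArg (· == 2) (e3 1)
      · exact congrArg (· == 2) (e3 2)
    rw [this, beq_iff_eq]
    exact ⟨fun e => by rw [e]; rfl, fun e => Fin.ext e⟩
  · intro r
    rw [← h4 r]
    have : (![clN (code4 (h 0)) b.val == ev (code3 (d 0)) 2, clN (code4 (h 1)) b.val == ev (code3 (d 1)) 2,
        clN (code4 (h 2)) b.val == ev (code3 (d 2)) 2] : Fin 3 → Bool) r = ((cl (h r) b).val == (d r 2).val) := by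
      fin_cases r
      · show (clN (code4 (h 0)) b.val == ev (code3 (d 0)) 2) = ((cl (h 0) b).val == (d 0 2).val)
        rw [e3, e4]
      · show (clN (code4 (h 1)) b.val == ev (code3 (d 1)) 2) = ((cl (h 1) b).val == (d 1 2).val)
        rw [e3, e4]
      · show (clN (code4 (h 2)) b.val == ev (code3 (d 2)) 2) = ((cl (h 2) b).val == (d 2 2).val)
        rw [e3, e4]
    rw [this, beq_iff_eq]
    exact ⟨fun e => by rw [e], fun e => Fin.ext e⟩
  · rw [← h5, beq_iff_eq]
    exact ⟨fun e => by rw [e]; rfl, fun e => Fin.ext e⟩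

private theorem patB_some (a b c : ℕ) (h : patB a b c = true) :
    ∃ x x' y y' z z', dec1 a = some (x, x') ∧ dec1 b = some (y, y') ∧ dec1 c = some (z, z') ∧
      goodB x x' y y' z z' = true := by
  unfold patB at h
  split at h
  · rename_i x x' y y' z z' h1 h2 h3
    exact ⟨x, x', y, y', z, z', h1, h2, h3, h⟩
  · exact absurd h (by simp)

private theorem gi_lt (m0 m1 m2 : ℕ) : gi m0 m1 m2 < 6 := by
  unfold gi
  split_ifs <;> omega

theorem local_thm (u w : Fin 3 → Fin 3 → Fin 4 → Fin 4) (b : Fin 3 → Fin 3) (L : Loc u w b) :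
    ∃ α δ : Fin 3 → Fin 3, (∀ s r, (∀ p, u s r (tr 2 p) = tr 2 (u s r p)) ↔ r = α s) ∧
      (∀ s r, (∀ p, w s r (tr (b s) p) = tr 2 (w s r p)) ↔ r = δ s) ∧
      (∀ s, b s = 2 ↔ α s = δ s) ∧ Good α δ := by
  obtain ⟨h, d, hh, huh, hd, hcl⟩ := exists_hd u w L.ui L.wi
  have huhp : ∀ s r p, u s r (h s r p) = w s r p := fun s r p => congrFun (huh s r) p
  have hR2 : ∀ s q p, (Finset.univ.filter fun r => h s r q = p).card =
      (if q = p then 1 else 0) + (if q = tr 2 p then 1 else 0) + (if q = tr (b s) p then 1 else 0) := by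
    intro s q p
    have e : (Finset.univ.filter fun r => h s r q = p) = (Finset.univ.filter fun r => u s r p = w s r q) := by
      apply Finset.filter_congr
      intro r _
      rw [← huhp]
      exact ⟨fun e => by rw [e], fun e => (L.ui s r e).symm⟩
    rw [e]
    exact L.R2 s p q
  have hU : ∀ s r p, h s r p = p ∨ h s r p = tr (d s r 2) p ∨ (h s r p = tr 2 p ∧ h s r (tr (b s) p) = p) := by
    intro s r p
    by_cases h1 : h s r p = p
    · exact Or.inl h1
    right
    have key : w s r p = tr 2 (u s r p) → h s r p = tr (d s r 2) p := by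
      intro e
      apply L.ui s r
      rw [huhp, e, cl_spec (u s r) (L.ui s r) (d s r 2) p, hcl]
    rcases L.U s r p (h s r p) (huhp s r p) h1 with h2 | h2
    · exact Or.inl (key h2)
    obtain ⟨p', hp'⟩ := (Finite.injective_iff_surjective.1 (hh s r)) p
    have hp'' : p' ≠ p := fun e => h1 (by rw [e] at hp'; exact hp')
    rcases L.U' s r p p' (by rw [← huhp, hp']) hp'' with h3 | h3
    · exact Or.inl (key h3)
    · exact Or.inr ⟨h2, by rw [← h3]; exact hp'⟩
  have htd := fun s => td_mem (b s) (h s) (d s) (hh s) (hd s) (hR2 s) (hU s)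
  have hfix : ∀ s r, fixN (code4 (h s r)) = ∑ z, (if ∃ p, u s r p = z ∧ w s r p = z then 1 else 0) := by
    intro s r
    rw [fixN_code, Finset.card_filter]
    have bij : Function.Bijective (u s r) := Finite.injective_iff_bijective.mp (L.ui s r)
    rw [← Equiv.sum_comp (Equiv.ofBijective _ bij)
      (fun z => if ∃ p, u s r p = z ∧ w s r p = z then 1 else 0)]
    refine Finset.sum_congr rfl fun p _ => ?_
    simp only [Equiv.ofBijective_apply]
    congr 1
    apply propext
    constructor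
    · intro hp
      exact ⟨p, rfl, by rw [← huhp, hp]⟩
    · rintro ⟨q, hq1, hq2⟩
      have : q = p := L.ui s r hq1
      subst this
      apply L.ui s r
      rw [huhp]
      exact hq2
  have hsum : ∀ r, fixN (code4 (h 0 r)) + fixN (code4 (h 1 r)) + fixN (code4 (h 2 r)) = 4 := by
    intro r
    rw [hfix, hfix, hfix]
    have : ∑ s : Fin 3, ∑ z, (if ∃ p, u s r p = z ∧ w s r p = z then 1 else 0) = 4 := by
      rw [Finset.sum_comm]
      have : ∀ z, ∑ s, (if ∃ p, u s r p = z ∧ w s r p = z then 1 else 0) = 1 := by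
        intro z
        rw [← Finset.card_filter]
        exact L.AP r z
      simp_rw [this]
      simp
    rw [Fin.sum_univ_three] at this
    exact this
  obtain ⟨m0, c0, hc0, a0, b0, k0⟩ := htd 0
  obtain ⟨m1, c1, hc1, a1, b1, k1⟩ := htd 1
  obtain ⟨m2, c2, hc2, a2, b2, k2⟩ := htd 2
  obtain ⟨p1, p2⟩ := par_masks u w L.ui L.wi L.R3 h d hh huh hd hcl
  have hpar : par c0 c1 c2 = true := by
    unfold par
    rw [a0, a1, a2, b0, b1, b2, p1, p2]
    simp
  have hpat := chk_all (gidx (h 0)) (gidx (h 1)) (gidx (h 2)) (gi_lt _ _ _) (gi_lt _ _ _) (gi_lt _ _ _)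
    (by rw [m0, m1, m2]; exact hsum 0) (by rw [m0, m1, m2]; exact hsum 1) (by rw [m0, m1, m2]; exact hsum 2)
    c0 c1 c2 hc0 hc1 hc2 hpar _ _ _ k0 k1 k2
  obtain ⟨x, x', y, y', z, z', q0, q1, q2, hg⟩ := patB_some _ _ _ hpat
  obtain ⟨i0, j0, r0, s0, t0, u0, v0⟩ := dec1_mk (b 0) (h 0) (d 0) (hh 0) x x' q0
  obtain ⟨i1, j1, r1, s1, t1, u1, v1⟩ := dec1_mk (b 1) (h 1) (d 1) (hh 1) y y' q1
  obtain ⟨i2, j2, r2, s2, t2, u2, v2⟩ := dec1_mk (b 2) (h 2) (d 2) (hh 2) z z' q2
  have A : ∀ s r, (∀ p, u s r (tr 2 p) = tr 2 (u s r p)) ↔ d s r 2 = 2 := by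
    intro s r
    constructor
    · intro hp
      have h1 := hp 0
      rw [cl_spec (u s r) (L.ui s r)] at h1
      have h2 := tr_inj _ _ _ h1
      have h3 := hcl s r 2
      exact cl_inj (u s r) (L.ui s r) (h3.trans h2.symm)
    · intro e p
      have h3 := hcl s r 2
      rw [e] at h3
      rw [cl_spec (u s r) (L.ui s r), h3]
  have B : ∀ s r, (∀ p, w s r (tr (b s) p) = tr 2 (w s r p)) ↔ cl (h s r) (b s) = d s r 2 := by
    intro s r
    have h0 : cl (w s r) (b s) = cl (u s r) (cl (h s r) (b s)) := by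
      rw [← huh]
      exact cl_comp _ _ (L.ui s r) (hh s r) _
    constructor
    · intro hp
      have h1 := hp 0
      rw [cl_spec (w s r) (L.wi s r)] at h1
      have h2 := tr_inj _ _ _ h1
      have h3 := hcl s r 2
      rw [h0] at h2
      exact cl_inj (u s r) (L.ui s r) (h2.trans h3.symm)
    · intro e p
      have h3 := hcl s r 2
      rw [← e] at h3
      rw [cl_spec (w s r) (L.wi s r), h0, h3]
  have F3 : ∀ s : Fin 3, s = 0 ∨ s = 1 ∨ s = 2 := by decide
  refine ⟨![i0, i1, i2], ![j0, j1, j2], ?_, ?_, ?_, ?_⟩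
  · intro s r
    rw [A]
    rcases F3 s with e | e | e <;> subst e
    · exact t0 r
    · exact t1 r
    · exact t2 r
  · intro s r
    rw [B]
    rcases F3 s with e | e | e <;> subst e
    · exact u0 r
    · exact u1 r
    · exact u2 r
  · intro s
    rcases F3 s with e | e | e <;> subst e
    · exact v0
    · exact v1
    · exact v2
  · show goodB i0.val j0.val i1.val j1.val i2.val j2.val = true
    rw [← r0, ← s0, ← r1, ← s1, ← r2, ← s2]
    exact hg

end Pool.Agent.H23.CG
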