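import Pool.Agent.H23.CG.MR2

/-!
MAP1. Every point of the block of `EB r` is in a triangle with points of `CB s` and `DB s` for at least one `s`.

Fix `r`, `z`, `Z = pt (EB r) z`. Note `{0,1,2} = EB r ∪ {r}`. Suppose for all `s` there is no `p` with `u s r p = z` and `w s r p = z`.
For `s : Fin 3` let `p s` be the point with `u s r (p s) = z` and `p' s` the one with `w s r (p' s) = z` (`ui`, `wi` and finiteness: injective maps of `Fin 4` are surjective).
The six vertices `y = pt (CB s) (p s)`, `y = pt (DB s) (f s (p' s))` are adjacent to `Z` and different (six different blocks). Let `y*` be the third point of the triangle on `Z y`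
(`Is99.third`). The six `y*` are different (if `y*` is the same for two different `y`, then `Z, y*` are adjacent with two common neighbours: `no2`).
Claim: each `y*` is adjacent to `a r true` or to `a r false`. `y*` is adjacent to `Z`; by `far_nbr` it is
 - `a k ε` with `k ∈ EB r`: not adjacent to `y` (`a_x`: the indices of the block of `y` are ≥ 3). Impossible.
 - a point of the block of `EB r`: then `y` (which is outside `box`) has two neighbours `Z, y*` in `box (EB r)`: `one_nbr` (uniqueness). Impossible.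
 - a point of a block `(k,l)` disjoint from `EB r`. If `r ∈ {k,l}` then `y*` is adjacent to `a r ε` for the sign `ε` of it at `r` (`a_x`): the claim.
   Otherwise `{k,l} ⊂ Q = {3,4,5,6}`, a grid pair (`hQ`), adjacent to `y` in the block of (say) `CB s`: `{k,l} = CB s` as sets is impossible
   (then `y, y*` are two neighbours of `Z` in the block of `CB s`: `one_nbr`), `{k,l}` meeting `CB s` in one element is impossible (`no_nbr`), so `{k,l} = DB s` as
   sets (the complement in Q) and `y* = pt (DB s) (f s (p s))`, adjacent to `Z`, so `w s r (p s) = z`: excluded by assumption. Same for `y` in `DB s`.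
`a r true` and `Z` have exactly two common neighbours (`Z` is not adjacent to `a r ε` by `a_x`, `≠`), the same for `a r false`. So there are at most 4
vertices `y*`, contradiction to 6 different ones.
-/
set_option autoImplicit false
namespace Pool.Agent.H23.CG
open SimpleGraph

namespace MAP1

/-- the third element of `{0,1,2}` -/
def th (r : Fin 3) : Fin 7 := ![0, 1, 2] r

theorem class0 : ∀ (r s : Fin 3) (k l : Fin 7),
    (k = l ∨ (k = (EB r).1 ∨ k = (EB r).2 ∨ l = (EB r).1 ∨ l = (EB r).2)) ∨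
    ((k = th r ∨ l = th r) ∨ ((k, l) = CB s ∨ (l, k) = CB s) ∨ ((k, l) = DB s ∨ (l, k) = DB s) ∨
      (MR3.Sh k l (CB s).1 (CB s).2 ∧ MR3.Sh k l (DB s).1 (DB s).2)) := by
  decide

theorem EB_lt3 : ∀ r : Fin 3, (EB r).1.val < 3 ∧ (EB r).2.val < 3 ∧ (th r) ≠ (EB r).1 ∧
    (th r) ≠ (EB r).2 := by decide

/-- the star vertices are adjacent to the line `th r` -/
theorem claim {G : SimpleGraph (Fin 99)} {v : Fin 99} (h : Is99 G) (F : Frame G v) (hs : Split F) (M : Maps F)
    (r : Fin 3) (z : Fin 4) (hno : ∀ s p, ¬ (M.u s r p = z ∧ M.w s r p = z)) (s : Fin 3) (y x : Fin 99)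
    (hy : (∃ p, M.u s r p = z ∧ y = F.pt (CB s) p) ∨ (∃ p, M.w s r p = z ∧ y = F.pt (DB s) (M.f s p)))
    (hZx : G.Adj (F.pt (EB r) z) x) (hyx : G.Adj y x) : ∃ ε, G.Adj (F.a (th r) ε) x := by
  have hgC : F.Gp (CB s).1 (CB s).2 := hs.hQ _ _ (MR2.CB_ge s).1 (MR2.CB_ge s).2 (MR3.CB_ne s)
  have hgD : F.Gp (DB s).1 (DB s).2 := hs.hQ _ _ (MR2.DB_ge s).1 (MR2.DB_ge s).2 (MR3.DB_ne s)
  have hgE : F.Gp (EB r).1 (EB r).2 := hs.hT _ _ (MR3.EB_lt r).1 (MR3.EB_lt r).2 (MR3.EB_ne r)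
  obtain ⟨g1, g2⟩ := MR2.CB_ge s
  obtain ⟨g3, g4⟩ := MR2.DB_ge s
  obtain ⟨g5, g6, g7, g8⟩ := EB_lt3 r
  -- `x` is no neighbour `a k η` with `k` in `EB r`
  have hnoa : ∀ k η, k.val < 3 → x ≠ F.a k η := by
    rintro k η hk rfl
    rcases hy with ⟨p, -, rfl⟩ | ⟨p, -, rfl⟩
    · rcases (F.a_x _ _ _ _ _ _ (MR3.CB_ne s)).1 hyx.symm with h4 | h4
      · rw [← h4.1] at g1; omega
      · rw [← h4.1] at g2; omega
    · rcases (F.a_x _ _ _ _ _ _ (MR3.DB_ne s)).1 hyx.symm with h4 | h4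
      · rw [← h4.1] at g3; omega
      · rw [← h4.1] at g4; omega
  have hC : ∀ q, x ≠ F.pt (CB s) q := by
    rintro q rfl
    have h1 : z = M.u s r q := (M.hu s r q z).1 hZx.symm
    rcases hy with ⟨p, hp, rfl⟩ | ⟨p, hp, rfl⟩
    · have h2 : p = q := M.ui s r (hp.trans h1)
      rw [h2] at hyx
      exact G.loopless.irrefl _ hyx
    · have h2 : M.f s p = M.f s q := (M.hf s q _).1 hyx.symm
      have h3 : p = q := M.fi s h2
      exact hno s p ⟨by rw [h3]; exact h1.symm, hp⟩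
  have hD : ∀ q, x ≠ F.pt (DB s) q := by
    rintro q' rfl
    obtain ⟨q, rfl⟩ := (Finite.injective_iff_surjective.1 (M.fi s)) q'
    have h1 : z = M.w s r q := (M.hw s r q z).1 hZx.symm
    rcases hy with ⟨p, hp, rfl⟩ | ⟨p, hp, rfl⟩
    · have h2 : M.f s q = M.f s p := (M.hf s p _).1 hyx
      have h3 : q = p := M.fi s h2
      exact hno s q ⟨by rw [h3]; exact hp, h1.symm⟩
    · have h2 : p = q := M.wi s r (hp.trans h1)
      rw [h2] at hyx
      exact G.loopless.irrefl _ hyx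
  rcases far_nbr h F (MR3.EB_ne r) hgE (p := z) (w := x) hZx with
      h3 | h3 | ⟨q, h3⟩ | ⟨k, l, q, hkl, hk1, hk2, hl1, hl2, h3⟩
  · exact absurd h3 (hnoa _ _ g5)
  · exact absurd h3 (hnoa _ _ g6)
  · exfalso
    have h3' : x = F.pt (EB r) q := h3
    have hq : q = z := by
      rcases hy with ⟨p, hp, rfl⟩ | ⟨p, hp, rfl⟩
      · rw [h3', M.hu] at hyx
        exact hyx.trans hp
      · rw [h3', M.hw] at hyx
        exact hyx.trans hp
    rw [h3', hq] at hZx
    exact G.loopless.irrefl _ hZx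
  · rcases class0 r s k l with (h4 | h4 | h4 | h4 | h4) | h4
    · exact absurd h4 hkl
    · exact absurd h4 hk1
    · exact absurd h4 hk2
    · exact absurd h4 hl1
    · exact absurd h4 hl2
    · rcases h4 with (h4 | h4) | (h4 | h4) | (h4 | h4) | ⟨h4, h5⟩
      · refine ⟨s1 q, ?_⟩
        rw [h3]
        exact (F.a_x k l (th r) _ _ _ hkl).2 (Or.inl ⟨h4.symm, rfl⟩)
      · refine ⟨s2 q, ?_⟩
        rw [h3]
        exact (F.a_x k l (th r) _ _ _ hkl).2 (Or.inr ⟨h4.symm, rfl⟩)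
      · rw [h4] at h3
        exact absurd h3 (hC q)
      · obtain ⟨q', hq'⟩ := MR3.pt_swap F k l q
        rw [hq', h4] at h3
        exact absurd h3 (hC q')
      · rw [h4] at h3
        exact absurd h3 (hD q)
      · obtain ⟨q', hq'⟩ := MR3.pt_swap F k l q
        rw [hq', h4] at h3
        exact absurd h3 (hD q')
      · exfalso
        rw [h3] at hyx
        rcases hy with ⟨p, hp, rfl⟩ | ⟨p, hp, rfl⟩
        · exact MR3.no_nbr_pt h F (MR3.CB_ne s) hkl hgC h4 _ q hyx
        · exact MR3.no_nbr_pt h F (MR3.DB_ne s) hkl hgD h5 _ q hyx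

end MAP1

open MAP1 in
theorem maps_AP1 {G : SimpleGraph (Fin 99)} {v : Fin 99} (h : Is99 G) (F : Frame G v) (hs : Split F) (M : Maps F)
    (r : Fin 3) (z : Fin 4) : ∃ s p, M.u s r p = z ∧ M.w s r p = z := by
  by_contra hno'
  have hno : ∀ s p, ¬ (M.u s r p = z ∧ M.w s r p = z) := fun s p hh => hno' ⟨s, p, hh⟩
  have hus : ∀ s, ∃ p, M.u s r p = z := fun s => (Finite.injective_iff_surjective.1 (M.ui s r)) z
  have hws : ∀ s, ∃ p, M.w s r p = z := fun s => (Finite.injective_iff_surjective.1 (M.wi s r)) z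
  choose gu hgu using hus
  choose gw hgw using hws
  let y : Fin 3 × Bool → Fin 99 := fun t =>
    if t.2 = true then F.pt (CB t.1) (gu t.1) else F.pt (DB t.1) (M.f t.1 (gw t.1))
  have hyt : ∀ s, y (s, true) = F.pt (CB s) (gu s) := fun s => by simp [y]
  have hyf : ∀ s, y (s, false) = F.pt (DB s) (M.f s (gw s)) := fun s => by simp [y]
  have hy : ∀ t : Fin 3 × Bool, (∃ p, M.u t.1 r p = z ∧ y t = F.pt (CB t.1) p) ∨
      (∃ p, M.w t.1 r p = z ∧ y t = F.pt (DB t.1) (M.f t.1 p)) := by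
    rintro ⟨s, c⟩
    cases c
    · exact Or.inr ⟨gw s, hgw s, hyf s⟩
    · exact Or.inl ⟨gu s, hgu s, hyt s⟩
  have hyi : ∀ t t' : Fin 3 × Bool, t ≠ t' → y t ≠ y t' := by
    rintro ⟨s, c⟩ ⟨s', c'⟩ hne he
    cases c <;> cases c'
    · rw [hyf, hyf] at he
      have hss : s ≠ s' := fun e => hne (by rw [e])
      exact F.pt_ne (MR3.DB_ne s) (MR3.DB_ne s') (MR3.DB_DB s s' hss).1 (MR3.DB_DB s s' hss).2 _ _ he
    · rw [hyf, hyt] at he
      exact F.pt_ne (MR3.CB_ne s') (MR3.DB_ne s) (MR3.CB_DB s' s).1 (MR3.CB_DB s' s).2 _ _ he.symm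
    · rw [hyt, hyf] at he
      exact F.pt_ne (MR3.CB_ne s) (MR3.DB_ne s') (MR3.CB_DB s s').1 (MR3.CB_DB s s').2 _ _ he
    · rw [hyt, hyt] at he
      have hss : s ≠ s' := fun e => hne (by rw [e])
      exact F.pt_ne (MR3.CB_ne s) (MR3.CB_ne s') (MR3.CB_CB s s' hss).1 (MR3.CB_CB s s' hss).2 _ _ he
  have hZy : ∀ t, G.Adj (F.pt (EB r) z) (y t) := by
    intro t
    rcases hy t with ⟨p, hp, he⟩ | ⟨p, hp, he⟩
    · rw [he]
      exact ((M.hu t.1 r p z).2 hp.symm).symm
    · rw [he]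
      exact ((M.hw t.1 r p z).2 hp.symm).symm
  have hstar : ∀ t, ∃ x, G.Adj (F.pt (EB r) z) x ∧ G.Adj (y t) x := by
    intro t
    obtain ⟨x, h1, h2, -⟩ := h.third (hZy t)
    exact ⟨x, h1, h2⟩
  choose st hst1 hst2 using hstar
  have hsti : ∀ t t', t ≠ t' → st t ≠ st t' := by
    intro t t' hne he
    refine h.no2 (x := F.pt (EB r) z) (y := st t) (z := y t) (z' := y t') (hyi t t' hne)
      (hZy t) (hst2 t).symm (hZy t') ?_ (hst1 t)
    rw [he]
    exact (hst2 t').symm
  have hcl : ∀ t, ∃ ε, G.Adj (F.a (th r) ε) (st t) := fun t =>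
    claim h F hs M r z hno t.1 (y t) (st t) (hy t) (hst1 t) (hst2 t)
  choose e he using hcl
  obtain ⟨ε, hε⟩ := Fintype.exists_lt_card_fiber_of_mul_lt_card (n := 2) e (by decide)
  obtain ⟨t1, m1, t2, m2, t3, m3, n12, n13, n23⟩ := Finset.two_lt_card.1 hε
  rw [Finset.mem_filter] at m1 m2 m3
  have k1 := he t1
  have k2 := he t2
  have k3 := he t3
  rw [m1.2] at k1
  rw [m2.2] at k2
  rw [m3.2] at k3
  have hne : F.a (th r) ε ≠ F.pt (EB r) z := by
    intro hh
    have h1 := (F.x_far (EB r).1 (EB r).2 (s1 z) (s2 z) (MR3.EB_ne r)).2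
    have h2 := F.a_adj (th r) ε
    rw [hh] at h2
    exact h1 h2
  exact h.no3 hne (hsti _ _ n12) (hsti _ _ n13) (hsti _ _ n23) k1 (hst1 t1) k2 (hst1 t2) k3 (hst1 t3)

end Pool.Agent.H23.CG
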