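import Pool.Agent.H23.CG.MR3

/-!
MR2. The condition `R2` for the maps of a split.

Fix `s`, `p`, `p'`; `X = pt (CB s) p`, `Y = pt (DB s) (f s p')`. They are different; adjacent iff `p' = p` (`hf`, `fi`).
Common neighbours of `X` and `Y` (use `far_nbr` for `X` and for `Y`; the four indices of `CB s`, `DB s` are different): `w` is not an `a` (`a_x`: indices would
agree), so `w` is
* in the block of `CB s`: `w = pt (CB s) q` with `f q = f p'`, so `q = p'`; and adjacent to `X` iff `p' = tr 0 p ∨ p' = tr 1 p` (`inner`);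
* in the block of `DB s`: `w = pt (DB s) q` adjacent to `X`: `q = f p`, and adjacent to `Y = pt (DB s) (f p')` iff `f p = tr 0 (f p') ∨ f p = tr 1 (f p')`, that is
  iff `p ≠ p'` and `f p ≠ tr 2 (f p') = f (tr b p')`, i.e. iff `p ≠ p'` and `p ≠ tr (b s) p'` (equivalently `p' ≠ tr (b s) p`);
* or in a block `(k,l)` disjoint from both: then `{k,l} ⊂ {0,1,2}`, so the block of some `EB r` (up to the order of `k`, `l`: `x_symm`), and `w = pt (EB r) (u s r p) = pt (EB r) (w s r p')`.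
So with `n = #{r | u s r p = w s r p'}`: number of common neighbours `= n + [p' = tr 0 p ∨ p' = tr 1 p] + [p ≠ p' ∧ p' ≠ tr (b s) p]`
(the three kinds are different vertices). If `p = p'` it is `1` (adjacent), so `n = 1`. Otherwise it is `2`, and
`n = 2 - [p' ≠ tr 2 p] - [p' ≠ tr (b s) p] = [p' = tr 2 p] + [p' = tr (b s) p]`.
-/
set_option autoImplicit false
namespace Pool.Agent.H23.CG
open SimpleGraph

namespace MR2

theorem CB_ge : ∀ r : Fin 3, 3 ≤ (CB r).1.val ∧ 3 ≤ (CB r).2.val := by decide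
theorem DB_ge : ∀ r : Fin 3, 3 ≤ (DB r).1.val ∧ 3 ≤ (DB r).2.val := by decide

theorem a_CD : ∀ s : Fin 3, (CB s).1 ≠ (DB s).1 ∧ (CB s).1 ≠ (DB s).2 ∧ (CB s).2 ≠ (DB s).1 ∧
    (CB s).2 ≠ (DB s).2 := by decide

theorem class_C0 : ∀ s : Fin 3, ∀ k l : Fin 7, (k = l ∨ (k = (CB s).1 ∨ k = (CB s).2 ∨
    l = (CB s).1 ∨ l = (CB s).2)) ∨
    (MR3.Sh k l (DB s).1 (DB s).2 ∨ ((k, l) = DB s ∨ (l, k) = DB s) ∨
      ∃ r, (k, l) = EB r ∨ (l, k) = EB r) := by
  decide

theorem class_C (s : Fin 3) (k l : Fin 7) (h1 : k ≠ l) (h2 : k ≠ (CB s).1) (h3 : k ≠ (CB s).2)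
    (h4 : l ≠ (CB s).1) (h5 : l ≠ (CB s).2) :
    MR3.Sh k l (DB s).1 (DB s).2 ∨ ((k, l) = DB s ∨ (l, k) = DB s) ∨
      ∃ r, (k, l) = EB r ∨ (l, k) = EB r := by
  rcases class_C0 s k l with (h | h | h | h | h) | h
  · exact absurd h h1
  · exact absurd h h2
  · exact absurd h h3
  · exact absurd h h4
  · exact absurd h h5
  · exact h

theorem CB_EB : ∀ s s' : Fin 3,
    ¬ ((CB s).1 = (EB s').1 ∧ (CB s).2 = (EB s').2) ∧ ¬ ((CB s).1 = (EB s').2 ∧ (CB s).2 = (EB s').1) := by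
  decide

theorem DB_EB : ∀ s s' : Fin 3,
    ¬ ((DB s).1 = (EB s').1 ∧ (DB s).2 = (EB s').2) ∧ ¬ ((DB s).1 = (EB s').2 ∧ (DB s).2 = (EB s').1) := by
  decide

theorem tr_cases : ∀ x y : Fin 4, y ≠ x → ((y = tr 0 x ∨ y = tr 1 x) ↔ y ≠ tr 2 x) := by decide

theorem tr_tr : ∀ (c : Fin 3) (x y : Fin 4), x = tr c y ↔ y = tr c x := by decide

theorem tr_self : ∀ (c : Fin 3) (x : Fin 4), ¬ x = tr c x := by decide

theorem nbr_class {G : SimpleGraph (Fin 99)} {v : Fin 99} (h : Is99 G) (F : Frame G v) (hs : Split F) (M : Maps F)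
    (s : Fin 3) (p p' : Fin 4) (x : Fin 99) :
    (G.Adj (F.pt (CB s) p) x ∧ G.Adj (F.pt (DB s) (M.f s p')) x) ↔
      ((p' = tr 0 p ∨ p' = tr 1 p) ∧ x = F.pt (CB s) p') ∨
      ((M.f s p = tr 0 (M.f s p') ∨ M.f s p = tr 1 (M.f s p')) ∧ x = F.pt (DB s) (M.f s p)) ∨
      (∃ r, M.u s r p = M.w s r p' ∧ x = F.pt (EB r) (M.u s r p)) := by
  have hgC : F.Gp (CB s).1 (CB s).2 := hs.hQ _ _ (CB_ge s).1 (CB_ge s).2 (MR3.CB_ne s)
  have hgD : F.Gp (DB s).1 (DB s).2 := hs.hQ _ _ (DB_ge s).1 (DB_ge s).2 (MR3.DB_ne s)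
  obtain ⟨c1, c2, c3, c4⟩ := a_CD s
  constructor
  · rintro ⟨h1, h2⟩
    rcases far_nbr h F (MR3.CB_ne s) hgC (p := p) (w := x) h1 with
      h3 | h3 | ⟨q, h3⟩ | ⟨k, l, q, hkl, hk1, hk2, hl1, hl2, h3⟩
    · exfalso
      rw [h3] at h2
      rcases (F.a_x _ _ _ _ _ _ (MR3.DB_ne s)).1 h2.symm with h4 | h4
      · exact c1 h4.1
      · exact c2 h4.1
    · exfalso
      rw [h3] at h2
      rcases (F.a_x _ _ _ _ _ _ (MR3.DB_ne s)).1 h2.symm with h4 | h4
      · exact c3 h4.1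
      · exact c4 h4.1
    · have h3' : x = F.pt (CB s) q := h3
      left
      rw [h3', SimpleGraph.adj_comm, M.hf] at h2
      have h4 : p' = q := M.fi s h2
      rw [h3'] at h1
      have h5 := (inner h F (MR3.CB_ne s) hgC p q).1 h1
      rw [h4]
      exact ⟨h5, h3'⟩
    · right
      have hD : ∀ q, x = F.pt (DB s) q →
          ((M.f s p = tr 0 (M.f s p') ∨ M.f s p = tr 1 (M.f s p')) ∧
            x = F.pt (DB s) (M.f s p)) := by
        intro q hq
        rw [hq, M.hf] at h1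
        rw [hq] at h2
        have h5 := (inner h F (MR3.DB_ne s) hgD (M.f s p') q).1 h2
        rw [← h1]
        exact ⟨h5, hq⟩
      have hE : ∀ r q, x = F.pt (EB r) q →
          (∃ r, M.u s r p = M.w s r p' ∧ x = F.pt (EB r) (M.u s r p)) := by
        intro r q hq
        rw [hq, M.hu] at h1
        rw [hq, M.hw] at h2
        exact ⟨r, h1.symm.trans h2, by rw [← h1]; exact hq⟩
      rcases class_C s k l hkl hk1 hk2 hl1 hl2 with h4 | (h4 | h4) | ⟨r, h4 | h4⟩
      · exfalso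
        rw [h3] at h2
        exact MR3.no_nbr_pt h F (MR3.DB_ne s) hkl hgD h4 _ q h2
      · rw [h4] at h3
        exact Or.inl (hD q h3)
      · obtain ⟨q', hq'⟩ := MR3.pt_swap F k l q
        rw [hq', h4] at h3
        exact Or.inl (hD q' h3)
      · rw [h4] at h3
        exact Or.inr (hE r q h3)
      · obtain ⟨q', hq'⟩ := MR3.pt_swap F k l q
        rw [hq', h4] at h3
        exact Or.inr (hE r q' h3)
  · rintro (⟨h1, rfl⟩ | ⟨h1, rfl⟩ | ⟨r, h1, rfl⟩)
    · refine ⟨(inner h F (MR3.CB_ne s) hgC p p').2 h1, ?_⟩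
      rw [SimpleGraph.adj_comm, M.hf]
    · refine ⟨(M.hf s p _).2 rfl, ?_⟩
      exact (inner h F (MR3.DB_ne s) hgD (M.f s p') (M.f s p)).2 h1
    · exact ⟨(M.hu s r p _).2 rfl, (M.hw s r p' _).2 h1⟩

end MR2

theorem maps_R2 {G : SimpleGraph (Fin 99)} {v : Fin 99} (h : Is99 G) (F : Frame G v) (hs : Split F) (M : Maps F)
    (s : Fin 3) (p p' : Fin 4) : (Finset.univ.filter fun r => M.u s r p = M.w s r p').card =
      (if p' = p then 1 else 0) + (if p' = tr 2 p then 1 else 0) + (if p' = tr (M.b s) p then 1 else 0) := by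
  classical
  set A := Finset.univ.filter fun r => M.u s r p = M.w s r p' with hA
  set S1 : Finset (Fin 99) :=
    if (p' = tr 0 p ∨ p' = tr 1 p) then {F.pt (CB s) p'} else ∅ with hS1
  set S2 : Finset (Fin 99) :=
    if (M.f s p = tr 0 (M.f s p') ∨ M.f s p = tr 1 (M.f s p')) then {F.pt (DB s) (M.f s p)}
    else ∅ with hS2
  set S3 : Finset (Fin 99) := A.image (fun r => F.pt (EB r) (M.u s r p)) with hS3
  have hN : G.neighborSet (F.pt (CB s) p) ∩ G.neighborSet (F.pt (DB s) (M.f s p'))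
      = ((S1 ∪ (S2 ∪ S3) : Finset (Fin 99)) : Set (Fin 99)) := by
    ext x
    rw [Set.mem_inter_iff, SimpleGraph.mem_neighborSet, SimpleGraph.mem_neighborSet,
      MR2.nbr_class h F hs M s p p' x, Finset.mem_coe, Finset.mem_union, Finset.mem_union]
    refine or_congr ?_ (or_congr ?_ ?_)
    · rw [hS1]
      split_ifs with h1
      · rw [Finset.mem_singleton]
        exact ⟨fun h2 => h2.2, fun h2 => ⟨h1, h2⟩⟩
      · exact ⟨fun h2 => absurd h2.1 h1, fun h2 => absurd h2 (Finset.notMem_empty _)⟩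
    · rw [hS2]
      split_ifs with h1
      · rw [Finset.mem_singleton]
        exact ⟨fun h2 => h2.2, fun h2 => ⟨h1, h2⟩⟩
      · exact ⟨fun h2 => absurd h2.1 h1, fun h2 => absurd h2 (Finset.notMem_empty _)⟩
    · rw [hS3, Finset.mem_image]
      constructor
      · rintro ⟨r, h1, h2⟩
        exact ⟨r, by rw [hA, Finset.mem_filter]; exact ⟨Finset.mem_univ _, h1⟩, h2.symm⟩
      · rintro ⟨r, h1, h2⟩
        rw [hA, Finset.mem_filter] at h1
        exact ⟨r, h1.2, h2.symm⟩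
  have hne : F.pt (CB s) p ≠ F.pt (DB s) (M.f s p') :=
    F.pt_ne (MR3.CB_ne s) (MR3.DB_ne s) (MR3.CB_DB s s).1 (MR3.CB_DB s s).2 _ _
  have hd23 : Disjoint S2 S3 := by
    rw [Finset.disjoint_left]
    intro x hx hx'
    rw [hS3, Finset.mem_image] at hx'
    obtain ⟨r, -, h4⟩ := hx'
    rw [hS2] at hx
    split_ifs at hx with h1
    · rw [Finset.mem_singleton] at hx
      exact F.pt_ne (MR3.DB_ne s) (MR3.EB_ne r) (MR2.DB_EB s r).1 (MR2.DB_EB s r).2 _ _
        (hx.symm.trans h4.symm)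
    · exact absurd hx (Finset.notMem_empty _)
  have hd1 : Disjoint S1 (S2 ∪ S3) := by
    rw [Finset.disjoint_left]
    intro x hx hx'
    rw [hS1] at hx
    split_ifs at hx with h1
    · rw [Finset.mem_singleton] at hx
      rw [Finset.mem_union, hS3, Finset.mem_image] at hx'
      rcases hx' with hx' | ⟨r, -, h3⟩
      · rw [hS2] at hx'
        split_ifs at hx' with h2
        · rw [Finset.mem_singleton] at hx'
          exact F.pt_ne (MR3.CB_ne s) (MR3.DB_ne s) (MR3.CB_DB s s).1 (MR3.CB_DB s s).2 _ _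
            (hx.symm.trans hx')
        · exact absurd hx' (Finset.notMem_empty _)
      · exact F.pt_ne (MR3.CB_ne s) (MR3.EB_ne r) (MR2.CB_EB s r).1 (MR2.CB_EB s r).2 _ _
          (hx.symm.trans h3.symm)
    · exact absurd hx (Finset.notMem_empty _)
  have hc3 : S3.card = A.card := by
    rw [hS3]
    refine Finset.card_image_of_injective _ ?_
    intro r r' he
    by_contra hrr
    exact F.pt_ne (MR3.EB_ne r) (MR3.EB_ne r') (MR3.EB_EB r r' hrr).1 (MR3.EB_EB r r' hrr).2 _ _ he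
  have hc : (G.neighborSet (F.pt (CB s) p) ∩ G.neighborSet (F.pt (DB s) (M.f s p'))).ncard =
      (if (p' = tr 0 p ∨ p' = tr 1 p) then 1 else 0) +
      ((if (M.f s p = tr 0 (M.f s p') ∨ M.f s p = tr 1 (M.f s p')) then 1 else 0) + A.card) := by
    rw [hN, Set.ncard_coe_finset, Finset.card_union_of_disjoint hd1,
      Finset.card_union_of_disjoint hd23, hc3, hS1, hS2]
    congr 1
    · split_ifs <;> simp
    · congr 1
      split_ifs <;> simp
  by_cases hp : p' = p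
  · subst hp
    have h1 := h.lam _ _ ((M.hf s p' _).2 rfl)
    rw [hc, if_neg, if_neg] at h1
    · rw [if_pos rfl, if_neg (MR2.tr_self 2 p'), if_neg (MR2.tr_self _ p')]
      omega
    · rintro (h2 | h2)
      · exact MR2.tr_self _ _ h2
      · exact MR2.tr_self _ _ h2
    · rintro (h2 | h2)
      · exact MR2.tr_self _ _ h2
      · exact MR2.tr_self _ _ h2
  · have hna : ¬ G.Adj (F.pt (CB s) p) (F.pt (DB s) (M.f s p')) := by
      rw [M.hf]
      exact fun e => hp (M.fi s e)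
    have h1 := h.mu _ _ hne hna
    have hfp : M.f s p ≠ M.f s p' := fun e => hp (M.fi s e).symm
    have h2 : (p' = tr 0 p ∨ p' = tr 1 p) ↔ ¬ p' = tr 2 p := MR2.tr_cases p p' hp
    have h3 : (M.f s p = tr 0 (M.f s p') ∨ M.f s p = tr 1 (M.f s p')) ↔ ¬ p' = tr (M.b s) p := by
      rw [MR2.tr_cases _ _ hfp, ← M.hb, ne_eq, (M.fi s).eq_iff, MR2.tr_tr]
    rw [hc] at h1
    simp only [h2, h3] at h1
    rw [if_neg hp]
    split_ifs at h1 ⊢ <;> omega

end Pool.Agent.H23.CG
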