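import Pool.Agent.H23.CG.Blk

/-!
MR3. The condition `R3` for the maps of a split.

Fix `r ≠ r'`, `z`, `z'`; `Z = pt (EB r) z`, `Z' = pt (EB r') z'`, `q` = the common element of `EB r`, `EB r'`. `Z ≠ Z'`, not adjacent (`no_nbr`, up to
`x_symm`), so they have exactly two common neighbours. By `far_nbr` for `Z` and `Z'` a common neighbour `w` is
* an `a k ε`: then `k = q`, and it is `a q (sgn r r' z)`, which is adjacent to `Z'` iff `sgn r r' z = sgn r' r z'`;
* in the block of `EB r` or of `EB r'`: impossible by `no_nbr`;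
* in a block disjoint from `EB r` and from `EB r'`: `EB r ∪ EB r' = {0,1,2}`, so it is one of the six blocks `CB s`, `DB s` (up to the order of the two
  indices, `x_symm`).
In the block of `CB s` there is exactly one point adjacent to `Z`: the `p` with `u s r p = z`, so there is one common neighbour
iff `∃ p, u s r p = z ∧ u s r' p = z'`, otherwise none; in the block of `DB s` (points `pt (DB s) (f s p)`): iff `∃ p, w s r p = z ∧ w s r' p = z'`.
Points of different blocks are different (`pt_ne`). So the two cardinalities sum to `2 - [sgn r r' z = sgn r' r z']`.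
-/
set_option autoImplicit false
namespace Pool.Agent.H23.CG
open SimpleGraph

namespace MR3

/-- the common element of the pairs `EB r`, `EB r'` -/
def cmR (r r' : Fin 3) : Fin 7 := if kap r r' = 0 then (EB r).1 else (EB r).2

theorem cmR_spec : ∀ r r' : Fin 3, r ≠ r' → ∀ (z z' : Fin 4) (k : Fin 7) (η : Bool),
    ((((k = (EB r).1 ∧ η = s1 z) ∨ (k = (EB r).2 ∧ η = s2 z)) ∧
      ((k = (EB r').1 ∧ η = s1 z') ∨ (k = (EB r').2 ∧ η = s2 z'))) ↔
      (k = cmR r r' ∧ η = sgn r r' z ∧ sgn r r' z = sgn r' r z')) := by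
  decide

theorem EB_ne : ∀ r : Fin 3, (EB r).1 ≠ (EB r).2 := by decide
theorem EB_lt : ∀ r : Fin 3, (EB r).1.val < 3 ∧ (EB r).2.val < 3 := by decide
theorem CB_ne : ∀ r : Fin 3, (CB r).1 ≠ (CB r).2 := by decide
theorem DB_ne : ∀ r : Fin 3, (DB r).1 ≠ (DB r).2 := by decide

/-- `{k,l}` and `{i,j}` have exactly one common element -/
def Sh (k l i j : Fin 7) : Prop :=
  (k = i ∧ l ≠ j) ∨ (k = j ∧ l ≠ i) ∨ (l = i ∧ k ≠ j) ∨ (l = j ∧ k ≠ i)

instance (k l i j : Fin 7) : Decidable (Sh k l i j) := by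
  unfold Sh
  infer_instance

theorem Sh_EB : ∀ r r' : Fin 3, r ≠ r' → Sh (EB r).1 (EB r).2 (EB r').1 (EB r').2 := by decide

theorem class_kl : ∀ r r' : Fin 3, r ≠ r' → ∀ k l : Fin 7, k ≠ l → k ≠ (EB r).1 → k ≠ (EB r).2 →
    l ≠ (EB r).1 → l ≠ (EB r).2 →
    Sh k l (EB r').1 (EB r').2 ∨ ∃ s, (k, l) = CB s ∨ (k, l) = DB s ∨ (l, k) = CB s ∨ (l, k) = DB s := by
  decide

theorem CB_CB : ∀ s s' : Fin 3, s ≠ s' →
    ¬ ((CB s).1 = (CB s').1 ∧ (CB s).2 = (CB s').2) ∧ ¬ ((CB s).1 = (CB s').2 ∧ (CB s).2 = (CB s').1) := by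
  decide

theorem EB_EB : ∀ s s' : Fin 3, s ≠ s' →
    ¬ ((EB s).1 = (EB s').1 ∧ (EB s).2 = (EB s').2) ∧ ¬ ((EB s).1 = (EB s').2 ∧ (EB s).2 = (EB s').1) := by
  decide

theorem DB_DB : ∀ s s' : Fin 3, s ≠ s' →
    ¬ ((DB s).1 = (DB s').1 ∧ (DB s).2 = (DB s').2) ∧ ¬ ((DB s).1 = (DB s').2 ∧ (DB s).2 = (DB s').1) := by
  decide

theorem CB_DB : ∀ s s' : Fin 3,
    ¬ ((CB s).1 = (DB s').1 ∧ (CB s).2 = (DB s').2) ∧ ¬ ((CB s).1 = (DB s').2 ∧ (CB s).2 = (DB s').1) := by
  decide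

theorem swap_pt : ∀ p : Fin 4, ∃ q : Fin 4, s1 q = s2 p ∧ s2 q = s1 p := by decide

theorem pt_swap {G : SimpleGraph (Fin 99)} {v : Fin 99} (F : Frame G v) (k l : Fin 7) (p : Fin 4) :
    ∃ q, F.pt (k, l) p = F.pt (l, k) q := by
  obtain ⟨q, h1, h2⟩ := swap_pt p
  refine ⟨q, ?_⟩
  show F.x k l (s1 p) (s2 p) = F.x l k (s1 q) (s2 q)
  rw [F.x_symm, h1, h2]

/-- points of blocks with exactly one common line are not adjacent -/
theorem no_nbr_pt {G : SimpleGraph (Fin 99)} {v : Fin 99} (h : Is99 G) (F : Frame G v) {i j k l : Fin 7}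
    (hij : i ≠ j) (hkl : k ≠ l) (hg : F.Gp i j) (hS : Sh k l i j) (p q : Fin 4) :
    ¬ G.Adj (F.pt (i, j) p) (F.pt (k, l) q) := by
  rcases hS with ⟨rfl, h2⟩ | ⟨rfl, h2⟩ | ⟨rfl, h2⟩ | ⟨rfl, h2⟩
  · exact no_nbr h F hij hkl (Ne.symm h2) hg _ _ _ _
  · show ¬ G.Adj (F.x i k (s1 p) (s2 p)) (F.x k l (s1 q) (s2 q))
    rw [F.x_symm i k]
    exact no_nbr h F hij.symm hkl (Ne.symm h2) (F.Gp_symm hg) _ _ _ _
  · show ¬ G.Adj (F.x l j (s1 p) (s2 p)) (F.x k l (s1 q) (s2 q))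
    rw [F.x_symm k l]
    exact no_nbr h F hij hkl.symm (Ne.symm h2) hg _ _ _ _
  · show ¬ G.Adj (F.x i l (s1 p) (s2 p)) (F.x k l (s1 q) (s2 q))
    rw [F.x_symm i l, F.x_symm k l]
    exact no_nbr h F hij.symm hkl.symm (Ne.symm h2) (F.Gp_symm hg) _ _ _ _

theorem nbr_class {G : SimpleGraph (Fin 99)} {v : Fin 99} (h : Is99 G) (F : Frame G v) (hs : Split F) (M : Maps F)
    (r r' : Fin 3) (hr : r ≠ r') (z z' : Fin 4) (x : Fin 99) :
    (G.Adj (F.pt (EB r) z) x ∧ G.Adj (F.pt (EB r') z') x) ↔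
      (sgn r r' z = sgn r' r z' ∧ x = F.a (cmR r r') (sgn r r' z)) ∨
      (∃ s p, M.u s r p = z ∧ M.u s r' p = z' ∧ x = F.pt (CB s) p) ∨
      (∃ s p, M.w s r p = z ∧ M.w s r' p = z' ∧ x = F.pt (DB s) (M.f s p)) := by
  have hgr : ∀ r, F.Gp (EB r).1 (EB r).2 := fun r => hs.hT _ _ (EB_lt r).1 (EB_lt r).2 (EB_ne r)
  have hax : ∀ r z k η, G.Adj (F.pt (EB r) z) (F.a k η) ↔
      (k = (EB r).1 ∧ η = s1 z) ∨ (k = (EB r).2 ∧ η = s2 z) := by
    intro r z k η
    rw [SimpleGraph.adj_comm]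
    exact F.a_x _ _ _ _ _ _ (EB_ne r)
  constructor
  · rintro ⟨h1, h2⟩
    have h3 := far_nbr h F (EB_ne r) (hgr r) (p := z) (w := x) h1
    have ha : ∀ k η, x = F.a k η →
        (sgn r r' z = sgn r' r z' ∧ x = F.a (cmR r r') (sgn r r' z)) := by
      rintro k η rfl
      rw [hax] at h1 h2
      obtain ⟨h4, h5, h6⟩ := (cmR_spec r r' hr z z' k η).1 ⟨h1, h2⟩
      exact ⟨h6, by rw [h4, h5]⟩
    rcases h3 with h3 | h3 | ⟨q, h3⟩ | ⟨k, l, q, hkl, hk1, hk2, hl1, hl2, h3⟩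
    · exact Or.inl (ha _ _ h3)
    · exact Or.inl (ha _ _ h3)
    · exfalso
      rw [h3] at h2
      exact no_nbr_pt h F (EB_ne r') (EB_ne r) (hgr r') (Sh_EB r r' hr) z' q h2
    · right
      rcases class_kl r r' hr k l hkl hk1 hk2 hl1 hl2 with h4 | ⟨s, h4⟩
      · exfalso
        rw [h3] at h2
        exact no_nbr_pt h F (EB_ne r') hkl (hgr r') h4 z' q h2
      · have hC : ∀ q, x = F.pt (CB s) q →
            (∃ s p, M.u s r p = z ∧ M.u s r' p = z' ∧ x = F.pt (CB s) p) := by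
          intro q hq
          rw [hq, SimpleGraph.adj_comm, M.hu] at h1 h2
          exact ⟨s, q, h1.symm, h2.symm, hq⟩
        have hD : ∀ q, x = F.pt (DB s) q →
            (∃ s p, M.w s r p = z ∧ M.w s r' p = z' ∧ x = F.pt (DB s) (M.f s p)) := by
          intro q hq
          obtain ⟨p, rfl⟩ := (Finite.injective_iff_surjective.1 (M.fi s)) q
          rw [hq, SimpleGraph.adj_comm, M.hw] at h1 h2
          exact ⟨s, p, h1.symm, h2.symm, hq⟩
        rcases h4 with h4 | h4 | h4 | h4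
        · rw [h4] at h3
          exact Or.inl (hC q h3)
        · rw [h4] at h3
          exact Or.inr (hD q h3)
        · obtain ⟨q', hq'⟩ := pt_swap F k l q
          rw [hq', h4] at h3
          exact Or.inl (hC q' h3)
        · obtain ⟨q', hq'⟩ := pt_swap F k l q
          rw [hq', h4] at h3
          exact Or.inr (hD q' h3)
  · rintro (⟨h1, rfl⟩ | ⟨s, p, h1, h2, rfl⟩ | ⟨s, p, h1, h2, rfl⟩)
    · rw [hax, hax]
      exact (cmR_spec r r' hr z z' _ _).2 ⟨rfl, rfl, h1⟩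
    · rw [SimpleGraph.adj_comm, M.hu, SimpleGraph.adj_comm, M.hu]
      exact ⟨h1.symm, h2.symm⟩
    · rw [SimpleGraph.adj_comm, M.hw, SimpleGraph.adj_comm, M.hw]
      exact ⟨h1.symm, h2.symm⟩

end MR3

open MR3 in
theorem maps_R3 {G : SimpleGraph (Fin 99)} {v : Fin 99} (h : Is99 G) (F : Frame G v) (hs : Split F) (M : Maps F)
    (r r' : Fin 3) (hr : r ≠ r') (z z' : Fin 4) :
    (Finset.univ.filter fun s => ∃ p, M.u s r p = z ∧ M.u s r' p = z').card +
    (Finset.univ.filter fun s => ∃ p, M.w s r p = z ∧ M.w s r' p = z').card =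
      if sgn r r' z = sgn r' r z' then 1 else 2 := by
  classical
  have hgr : ∀ r, F.Gp (EB r).1 (EB r).2 := fun r => hs.hT _ _ (EB_lt r).1 (EB_lt r).2 (EB_ne r)
  have hus : ∀ s, ∃ p, M.u s r p = z := fun s => (Finite.injective_iff_surjective.1 (M.ui s r)) z
  have hws : ∀ s, ∃ p, M.w s r p = z := fun s => (Finite.injective_iff_surjective.1 (M.wi s r)) z
  choose gu hgu using hus
  choose gw hgw using hws
  set A := Finset.univ.filter fun s => ∃ p, M.u s r p = z ∧ M.u s r' p = z' with hA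
  set B := Finset.univ.filter fun s => ∃ p, M.w s r p = z ∧ M.w s r' p = z' with hB
  set S1 : Finset (Fin 99) :=
    if sgn r r' z = sgn r' r z' then {F.a (cmR r r') (sgn r r' z)} else ∅ with hS1
  set S2 : Finset (Fin 99) := A.image (fun s => F.pt (CB s) (gu s)) with hS2
  set S3 : Finset (Fin 99) := B.image (fun s => F.pt (DB s) (M.f s (gw s))) with hS3
  have hpt_far : ∀ (K : Fin 7 × Fin 7) (p : Fin 4) (k : Fin 7) (η : Bool), K.1 ≠ K.2 →
      F.a k η ≠ F.pt K p := by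
    intro K p k η hK he
    have h1 := (F.x_far K.1 K.2 (s1 p) (s2 p) hK).2
    have h2 := F.a_adj k η
    rw [he] at h2
    exact h1 h2
  have hN : G.neighborSet (F.pt (EB r) z) ∩ G.neighborSet (F.pt (EB r') z')
      = ((S1 ∪ (S2 ∪ S3) : Finset (Fin 99)) : Set (Fin 99)) := by
    ext x
    rw [Set.mem_inter_iff, SimpleGraph.mem_neighborSet, SimpleGraph.mem_neighborSet,
      nbr_class h F hs M r r' hr z z' x, Finset.mem_coe, Finset.mem_union, Finset.mem_union]
    refine or_congr ?_ (or_congr ?_ ?_)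
    · rw [hS1]
      split_ifs with h1
      · rw [Finset.mem_singleton]
        exact ⟨fun h2 => h2.2, fun h2 => ⟨h1, h2⟩⟩
      · exact ⟨fun h2 => absurd h2.1 h1, fun h2 => absurd h2 (Finset.notMem_empty _)⟩
    · rw [hS2, Finset.mem_image]
      constructor
      · rintro ⟨s, p, h1, h2, h3⟩
        have h4 : gu s = p := M.ui s r ((hgu s).trans h1.symm)
        refine ⟨s, ?_, ?_⟩
        · rw [hA, Finset.mem_filter]
          exact ⟨Finset.mem_univ _, p, h1, h2⟩
        · rw [h4, h3]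
      · rintro ⟨s, h1, h2⟩
        rw [hA, Finset.mem_filter] at h1
        obtain ⟨-, p, h3, h4⟩ := h1
        have h5 : gu s = p := M.ui s r ((hgu s).trans h3.symm)
        exact ⟨s, p, h3, h4, by rw [← h2, h5]⟩
    · rw [hS3, Finset.mem_image]
      constructor
      · rintro ⟨s, p, h1, h2, h3⟩
        have h4 : gw s = p := M.wi s r ((hgw s).trans h1.symm)
        refine ⟨s, ?_, ?_⟩
        · rw [hB, Finset.mem_filter]
          exact ⟨Finset.mem_univ _, p, h1, h2⟩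
        · rw [h4, h3]
      · rintro ⟨s, h1, h2⟩
        rw [hB, Finset.mem_filter] at h1
        obtain ⟨-, p, h3, h4⟩ := h1
        have h5 : gw s = p := M.wi s r ((hgw s).trans h3.symm)
        exact ⟨s, p, h3, h4, by rw [← h2, h5]⟩
  have hne : F.pt (EB r) z ≠ F.pt (EB r') z' := by
    exact F.pt_ne (EB_ne r) (EB_ne r') (EB_EB r r' hr).1 (EB_EB r r' hr).2 _ _
  have hna : ¬ G.Adj (F.pt (EB r) z) (F.pt (EB r') z') :=
    no_nbr_pt h F (EB_ne r) (EB_ne r') (hgr r) (Sh_EB r' r hr.symm) z z'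
  have h2 := h.mu _ _ hne hna
  rw [hN, Set.ncard_coe_finset] at h2
  have hd23 : Disjoint S2 S3 := by
    rw [Finset.disjoint_left]
    intro x hx hx'
    rw [hS2, Finset.mem_image] at hx
    rw [hS3, Finset.mem_image] at hx'
    obtain ⟨s, -, h3⟩ := hx
    obtain ⟨s', -, h4⟩ := hx'
    exact F.pt_ne (CB_ne s) (DB_ne s') (CB_DB s s').1 (CB_DB s s').2 _ _ (h3.trans h4.symm)
  have hd1 : Disjoint S1 (S2 ∪ S3) := by
    rw [Finset.disjoint_left]
    intro x hx hx'
    rw [hS1] at hx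
    split_ifs at hx with h1
    · rw [Finset.mem_singleton] at hx
      rw [Finset.mem_union, hS2, hS3, Finset.mem_image, Finset.mem_image] at hx'
      rcases hx' with ⟨s, -, h3⟩ | ⟨s, -, h3⟩
      · exact hpt_far _ _ _ _ (CB_ne s) (hx.symm.trans h3.symm)
      · exact hpt_far _ _ _ _ (DB_ne s) (hx.symm.trans h3.symm)
    · exact absurd hx (Finset.notMem_empty _)
  have hc2 : S2.card = A.card := by
    rw [hS2]
    refine Finset.card_image_of_injective _ ?_
    intro s s' he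
    by_contra hss
    exact F.pt_ne (CB_ne s) (CB_ne s') (CB_CB s s' hss).1 (CB_CB s s' hss).2 _ _ he
  have hc3 : S3.card = B.card := by
    rw [hS3]
    refine Finset.card_image_of_injective _ ?_
    intro s s' he
    by_contra hss
    exact F.pt_ne (DB_ne s) (DB_ne s') (DB_DB s s' hss).1 (DB_DB s s' hss).2 _ _ he
  rw [Finset.card_union_of_disjoint hd1, Finset.card_union_of_disjoint hd23, hc2, hc3] at h2
  rw [hS1] at h2
  split_ifs at h2 ⊢ with h1
  · rw [Finset.card_singleton] at h2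
    omega
  · rw [Finset.card_empty] at h2
    omega

end Pool.Agent.H23.CG
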