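import Pool.Agent.H23.CG.Blk

/-!
MU. The conditions `U`, `U'` for the maps of a split.

`U`: let `u s r p' = w s r p`, `p' ≠ p`, suppose `w s r p ≠ tr 2 (u s r p)` and `p' ≠ tr 2 p`. `X = pt (CB s) p`, `Z = pt (EB r) (w s r p)`: not adjacent
(`w s r p = u s r p' ≠ u s r p` as `ui`), different. Common neighbours: `pt (DB s) (f s p)` (`hf`, `hw`); `pt (CB s) p'` (`p' ≠ p, tr 2 p` so
`p' = tr 0 p` or `tr 1 p`: adjacent to `X` by `inner`; adjacent to `Z` by `hu`); `pt (EB r) (u s r p)` (adjacent to `X` by `hu`; adjacent to `Z` by `inner`, since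
`w s r p ≠ u s r p, tr 2 (u s r p)`). They are in three different blocks, so `no3` gives a contradiction.
`U'`: let `u s r p = w s r p'`, `p' ≠ p`, suppose `w s r p ≠ tr 2 (u s r p)`, `p' ≠ tr (b s) p`. `Y = pt (DB s) (f s p)`, `Z = pt (EB r) (u s r p)`: not adjacent
(`w s r p ≠ w s r p' = u s r p`), different. Common neighbours: `pt (CB s) p`; `pt (DB s) (f s p')` (adjacent to `Z` by `hw`; adjacent to `Y` by `inner`: `f s p' ≠ f s p` and
`f s p' ≠ tr 2 (f s p) = f s (tr (b s) p)`); `pt (EB r) (w s r p)` (adjacent to `Y` by `hw`; adjacent to `Z` by `inner`: `w s r p ≠ u s r p`, and `≠ tr 2 (u s r p)`). Contradiction by `no3`.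
(Every point of `Fin 4` different from `p` and `tr 2 p` is `tr 0 p` or `tr 1 p`: `decide`.)
-/
set_option autoImplicit false
namespace Pool.Agent.H23.CG
open SimpleGraph

private theorem mu_cls : ∀ a b : Fin 4, a ≠ b → a ≠ tr 2 b → a = tr 0 b ∨ a = tr 1 b := by decide
private theorem mu_cls' : ∀ a b : Fin 4, a ≠ b → a ≠ tr 2 b → b = tr 0 a ∨ b = tr 1 a := by decide
private theorem mu_Cn : ∀ s, (CB s).1 ≠ (CB s).2 := by decide
private theorem mu_Dn : ∀ s, (DB s).1 ≠ (DB s).2 := by decide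
private theorem mu_En : ∀ s, (EB s).1 ≠ (EB s).2 := by decide
private theorem mu_C3 : ∀ s, 3 ≤ (CB s).1.val ∧ 3 ≤ (CB s).2.val := by decide
private theorem mu_D3 : ∀ s, 3 ≤ (DB s).1.val ∧ 3 ≤ (DB s).2.val := by decide
private theorem mu_E3 : ∀ s, (EB s).1.val < 3 ∧ (EB s).2.val < 3 := by decide

private theorem mu_CD {G : SimpleGraph (Fin 99)} {v : Fin 99} (F : Frame G v) (s : Fin 3)
    (p q : Fin 4) : F.pt (CB s) p ≠ F.pt (DB s) q := by
  have h1 : ∀ s, ¬ ((CB s).1 = (DB s).1 ∧ (CB s).2 = (DB s).2) := by decide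
  have h2 : ∀ s, ¬ ((CB s).1 = (DB s).2 ∧ (CB s).2 = (DB s).1) := by decide
  exact F.pt_ne (mu_Cn s) (mu_Dn s) (h1 s) (h2 s) p q

private theorem mu_CE {G : SimpleGraph (Fin 99)} {v : Fin 99} (F : Frame G v) (s r : Fin 3)
    (p q : Fin 4) : F.pt (CB s) p ≠ F.pt (EB r) q := by
  have h1 : ∀ s r, ¬ ((CB s).1 = (EB r).1 ∧ (CB s).2 = (EB r).2) := by decide
  have h2 : ∀ s r, ¬ ((CB s).1 = (EB r).2 ∧ (CB s).2 = (EB r).1) := by decide
  exact F.pt_ne (mu_Cn s) (mu_En r) (h1 s r) (h2 s r) p q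

private theorem mu_DE {G : SimpleGraph (Fin 99)} {v : Fin 99} (F : Frame G v) (s r : Fin 3)
    (p q : Fin 4) : F.pt (DB s) p ≠ F.pt (EB r) q := by
  have h1 : ∀ s r, ¬ ((DB s).1 = (EB r).1 ∧ (DB s).2 = (EB r).2) := by decide
  have h2 : ∀ s r, ¬ ((DB s).1 = (EB r).2 ∧ (DB s).2 = (EB r).1) := by decide
  exact F.pt_ne (mu_Dn s) (mu_En r) (h1 s r) (h2 s r) p q

private theorem mu_iC {G : SimpleGraph (Fin 99)} {v : Fin 99} (h : Is99 G) (F : Frame G v)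
    (hs : Split F) (s : Fin 3) (p q : Fin 4) :
    G.Adj (F.pt (CB s) p) (F.pt (CB s) q) ↔ q = tr 0 p ∨ q = tr 1 p :=
  inner h F (mu_Cn s) (hs.hQ _ _ (mu_C3 s).1 (mu_C3 s).2 (mu_Cn s)) p q

private theorem mu_iD {G : SimpleGraph (Fin 99)} {v : Fin 99} (h : Is99 G) (F : Frame G v)
    (hs : Split F) (s : Fin 3) (p q : Fin 4) :
    G.Adj (F.pt (DB s) p) (F.pt (DB s) q) ↔ q = tr 0 p ∨ q = tr 1 p :=
  inner h F (mu_Dn s) (hs.hQ _ _ (mu_D3 s).1 (mu_D3 s).2 (mu_Dn s)) p q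

private theorem mu_iE {G : SimpleGraph (Fin 99)} {v : Fin 99} (h : Is99 G) (F : Frame G v)
    (hs : Split F) (s : Fin 3) (p q : Fin 4) :
    G.Adj (F.pt (EB s) p) (F.pt (EB s) q) ↔ q = tr 0 p ∨ q = tr 1 p :=
  inner h F (mu_En s) (hs.hT _ _ (mu_E3 s).1 (mu_E3 s).2 (mu_En s)) p q

theorem maps_U {G : SimpleGraph (Fin 99)} {v : Fin 99} (h : Is99 G) (F : Frame G v) (hs : Split F) (M : Maps F)
    (s r : Fin 3) (p p' : Fin 4) (h1 : M.u s r p' = M.w s r p) (h2 : p' ≠ p) :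
    M.w s r p = tr 2 (M.u s r p) ∨ p' = tr 2 p := by
  by_contra hcon
  push Not at hcon
  obtain ⟨c1, c2⟩ := hcon
  have hwu : M.w s r p ≠ M.u s r p := by
    intro e
    exact h2 (M.ui s r (h1.trans e))
  exact h.no3 (mu_CE F s r p (M.w s r p)) (mu_CD F s p' (M.f s p)).symm
    (mu_DE F s r (M.f s p) (M.u s r p)) (mu_CE F s r p' (M.u s r p))
    ((M.hf s p _).2 rfl) ((M.hw s r p _).2 rfl).symm
    ((mu_iC h F hs s p p').2 (mu_cls p' p h2 c2)) ((M.hu s r p' _).2 h1.symm).symm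
    ((M.hu s r p _).2 rfl)
    ((mu_iE h F hs r (M.w s r p) (M.u s r p)).2 (mu_cls' _ _ hwu c1))

theorem maps_U' {G : SimpleGraph (Fin 99)} {v : Fin 99} (h : Is99 G) (F : Frame G v) (hs : Split F) (M : Maps F)
    (s r : Fin 3) (p p' : Fin 4) (h1 : M.u s r p = M.w s r p') (h2 : p' ≠ p) :
    M.w s r p = tr 2 (M.u s r p) ∨ p' = tr (M.b s) p := by
  by_contra hcon
  push Not at hcon
  obtain ⟨c1, c2⟩ := hcon
  have hwu : M.w s r p ≠ M.u s r p := by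
    intro e
    exact h2 (M.wi s r (e.trans h1)).symm
  have hf1 : M.f s p' ≠ M.f s p := fun e => h2 (M.fi s e)
  have hf2 : M.f s p' ≠ tr 2 (M.f s p) := by
    rw [← M.hb s p]
    exact fun e => c2 (M.fi s e)
  exact h.no3 (mu_DE F s r (M.f s p) (M.u s r p)) (mu_CD F s p (M.f s p'))
    (mu_CE F s r p (M.w s r p)) (mu_DE F s r (M.f s p') (M.w s r p))
    ((M.hf s p _).2 rfl).symm ((M.hu s r p _).2 rfl).symm
    ((mu_iD h F hs s (M.f s p) (M.f s p')).2 (mu_cls _ _ hf1 hf2))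
    ((M.hw s r p' _).2 h1).symm
    ((M.hw s r p _).2 rfl)
    ((mu_iE h F hs r (M.u s r p) (M.w s r p)).2 (mu_cls _ _ hwu c1))

end Pool.Agent.H23.CG
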