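import Pool.Agent.H23.CG.Grd

/-!
TOT. Double counting: `9 * (number of grids) = ∑ v, (number of grids through v) ≤ 99 * 18`.

`Set (Fin 99)` is finite; write the numbers as cardinalities of filters of `Finset.univ` (classical) and exchange the sums (`Finset.sum_card_bipartiteAbove_eq_sum_card_bipartiteBelow` or `Finset.sum_comm`), `grid_card`.
`9 * n ≤ 1782` gives `n ≤ 198`.
-/
set_option autoImplicit false
namespace Pool.Agent.H23.CG
open SimpleGraph

open scoped Classical in
private theorem Tot_dc {α : Type*} [Fintype α] (P : Set α → Prop) (k m : ℕ)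
    (hP : ∀ S, P S → S.ncard = k) (hv : ∀ v, {S : Set α | v ∈ S ∧ P S}.ncard ≤ m) :
    {S : Set α | P S}.ncard * k ≤ Fintype.card α * m := by
  have h1 : ∀ v : α, {S : Set α | v ∈ S ∧ P S}.ncard =
      (Finset.bipartiteAbove (fun (v : α) (S : Set α) => v ∈ S)
        ((Finset.univ : Finset (Set α)).filter P) v).card := by
    intro v
    rw [← Set.ncard_coe_finset]
    congr 1
    ext S
    simp [Finset.bipartiteAbove, and_comm]
  have h2 : {S : Set α | P S}.ncard = ((Finset.univ : Finset (Set α)).filter P).card := by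
    rw [← Set.ncard_coe_finset]
    congr 1
    ext S
    simp
  have h3 : ∀ S ∈ (Finset.univ : Finset (Set α)).filter P,
      (Finset.bipartiteBelow (fun (v : α) (S : Set α) => v ∈ S)
        (Finset.univ : Finset α) S).card = k := by
    intro S hS
    rw [← hP S (Finset.mem_filter.1 hS).2, ← Set.ncard_coe_finset]
    congr 1
    ext v
    simp [Finset.bipartiteBelow]
  have h4 := Finset.sum_card_bipartiteAbove_eq_sum_card_bipartiteBelow
    (fun (v : α) (S : Set α) => v ∈ S) (s := (Finset.univ : Finset α))
    (t := (Finset.univ : Finset (Set α)).filter P)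
  rw [Finset.sum_congr rfl h3, Finset.sum_const, smul_eq_mul, ← h2] at h4
  rw [← h4, ← Finset.card_univ, ← smul_eq_mul]
  apply Finset.sum_le_card_nsmul
  intro v _
  rw [← h1]
  exact hv v

theorem total_bound (G : SimpleGraph (Fin 99))
    (hv : ∀ v, {S : Set (Fin 99) | v ∈ S ∧ IsGrid G S}.ncard ≤ 18) :
    {S : Set (Fin 99) | IsGrid G S}.ncard ≤ 198 := by
  have h := Tot_dc (IsGrid G) 9 18 (fun S hS => grid_card S hS) hv
  rw [Fintype.card_fin] at h
  omega

end Pool.Agent.H23.CG
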