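import Pool.Agent.H23.CG.Vert
import Pool.Agent.H23.CG.Tot

set_option autoImplicit false
namespace Pool.Agent.H23.CG
open SimpleGraph

theorem main (G : SimpleGraph (Fin 99)) (h1 : G.LocallyLinear) (h2 : Nfc61c3d6.NonEdgesAreDiagonals G) :
    (∀ v, {S : Set (Fin 99) | v ∈ S ∧ IsGrid G S}.ncard ≤ 18) ∧ {S : Set (Fin 99) | IsGrid G S}.ncard ≤ 198 := by
  have h := is99_of G h1 h2
  exact ⟨fun v => vertex_bound h v, total_bound G fun v => vertex_bound h v⟩

end Pool.Agent.H23.CG
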