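import Pool.Agent.H23.CG.Blk

/-!
MAPE. The adjacency bijections of a split exist.

`one_nbr` for all pairs of disjoint blocks `A`, `B` (both grid pairs) gives a function `g` with
`G.Adj (pt A p) (pt B q) ↔ q = g p` (`one_nbr` applied to the block of `B`), injective because `pt B q` has only one neighbour in the block of `A` (`one_nbr` with the roles exchanged).
`u s r` from `CB s` to `EB r`, `f s` from `CB s` to `DB s`, `w' s r` from `DB s` to `EB r`, `w s r = w' s r ∘ f s`.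
`b s`: `p ↦ f⁻¹ (tr 2 (f p))` is a fixed point free involution of `Fin 4`; for an injective `f : Fin 4 → Fin 4` there is `c` with
`f (tr c p) = tr 2 (f p)` for all `p` (`decide` over the 256 functions).
-/
set_option autoImplicit false
namespace Pool.Agent.H23.CG
open SimpleGraph

private theorem mape_dec : ∀ a b c d : Fin 4, a ≠ b → a ≠ c → a ≠ d → b ≠ c → b ≠ d → c ≠ d →
    ∃ t : Fin 3, ∀ p : Fin 4, (![a, b, c, d] : Fin 4 → Fin 4) (tr t p) = tr 2 ((![a, b, c, d] : Fin 4 → Fin 4) p) := by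
  decide +kernel

theorem exists_class (f : Fin 4 → Fin 4) (hf : Function.Injective f) : ∃ c : Fin 3, ∀ p, f (tr c p) = tr 2 (f p) := by
  have hff : f = ![f 0, f 1, f 2, f 3] := by
    funext p
    fin_cases p <;> rfl
  have hne : ∀ i j : Fin 4, i ≠ j → f i ≠ f j := fun i j h e => h (hf e)
  obtain ⟨t, ht⟩ := mape_dec (f 0) (f 1) (f 2) (f 3) (hne _ _ (by decide)) (hne _ _ (by decide))
    (hne _ _ (by decide)) (hne _ _ (by decide)) (hne _ _ (by decide)) (hne _ _ (by decide))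
  rw [← hff] at ht
  exact ⟨t, ht⟩

private theorem mape_bij {G : SimpleGraph (Fin 99)} {v : Fin 99} (h : Is99 G) (F : Frame G v)
    (A B : Fin 7 × Fin 7) (hA : A.1 ≠ A.2) (hB : B.1 ≠ B.2) (h11 : A.1 ≠ B.1) (h12 : A.1 ≠ B.2)
    (h21 : A.2 ≠ B.1) (h22 : A.2 ≠ B.2) (gA : F.Gp A.1 A.2) (gB : F.Gp B.1 B.2) :
    ∃ g : Fin 4 → Fin 4, Function.Injective g ∧ ∀ p q, G.Adj (F.pt A p) (F.pt B q) ↔ q = g p := by
  choose g hg1 hg2 using fun p => one_nbr h F hB h11.symm h21.symm h12.symm h22.symm hA gB p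
  refine ⟨g, ?_, ?_⟩
  · intro p p' hpp
    obtain ⟨q0, -, h3⟩ := one_nbr h F hA h11 h12 h21 h22 hB gA (g p)
    have h4 := h3 p (hg1 p).symm
    have h5 := h3 p' (by rw [hpp]; exact (hg1 p').symm)
    rw [h4, h5]
  · intro p q
    constructor
    · intro h1
      exact hg2 p q h1
    · intro h1
      rw [h1]
      exact hg1 p

theorem exists_maps {G : SimpleGraph (Fin 99)} {v : Fin 99} (h : Is99 G) (F : Frame G v) (hs : Split F) :
    Nonempty (Maps F) := by
  have dC : ∀ s, (CB s).1 ≠ (CB s).2 := by decide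
  have dD : ∀ s, (DB s).1 ≠ (DB s).2 := by decide
  have dE : ∀ r, (EB r).1 ≠ (EB r).2 := by decide
  have gC : ∀ s, F.Gp (CB s).1 (CB s).2 := fun s =>
    hs.hQ _ _ ((by decide : ∀ s, 3 ≤ (CB s).1.val) s) ((by decide : ∀ s, 3 ≤ (CB s).2.val) s) (dC s)
  have gD : ∀ s, F.Gp (DB s).1 (DB s).2 := fun s =>
    hs.hQ _ _ ((by decide : ∀ s, 3 ≤ (DB s).1.val) s) ((by decide : ∀ s, 3 ≤ (DB s).2.val) s) (dD s)
  have gE : ∀ r, F.Gp (EB r).1 (EB r).2 := fun r =>
    hs.hT _ _ ((by decide : ∀ r, (EB r).1.val < 3) r) ((by decide : ∀ r, (EB r).2.val < 3) r) (dE r)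
  have hu : ∀ s r, ∃ g : Fin 4 → Fin 4, Function.Injective g ∧
      ∀ p q, G.Adj (F.pt (CB s) p) (F.pt (EB r) q) ↔ q = g p := fun s r =>
    mape_bij h F (CB s) (EB r) (dC s) (dE r) ((by decide : ∀ s r, (CB s).1 ≠ (EB r).1) s r)
      ((by decide : ∀ s r, (CB s).1 ≠ (EB r).2) s r) ((by decide : ∀ s r, (CB s).2 ≠ (EB r).1) s r)
      ((by decide : ∀ s r, (CB s).2 ≠ (EB r).2) s r) (gC s) (gE r)
  have hw : ∀ s r, ∃ g : Fin 4 → Fin 4, Function.Injective g ∧
      ∀ p q, G.Adj (F.pt (DB s) p) (F.pt (EB r) q) ↔ q = g p := fun s r =>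
    mape_bij h F (DB s) (EB r) (dD s) (dE r) ((by decide : ∀ s r, (DB s).1 ≠ (EB r).1) s r)
      ((by decide : ∀ s r, (DB s).1 ≠ (EB r).2) s r) ((by decide : ∀ s r, (DB s).2 ≠ (EB r).1) s r)
      ((by decide : ∀ s r, (DB s).2 ≠ (EB r).2) s r) (gD s) (gE r)
  have hf : ∀ s, ∃ g : Fin 4 → Fin 4, Function.Injective g ∧
      ∀ p q, G.Adj (F.pt (CB s) p) (F.pt (DB s) q) ↔ q = g p := fun s =>
    mape_bij h F (CB s) (DB s) (dC s) (dD s) ((by decide : ∀ s, (CB s).1 ≠ (DB s).1) s)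
      ((by decide : ∀ s, (CB s).1 ≠ (DB s).2) s) ((by decide : ∀ s, (CB s).2 ≠ (DB s).1) s)
      ((by decide : ∀ s, (CB s).2 ≠ (DB s).2) s) (gC s) (gD s)
  choose u ui hu using hu
  choose w' wi hw using hw
  choose f fi hf using hf
  choose b hb using fun s => exists_class (f s) (fi s)
  exact ⟨{
    u := u
    w := fun s r p => w' s r (f s p)
    f := f
    b := b
    ui := ui
    wi := fun s r => (wi s r).comp (fi s)
    fi := fi
    hu := hu
    hw := fun s r p q => hw s r (f s p) q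
    hf := hf
    hb := hb }⟩

end Pool.Agent.H23.CG
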