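import Pool.Agent.H23.CG.Reg

/-!
NBR. A vertex outside a grid has exactly one neighbour in it.

Setting: `F : Frame G v`, `i ≠ j`, `F.Gp i j`, `W = F.box i j` (9 vertices: `v`, `a i ε`, `a j ε`, `x i j ε δ`).
The edges inside `W` are those of the 3×3 grid (rows/columns: `{v, a i ±}`, `{v, a j ±}`, `{a i ε, x i j ε ±}`, `{a j δ, x i j ± δ}`):
every vertex of `W` has exactly 4 neighbours in `W`. Indeed the 18 edges are there (`a_adj`, `a_a`, `a_x`, `Gp`), and there are no others:
two vertices of `W` which are not in a common row or column have two common neighbours in `W`, so they are not adjacent (`Is99.no2`).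
(1) (`at most one`) Let `w ∉ W` be adjacent to `y ≠ y' ∈ W`. If `y, y'` are adjacent they have a common neighbour in `W` and the
further one `w`: contradiction (`third`). If they are not adjacent they have two common neighbours in `W` and `w`: `no3`.
(2) (`at least one`) Count the pairs `(y, w)`, `y ∈ W`, `w ∉ W` adjacent: `9 * (14 - 4) = 90`; by (1) every `w ∉ W` is in at most one pair, and there are
`99 - 9 = 90` of them. So everyone is in exactly one.
The lemma `nbr_at_most` may also be useful alone.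
-/
set_option autoImplicit false
namespace Pool.Agent.H23.CG
open SimpleGraph

variable {G : SimpleGraph (Fin 99)} {v : Fin 99}

/-- the vertices of the grid with coordinates in `Option Bool` -/
private def gv (F : Frame G v) (i j : Fin 7) : Option Bool → Option Bool → Fin 99
  | none, none => v
  | some ε, none => F.a i ε
  | none, some δ => F.a j δ
  | some ε, some δ => F.x i j ε δ

private theorem gv_mem (F : Frame G v) (i j : Fin 7) (w : Fin 99) :
    w ∈ F.box i j ↔ ∃ r c, w = gv F i j r c := by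
  constructor
  · rintro (h | ⟨ε, h⟩ | ⟨ε, h⟩ | ⟨ε, δ, h⟩)
    · exact ⟨none, none, h⟩
    · exact ⟨some ε, none, h⟩
    · exact ⟨none, some ε, h⟩
    · exact ⟨some ε, some δ, h⟩
  · rintro ⟨r, c, h⟩
    rcases r with _ | ε <;> rcases c with _ | δ
    · exact Or.inl h
    · exact Or.inr (Or.inr (Or.inl ⟨δ, h⟩))
    · exact Or.inr (Or.inl ⟨ε, h⟩)
    · exact Or.inr (Or.inr (Or.inr ⟨ε, δ, h⟩))

private theorem gv_row (F : Frame G v) {i j : Fin 7} (hij : i ≠ j) (hg : F.Gp i j)
    (r c c' : Option Bool) (hc : c ≠ c') : G.Adj (gv F i j r c) (gv F i j r c') := by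
  have hx : ∀ ε δ δ', δ ≠ δ' → G.Adj (F.x i j ε δ) (F.x i j ε δ') := by
    intro ε δ δ' hd
    have h1 := hg.1 ε
    cases δ <;> cases δ'
    · exact absurd rfl hd
    · exact h1.symm
    · exact h1
    · exact absurd rfl hd
  have hax : ∀ ε δ, G.Adj (F.a i ε) (F.x i j ε δ) := fun ε δ =>
    (F.a_x i j i ε δ ε hij).2 (Or.inl ⟨rfl, rfl⟩)
  rcases r with _ | ε <;> rcases c with _ | δ <;> rcases c' with _ | δ'
  · exact absurd rfl hc
  · exact F.a_adj j δ'
  · exact (F.a_adj j δ).symm
  · exact (F.a_a j j δ δ').2 ⟨rfl, fun e => hc (by rw [e])⟩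
  · exact absurd rfl hc
  · exact hax ε δ'
  · exact (hax ε δ).symm
  · exact hx ε δ δ' fun e => hc (by rw [e])

private theorem gv_col (F : Frame G v) {i j : Fin 7} (hij : i ≠ j) (hg : F.Gp i j)
    (r r' c : Option Bool) (hr : r ≠ r') : G.Adj (gv F i j r c) (gv F i j r' c) := by
  have hx : ∀ ε ε' δ, ε ≠ ε' → G.Adj (F.x i j ε δ) (F.x i j ε' δ) := by
    intro ε ε' δ hd
    have h1 := hg.2 δ
    cases ε <;> cases ε'
    · exact absurd rfl hd
    · exact h1.symm
    · exact h1
    · exact absurd rfl hd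
  have hax : ∀ ε δ, G.Adj (F.a j δ) (F.x i j ε δ) := fun ε δ =>
    (F.a_x i j j ε δ δ hij).2 (Or.inr ⟨rfl, rfl⟩)
  rcases c with _ | δ <;> rcases r with _ | ε <;> rcases r' with _ | ε'
  · exact absurd rfl hr
  · exact F.a_adj i ε'
  · exact (F.a_adj i ε).symm
  · exact (F.a_a i i ε ε').2 ⟨rfl, fun e => hr (by rw [e])⟩
  · exact absurd rfl hr
  · exact hax ε' δ
  · exact (hax ε δ).symm
  · exact hx ε ε' δ fun e => hr (by rw [e])

private theorem gv_inj (F : Frame G v) {i j : Fin 7} (hij : i ≠ j) {r c r' c' : Option Bool}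
    (h : gv F i j r c = gv F i j r' c') : r = r' ∧ c = c' := by
  have ha : ∀ k ε, F.a k ε ≠ v := fun k ε e => by
    have h1 := F.a_adj k ε
    rw [e] at h1
    exact G.loopless.irrefl v h1
  have hxa : ∀ ε δ k η, F.x i j ε δ ≠ F.a k η := fun ε δ k η e => by
    have h1 := (F.x_far i j ε δ hij).2
    rw [e] at h1
    exact h1 (F.a_adj k η)
  have hxv : ∀ ε δ, F.x i j ε δ ≠ v := fun ε δ => (F.x_far i j ε δ hij).1
  rcases r with _ | ε <;> rcases c with _ | δ <;> rcases r' with _ | ε' <;>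
    rcases c' with _ | δ' <;> simp only [gv] at h
  · exact ⟨rfl, rfl⟩
  · exact absurd h.symm (ha _ _)
  · exact absurd h.symm (ha _ _)
  · exact absurd h.symm (hxv _ _)
  · exact absurd h (ha _ _)
  · exact ⟨rfl, by rw [(F.a_inj _ _ _ _ h).2]⟩
  · exact absurd (F.a_inj _ _ _ _ h).1.symm hij
  · exact absurd h.symm (hxa _ _ _ _)
  · exact absurd h (ha _ _)
  · exact absurd (F.a_inj _ _ _ _ h).1 hij
  · exact ⟨by rw [(F.a_inj _ _ _ _ h).2], rfl⟩
  · exact absurd h.symm (hxa _ _ _ _)
  · exact absurd h (hxv _ _)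
  · exact absurd h (hxa _ _ _ _)
  · exact absurd h (hxa _ _ _ _)
  · rcases F.x_inj _ _ _ _ _ _ _ _ hij hij h with h1 | h1
    · exact ⟨by rw [h1.2.2.1], by rw [h1.2.2.2]⟩
    · exact absurd h1.1 hij

private theorem gv_adj (h : Is99 G) (F : Frame G v) {i j : Fin 7} (hij : i ≠ j) (hg : F.Gp i j)
    (r c r' c' : Option Bool) :
    G.Adj (gv F i j r c) (gv F i j r' c') ↔ (r = r' ∧ c ≠ c') ∨ (r ≠ r' ∧ c = c') := by
  constructor
  · intro h1
    by_cases hr : r = r'
    · subst hr
      left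
      refine ⟨rfl, ?_⟩
      rintro rfl
      exact G.loopless.irrefl _ h1
    · by_cases hc : c = c'
      · exact Or.inr ⟨hr, hc⟩
      · exfalso
        refine h.no2 (z := gv F i j r c') (z' := gv F i j r' c) ?_ (gv_row F hij hg r c c' hc)
          (gv_col F hij hg r' r c' (Ne.symm hr)) (gv_col F hij hg r r' c hr)
          (gv_row F hij hg r' c' c (Ne.symm hc)) h1
        intro e
        exact hr (gv_inj F hij e).1
  · rintro (⟨rfl, hc⟩ | ⟨hr, rfl⟩)
    · exact gv_row F hij hg r c c' hc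
    · exact gv_col F hij hg r r' c hr

/-- adjacency inside the grid -/
theorem Frame.x_adj (h : Is99 G) (F : Frame G v) {i j : Fin 7} (hij : i ≠ j) (hg : F.Gp i j) (ε δ ε' δ' : Bool) :
    G.Adj (F.x i j ε δ) (F.x i j ε' δ') ↔ (ε = ε' ∧ δ ≠ δ') ∨ (ε ≠ ε' ∧ δ = δ') := by
  have h1 := gv_adj h F hij hg (some ε) (some δ) (some ε') (some δ')
  simp only [gv, Option.some.injEq, ne_eq] at h1
  exact h1

private theorem third_bool : ∀ c c' : Option Bool, ∃ c'' : Option Bool, c'' ≠ c ∧ c'' ≠ c' := by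
  decide

theorem nbr_at_most (h : Is99 G) (F : Frame G v) {i j : Fin 7} (hij : i ≠ j) (hg : F.Gp i j) {w y y' : Fin 99}
    (hw : w ∉ F.box i j) (hy : y ∈ F.box i j) (hy' : y' ∈ F.box i j) (h1 : G.Adj w y) (h2 : G.Adj w y') : y = y' := by
  rw [gv_mem] at hw hy hy'
  obtain ⟨r, c, rfl⟩ := hy
  obtain ⟨r', c', rfl⟩ := hy'
  by_cases hr : r = r'
  · subst hr
    by_cases hc : c = c'
    · rw [hc]
    · exfalso
      obtain ⟨c'', h3, h4⟩ := third_bool c c'
      obtain ⟨z, _, _, h5⟩ := h.third (gv_row F hij hg r c c' hc)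
      have h6 := h5 w h1.symm h2.symm
      have h7 := h5 (gv F i j r c'') (gv_row F hij hg r c c'' (Ne.symm h3))
        (gv_row F hij hg r c' c'' (Ne.symm h4))
      exact hw ⟨r, c'', h6.trans h7.symm⟩
  · by_cases hc : c = c'
    · subst hc
      exfalso
      obtain ⟨r'', h3, h4⟩ := third_bool r r'
      obtain ⟨z, _, _, h5⟩ := h.third (gv_col F hij hg r r' c hr)
      have h6 := h5 w h1.symm h2.symm
      have h7 := h5 (gv F i j r'' c) (gv_col F hij hg r r'' c (Ne.symm h3))
        (gv_col F hij hg r' r'' c (Ne.symm h4))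
      exact hw ⟨r'', c, h6.trans h7.symm⟩
    · exfalso
      refine h.no3 (x := gv F i j r c) (y := gv F i j r' c') (z := gv F i j r c')
        (z' := gv F i j r' c) (z'' := w) ?_ ?_ ?_ ?_ (gv_row F hij hg r c c' hc)
        (gv_col F hij hg r' r c' (Ne.symm hr)) (gv_col F hij hg r r' c hr)
        (gv_row F hij hg r' c' c (Ne.symm hc)) h1.symm h2.symm
      · intro e
        exact hr (gv_inj F hij e).1
      · intro e
        exact hr (gv_inj F hij e).1
      · intro e
        exact hw ⟨r, c', e.symm⟩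
      · intro e
        exact hw ⟨r', c, e.symm⟩

open Classical in
private noncomputable def nbf (G : SimpleGraph (Fin 99)) (x : Fin 99) : Finset (Fin 99) :=
  Finset.univ.filter fun w => G.Adj x w

private theorem mem_nbf {x w : Fin 99} : w ∈ nbf G x ↔ G.Adj x w := by
  simp [nbf]

private theorem card_nbf (h : Is99 G) (x : Fin 99) : (nbf G x).card = 14 := by
  have h1 : (nbf G x : Set (Fin 99)) = G.neighborSet x := by
    ext w
    rw [Finset.mem_coe, mem_nbf, SimpleGraph.mem_neighborSet]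
  rw [← h.deg x, ← h1, Set.ncard_coe_finset]

open Classical in
private theorem card_nbf_inter (x : Fin 99) (T : Finset (Fin 99)) :
    (nbf G x ∩ T).card = ∑ w ∈ T, if G.Adj x w then 1 else 0 := by
  rw [← Finset.card_filter]
  congr 1
  ext w
  rw [Finset.mem_inter, mem_nbf, Finset.mem_filter, and_comm]

private theorem doublef (S T : Finset (Fin 99)) :
    ∑ z ∈ S, (nbf G z ∩ T).card = ∑ w ∈ T, (nbf G w ∩ S).card := by
  simp only [card_nbf_inter]
  rw [Finset.sum_comm]
  refine Finset.sum_congr rfl fun w _ => Finset.sum_congr rfl fun z _ => ?_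
  by_cases hh : G.Adj w z
  · rw [if_pos hh, if_pos hh.symm]
  · rw [if_neg hh, if_neg fun e => hh e.symm]

private theorem grid_four : ∀ r c : Option Bool,
    (Finset.univ.filter fun p : Option Bool × Option Bool =>
        (r = p.1 ∧ c ≠ p.2) ∨ (r ≠ p.1 ∧ c = p.2)).card = 4 := by
  decide

theorem nbr_exists (h : Is99 G) (F : Frame G v) {i j : Fin 7} (hij : i ≠ j) (hg : F.Gp i j) {w : Fin 99}
    (hw : w ∉ F.box i j) : ∃ y ∈ F.box i j, G.Adj w y := by
  classical
  by_contra hno
  push Not at hno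
  let g : Option Bool × Option Bool → Fin 99 := fun p => gv F i j p.1 p.2
  have hgi : Function.Injective g := by
    rintro ⟨r, c⟩ ⟨r', c'⟩ e
    have := gv_inj F hij e
    exact Prod.ext this.1 this.2
  let W : Finset (Fin 99) := Finset.univ.image g
  have hW : ∀ y, y ∈ W ↔ y ∈ F.box i j := by
    intro y
    rw [gv_mem, Finset.mem_image]
    constructor
    · rintro ⟨⟨r, c⟩, _, rfl⟩
      exact ⟨r, c, rfl⟩
    · rintro ⟨r, c, rfl⟩
      exact ⟨(r, c), Finset.mem_univ _, rfl⟩
  have hWc : W.card = 9 := by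
    rw [Finset.card_image_of_injective _ hgi]
    rfl
  have hWcc : Wᶜ.card = 90 := by
    rw [Finset.card_compl, hWc, Fintype.card_fin]
  have hin : ∀ y ∈ W, (nbf G y ∩ W).card = 4 := by
    intro y hy
    obtain ⟨⟨r, c⟩, _, rfl⟩ := Finset.mem_image.1 hy
    have h1 : nbf G (g (r, c)) ∩ W = (Finset.univ.filter fun p : Option Bool × Option Bool =>
        (r = p.1 ∧ c ≠ p.2) ∨ (r ≠ p.1 ∧ c = p.2)).image g := by
      ext z
      constructor
      · intro h2
        rw [Finset.mem_inter, mem_nbf] at h2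
        obtain ⟨h2, h3⟩ := h2
        obtain ⟨p, _, rfl⟩ := Finset.mem_image.1 h3
        exact Finset.mem_image.2
          ⟨p, Finset.mem_filter.2 ⟨Finset.mem_univ _, (gv_adj h F hij hg _ _ _ _).1 h2⟩, rfl⟩
      · intro h2
        obtain ⟨p, h3, rfl⟩ := Finset.mem_image.1 h2
        rw [Finset.mem_inter, mem_nbf]
        exact ⟨(gv_adj h F hij hg _ _ _ _).2 (Finset.mem_filter.1 h3).2,
          Finset.mem_image.2 ⟨p, Finset.mem_univ _, rfl⟩⟩
    rw [h1, Finset.card_image_of_injective _ hgi]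
    exact grid_four r c
  have hout : ∀ y ∈ W, (nbf G y ∩ Wᶜ).card = 10 := by
    intro y hy
    have h1 := hin y hy
    have h2 := card_nbf h y
    have h3 : (nbf G y ∩ W).card + (nbf G y ∩ Wᶜ).card = (nbf G y).card := by
      rw [← Finset.card_inter_add_card_sdiff (nbf G y) W, Finset.sdiff_eq_inter_compl]
    omega
  have hsum := doublef (G := G) W Wᶜ
  rw [Finset.sum_congr rfl hout, Finset.sum_const, hWc] at hsum
  have hle : ∀ z ∈ Wᶜ, (nbf G z ∩ W).card ≤ 1 := by
    intro z hz
    rw [Finset.card_le_one]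
    intro a ha b hb
    rw [Finset.mem_inter, mem_nbf, hW] at ha hb
    rw [Finset.mem_compl, hW] at hz
    exact nbr_at_most h F hij hg hz ha.2 hb.2 ha.1 hb.1
  have hwW : w ∈ Wᶜ := by
    rw [Finset.mem_compl, hW]
    exact hw
  have h0 : (nbf G w ∩ W).card = 0 := by
    rw [Finset.card_eq_zero, Finset.eq_empty_iff_forall_notMem]
    intro y hy
    rw [Finset.mem_inter, mem_nbf, hW] at hy
    exact hno y hy.2 hy.1
  have hlt : ∑ z ∈ Wᶜ, (nbf G z ∩ W).card < ∑ _z ∈ Wᶜ, 1 :=
    Finset.sum_lt_sum hle ⟨w, hwW, by omega⟩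
  rw [← hsum, Finset.sum_const, hWcc] at hlt
  simp at hlt

end Pool.Agent.H23.CG
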