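import Pool.Agent.H23.CG.LocDef

/-!
PERM. Facts on injective functions `Fin 4 → Fin 4`; all are finite checks (256 functions): `decide`, `decide +kernel`, or
`revert` + `decide`. (`Fin 4 → Fin 4` is a `Fintype` with decidable `∀`; if `decide` is slow write `g = ![g 0, g 1, g 2, g 3]` and quantify over the four values.)
-/
set_option autoImplicit false
namespace Pool.Agent.H23.CG

/-- reduction of a statement on all injective functions to one on four values -/
private theorem red4 (P : (Fin 4 → Fin 4) → Prop)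
    (h : ∀ a b c d : Fin 4, (a ≠ b ∧ a ≠ c ∧ a ≠ d ∧ b ≠ c ∧ b ≠ d ∧ c ≠ d) → P ![a, b, c, d])
    (g : Fin 4 → Fin 4) (hg : Function.Injective g) : P g := by
  have e : g = ![g 0, g 1, g 2, g 3] := by
    funext i; fin_cases i <;> rfl
  rw [e]
  apply h
  refine ⟨?_, ?_, ?_, ?_, ?_, ?_⟩ <;> intro hh <;> exact absurd (hg hh) (by decide)

theorem cl_spec (g : Fin 4 → Fin 4) (hg : Function.Injective g) (c : Fin 3) (p : Fin 4) :
    g (tr c p) = tr (cl g c) (g p) := by
  revert c p
  exact red4 (fun g => ∀ c p, g (tr c p) = tr (cl g c) (g p)) (by decide +kernel) g hg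

theorem cl_inj (g : Fin 4 → Fin 4) (hg : Function.Injective g) : Function.Injective (cl g) := by
  have : ∀ x y, cl g x = cl g y → x = y :=
    red4 (fun g => ∀ x y, cl g x = cl g y → x = y) (by decide +kernel) g hg
  exact fun x y h => this x y h

theorem tr_inj (c c' : Fin 3) (p : Fin 4) (h : tr c p = tr c' p) : c = c' := by
  revert c c' p; decide

theorem cl_comp (g g' : Fin 4 → Fin 4) (hg : Function.Injective g) (hg' : Function.Injective g') (c : Fin 3) :
    cl (g ∘ g') c = cl g (cl g' c) := by
  have h1 := cl_spec (g ∘ g') (hg.comp hg') c 0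
  have h2 : (g ∘ g') (tr c 0) = tr (cl g (cl g' c)) ((g ∘ g') 0) := by
    simp only [Function.comp]
    rw [cl_spec g' hg', cl_spec g hg]
  rw [h1] at h2
  exact tr_inj _ _ _ h2

theorem chi_cl (g : Fin 4 → Fin 4) (hg : Function.Injective g) (c : Fin 3) :
    (∀ p, chi (cl g c) (g p) = chi c p) ∨ (∀ p, chi (cl g c) (g p) = - chi c p) := by
  revert c
  exact red4 (fun g => ∀ c, (∀ p, chi (cl g c) (g p) = chi c p) ∨ (∀ p, chi (cl g c) (g p) = - chi c p))
    (by decide +kernel) g hg

theorem chi_sum (a b : Fin 3) : ∑ p, chi a p * chi b p = if a = b then 4 else 0 := by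
  revert a b; decide

theorem ev_code4 (g : Fin 4 → Fin 4) (p : Fin 4) : ev (code4 g) p.val = (g p).val := by
  have key : ∀ a b c d : Fin 4, ∀ p : Fin 4, ev (a.val + 4 * b.val + 16 * c.val + 64 * d.val) p.val =
      (![a, b, c, d] p).val := by decide +kernel
  have e : g = ![g 0, g 1, g 2, g 3] := by
    funext i; fin_cases i <;> rfl
  have := key (g 0) (g 1) (g 2) (g 3) p
  unfold code4
  rw [this, ← e]

theorem ev_code3 (g : Fin 3 → Fin 3) (x : Fin 3) : ev (code3 g) x.val = (g x).val := by
  have key : ∀ a b c : Fin 3, ∀ p : Fin 3, ev (a.val + 4 * b.val + 16 * c.val) p.val =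
      (![a, b, c] p).val := by decide +kernel
  have e : g = ![g 0, g 1, g 2] := by
    funext i; fin_cases i <;> rfl
  have := key (g 0) (g 1) (g 2) x
  unfold code3
  rw [this, ← e]

theorem code4_mem (g : Fin 4 → Fin 4) (hg : Function.Injective g) : code4 g ∈ perms4 :=
  red4 (fun g => code4 g ∈ perms4) (by decide +kernel) g hg

theorem code3_mem (g : Fin 3 → Fin 3) (hg : Function.Injective g) : code3 g ∈ perms3 := by
  have key : ∀ a b c : Fin 3, (a ≠ b ∧ a ≠ c ∧ b ≠ c) → code3 ![a, b, c] ∈ perms3 := by decide +kernel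
  have e : g = ![g 0, g 1, g 2] := by
    funext i; fin_cases i <;> rfl
  rw [e]
  apply key
  refine ⟨?_, ?_, ?_⟩ <;> intro hh <;> exact absurd (hg hh) (by decide)

theorem clN_code (g : Fin 4 → Fin 4) (hg : Function.Injective g) (c : Fin 3) :
    clN (code4 g) c.val = (cl g c).val := by
  revert c
  exact red4 (fun g => ∀ c : Fin 3, clN (code4 g) c.val = (cl g c).val) (by decide +kernel) g hg

theorem fixN_code (g : Fin 4 → Fin 4) : fixN (code4 g) = (Finset.univ.filter fun p => g p = p).card := by
  have key : ∀ a b c d : Fin 4, fixN (code4 ![a, b, c, d]) =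
      (Finset.univ.filter fun p => (![a, b, c, d] : Fin 4 → Fin 4) p = p).card := by decide +kernel
  have e : g = ![g 0, g 1, g 2, g 3] := by
    funext i; fin_cases i <;> rfl
  rw [e]
  exact key _ _ _ _

theorem trN_val (c : Fin 3) (p : Fin 4) : trN c.val p.val = (tr c p).val := by
  revert c p; decide

end Pool.Agent.H23.CG
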