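import Pool.Agent.H23.CG.Bas

/-!
REG. A 99-graph is regular of degree 14.

Proof. Write `N x = G.neighborSet x`, `d x = (N x).ncard`.
(1) `x ≠ y` not adjacent ⟹ `d x = d y`. Let `C = N x ∩ N y = {c, c'}`; `c, c'` are not adjacent (`Is99.no2`: they have the two
common neighbours `x, y`). `A = N x \ N y`, `B = N y \ N x`. For `z ∈ A`: `z ≠ y` and `z` is not adjacent to `y`, so `z` has exactly two
neighbours in `N y`. The third point `c*` of the triangle on the edge `x c` lies in `N x`, not in `C`
(it is adjacent to `c`; if `c* ∈ N y` then `c, c*` are adjacent with common neighbours `x, y`), so `c* ∈ A`; same for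
`c'`, and `c* ≠ c'*`(else the edge `x c*` has the two common neighbours `c, c'`).
A vertex `z ∈ A` adjacent to `c` is `c*` (common neighbour of `x` and `c`).  So the number of edges between `A` and `C`
is 2 and the number of edges between `A` and `B` is `2|A| - 2`; by symmetry it is `2|B| - 2`. So `|A| = |B|`.
An alternative to counting edges: for non-adjacent `x, y` map `z ∈ N x` (not in `C`, not `c*`, `c'*`) to ... ; any proof is fine.
(2) All degrees are equal. Otherwise let `d x ≠ d y`; `V1 = {w | d w = d x}`, `V2` = its complement: every vertex of `V1`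
is adjacent to every vertex of `V2` by (1). `|V1| + |V2| = 99`, so one of them, say `V1`, has at least 3 elements
(even 50). If the other one contains two elements `y, y'`: then `y, y'` have three common neighbours in `V1`, impossible
(`no3`). If the other one is `{y}`: `y` is adjacent to all other vertices; every `w ≠ y` has with `y` exactly one common neighbour `w*`, so
`N w = {y, w*}` and `d w = 2`; take `w, w' ≠ y`, not adjacent, different (`w' ∉ {w, w*, y}`): their common neighbours are
in `{y, w*} ∩ {y, w'*}`, and `w* = w'*` would give `w' ∈ N w* = {y, w}`. So there is only one, contradiction.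
(3) `d := d x`. Count the pairs `(z, w)` with `z ∈ N x`, `w ∉ N x ∪ {x}`, `z` adjacent to `w`: every `z ∈ N x` has the
neighbour `x`, exactly one neighbour in `N x`, so `d - 2` others; every `w` of the `98 - d` has exactly two neighbours in `N x`.
So `d (d - 2) = 2 (98 - d)`, `d^2 = 196`, `d = 14`. (`d ≥ 2` because `x` has a neighbour: otherwise `x` and another
vertex would have two common neighbours.)
-/
set_option autoImplicit false
namespace Pool.Agent.H23.CG
open SimpleGraph

open Classical in
private noncomputable def nb (G : SimpleGraph (Fin 99)) (x : Fin 99) : Finset (Fin 99) :=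
  Finset.univ.filter fun w => G.Adj x w

private theorem mem_nb {G : SimpleGraph (Fin 99)} {x w : Fin 99} : w ∈ nb G x ↔ G.Adj x w := by
  simp [nb]

private theorem coe_nb (G : SimpleGraph (Fin 99)) (x : Fin 99) :
    (nb G x : Set (Fin 99)) = G.neighborSet x := by
  ext w
  rw [Finset.mem_coe, mem_nb, SimpleGraph.mem_neighborSet]

private theorem card_nb (G : SimpleGraph (Fin 99)) (x : Fin 99) :
    (G.neighborSet x).ncard = (nb G x).card := by
  rw [← coe_nb, Set.ncard_coe_finset]

private theorem card_nb2 (G : SimpleGraph (Fin 99)) (x y : Fin 99) :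
    (G.neighborSet x ∩ G.neighborSet y).ncard = (nb G x ∩ nb G y).card := by
  rw [← coe_nb, ← coe_nb, ← Finset.coe_inter, Set.ncard_coe_finset]

open Classical in
private theorem card_nb_inter (G : SimpleGraph (Fin 99)) (x : Fin 99) (T : Finset (Fin 99)) :
    (nb G x ∩ T).card = ∑ w ∈ T, if G.Adj x w then 1 else 0 := by
  rw [← Finset.card_filter]
  congr 1
  ext w
  rw [Finset.mem_inter, mem_nb, Finset.mem_filter, and_comm]

private theorem double (G : SimpleGraph (Fin 99)) (S T : Finset (Fin 99)) :
    ∑ z ∈ S, (nb G z ∩ T).card = ∑ w ∈ T, (nb G w ∩ S).card := by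
  simp only [card_nb_inter]
  rw [Finset.sum_comm]
  refine Finset.sum_congr rfl fun w _ => Finset.sum_congr rfl fun z _ => ?_
  by_cases hh : G.Adj w z
  · rw [if_pos hh, if_pos hh.symm]
  · rw [if_neg hh, if_neg fun e => hh e.symm]

private theorem edge_sum {G : SimpleGraph (Fin 99)} (h : Is99 G) {x y : Fin 99} (hne : x ≠ y)
    (hna : ¬ G.Adj x y) : ∑ z ∈ nb G x, (nb G z ∩ nb G y).card + 2 = 2 * (nb G x).card := by
  classical
  have h1 : (nb G y ∩ nb G x).card = 2 := by
    rw [← card_nb2]
    exact h.mu y x hne.symm fun e => hna e.symm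
  rw [card_nb_inter] at h1
  have h2 : ∀ z ∈ nb G x, (nb G z ∩ nb G y).card + (if G.Adj y z then 1 else 0) = 2 := by
    intro z hz
    rw [mem_nb] at hz
    rw [← card_nb2]
    by_cases hyz : G.Adj y z
    · rw [if_pos hyz, h.lam z y hyz.symm]
    · rw [if_neg hyz, h.mu z y (fun e => hna (e ▸ hz)) fun e => hyz e.symm]
  have h3 := Finset.sum_congr rfl h2
  rw [Finset.sum_add_distrib, h1, Finset.sum_const, smul_eq_mul] at h3
  rw [h3, mul_comm]

theorem Is99.deg_eq {G : SimpleGraph (Fin 99)} (h : Is99 G) {x y : Fin 99} (hne : x ≠ y) (hna : ¬ G.Adj x y) :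
    (G.neighborSet x).ncard = (G.neighborSet y).ncard := by
  rw [card_nb, card_nb]
  have h1 := edge_sum h hne hna
  have h2 := edge_sum h hne.symm fun e => hna e.symm
  have h3 := double G (nb G x) (nb G y)
  omega

private theorem no_dom {G : SimpleGraph (Fin 99)} (h : Is99 G) (y : Fin 99)
    (hy : ∀ w, w ≠ y → G.Adj y w) : False := by
  have hex : ∀ S : Finset (Fin 99), S.card ≤ 3 → ∃ w, w ∉ S := by
    intro S hS
    by_contra hc
    push Not at hc
    have h1 : S = Finset.univ := Finset.eq_univ_iff_forall.2 hc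
    rw [h1] at hS
    simp at hS
  obtain ⟨w, hw⟩ := hex {y} (by simp)
  rw [Finset.mem_singleton] at hw
  obtain ⟨u, hu1, hu2, hu3⟩ := h.third (hy w hw)
  have hN : ∀ z, G.Adj w z → z = y ∨ z = u := by
    intro z hz
    by_cases hzy : z = y
    · exact Or.inl hzy
    · exact Or.inr (hu3 z (hy z hzy) hz)
  obtain ⟨w', hw'⟩ := hex {y, w, u} (Finset.card_le_three)
  simp only [Finset.mem_insert, Finset.mem_singleton, not_or] at hw'
  obtain ⟨hw1, hw2, hw3⟩ := hw'
  have hna : ¬ G.Adj w w' := by
    intro hc
    rcases hN w' hc with e | e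
    · exact hw1 e
    · exact hw3 e
  obtain ⟨c, c', hcc, h1, h2, h3, h4, -⟩ := h.two (Ne.symm hw2) hna
  have huw' : G.Adj w' u := by
    rcases hN c h1 with e | e
    · rcases hN c' h3 with e' | e'
      · exact absurd (e.trans e'.symm) hcc
      · rw [← e']; exact h4
    · rw [← e]; exact h2
  exact h.no2 (Ne.symm hw2) (hy w hw) hu2.symm (hy w' hw1) huw'.symm hu1

private theorem all_eq {G : SimpleGraph (Fin 99)} (h : Is99 G) (x y : Fin 99) :
    (G.neighborSet x).ncard = (G.neighborSet y).ncard := by
  classical
  by_contra hne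
  set V : Finset (Fin 99) := Finset.univ.filter
    fun w => (G.neighborSet w).ncard = (G.neighborSet x).ncard with hV
  have hmem : ∀ w, w ∈ V ↔ (G.neighborSet w).ncard = (G.neighborSet x).ncard := by
    intro w
    simp [hV]
  have hadj : ∀ w ∈ V, ∀ w' ∈ Vᶜ, G.Adj w w' := by
    intro w hw w' hw'
    rw [Finset.mem_compl] at hw'
    by_contra hc
    have hww : w ≠ w' := fun e => hw' (e ▸ hw)
    exact hw' ((hmem w').2 ((h.deg_eq hww hc).symm.trans ((hmem w).1 hw)))
  have hcard : V.card + Vᶜ.card = 99 := by
    rw [Finset.card_add_card_compl, Fintype.card_fin]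
  have hx : x ∈ V := (hmem x).2 rfl
  have hy : y ∈ Vᶜ := by
    rw [Finset.mem_compl, hmem]
    exact fun e => hne e.symm
  by_cases h3 : 2 < V.card
  · obtain ⟨a, b, c, ha, hb, hc, hab, hac, hbc⟩ := Finset.two_lt_card_iff.1 h3
    by_cases h2 : 1 < Vᶜ.card
    · obtain ⟨p, hp, q, hq, hpq⟩ := Finset.one_lt_card.1 h2
      exact h.no3 hpq hab hac hbc (hadj a ha p hp).symm (hadj a ha q hq).symm
        (hadj b hb p hp).symm (hadj b hb q hq).symm (hadj c hc p hp).symm (hadj c hc q hq).symm
    · have h4 : ∀ w, w ≠ y → G.Adj y w := by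
        intro w hw
        have hwV : w ∈ V := by
          by_contra hc
          exact h2 (Finset.one_lt_card.2 ⟨w, Finset.mem_compl.2 hc, y, hy, hw⟩)
        exact (hadj w hwV y hy).symm
      exact no_dom h y h4
  · have h3' : 2 < Vᶜ.card := by omega
    obtain ⟨a, b, c, ha, hb, hc, hab, hac, hbc⟩ := Finset.two_lt_card_iff.1 h3'
    by_cases h2 : 1 < V.card
    · obtain ⟨p, hp, q, hq, hpq⟩ := Finset.one_lt_card.1 h2
      exact h.no3 hpq hab hac hbc (hadj p hp a ha) (hadj q hq a ha)
        (hadj p hp b hb) (hadj q hq b hb) (hadj p hp c hc) (hadj q hq c hc)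
    · have h4 : ∀ w, w ≠ x → G.Adj x w := by
        intro w hw
        have hwV : w ∈ Vᶜ := by
          rw [Finset.mem_compl]
          intro hc
          exact h2 (Finset.one_lt_card.2 ⟨w, hc, x, hx, hw⟩)
        exact hadj x hx w hwV
      exact no_dom h x h4

private theorem sum_deg {G : SimpleGraph (Fin 99)} (h : Is99 G) (x : Fin 99) :
    ∑ z ∈ nb G x, (nb G z).card = 196 := by
  classical
  have h1 := double G (nb G x) Finset.univ
  simp only [Finset.inter_univ] at h1
  rw [h1]
  have h2 : ∀ w ∈ (Finset.univ : Finset (Fin 99)), (nb G w ∩ nb G x).card +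
      (if G.Adj x w then 1 else 0) + (if w = x then 2 else 0) =
        2 + (if w = x then (nb G x).card else 0) := by
    intro w _
    by_cases hwx : w = x
    · subst hwx
      rw [if_pos rfl, if_pos rfl, Finset.inter_self, if_neg (G.loopless.irrefl w)]
      omega
    · rw [if_neg hwx, if_neg hwx, ← card_nb2]
      by_cases hxw : G.Adj x w
      · rw [if_pos hxw, h.lam w x hxw.symm]
      · rw [if_neg hxw, h.mu w x hwx fun e => hxw e.symm]
  have h3 := Finset.sum_congr rfl h2
  have h4 : ∑ w : Fin 99, (if G.Adj x w then 1 else 0) = (nb G x).card := by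
    have := card_nb_inter G x Finset.univ
    rw [Finset.inter_univ] at this
    exact this.symm
  rw [Finset.sum_add_distrib, Finset.sum_add_distrib, Finset.sum_add_distrib, h4,
    Finset.sum_ite_eq', Finset.sum_ite_eq', if_pos (Finset.mem_univ _), if_pos (Finset.mem_univ _),
    Finset.sum_const, Finset.card_univ, Fintype.card_fin, smul_eq_mul] at h3
  omega

theorem Is99.deg {G : SimpleGraph (Fin 99)} (h : Is99 G) (x : Fin 99) : (G.neighborSet x).ncard = 14 := by
  rw [card_nb]
  have h1 := sum_deg h x
  have h2 : ∀ z ∈ nb G x, (nb G z).card = (nb G x).card := by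
    intro z _
    rw [← card_nb, ← card_nb]
    exact all_eq h z x
  rw [Finset.sum_congr rfl h2, Finset.sum_const, smul_eq_mul] at h1
  have h3 : (nb G x).card ≤ 14 := by
    by_contra hc
    push Not at hc
    nlinarith
  interval_cases hh : (nb G x).card <;> omega

end Pool.Agent.H23.CG
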