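import Mathlib

/-!
RELA. Normal position of at most two edges on seven points.

`N` symmetric. The pairs `i < j` with `N i j` are at most two. If there is none: any `π`. One pair `{i,j}`: `π 5 = i`, `π 6 = j`. Two pairs `{i,j}`, `{k,l}` disjoint: `π 3 = i, π 4 = j, π 5 = k, π 6 = l`; meeting in `j = l`: `π 4 = i, π 5 = k, π 6 = j`.
(A permutation of `Fin 7` with prescribed values at some different places exists: e.g. extend an injective partial function, or use products of `Equiv.swap`. Alternatively a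
kernel check over all sets of at most two pairs.)
-/
set_option autoImplicit false
namespace Pool.Agent.H23.CG

private theorem rela_perm {i j k l : Fin 7} (h1 : i ≠ j) (h2 : i ≠ k) (h3 : i ≠ l) (h4 : j ≠ k)
    (h5 : j ≠ l) (h6 : k ≠ l) : ∃ π : Equiv.Perm (Fin 7), π 3 = i ∧ π 4 = j ∧ π 5 = k ∧ π 6 = l := by
  classical
  let f : Fin 7 → Fin 7 := fun x => if x = 3 then i else if x = 4 then j else if x = 5 then k else l
  have f3 : f 3 = i := by simp [f]
  have f4 : f 4 = j := by simp [f]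
  have f5 : f 5 = k := by simp [f]
  have f6 : f 6 = l := by simp [f]
  obtain ⟨g, hg⟩ := Finset.exists_equiv_extend_of_card_eq (α := Fin 7) (β := Fin 7)
    (t := Finset.univ) (by simp) (s := {3, 4, 5, 6}) (f := f) (Finset.subset_univ _) (by
      intro x hx y hy hxy
      simp only [Finset.coe_insert, Finset.coe_singleton, Set.mem_insert_iff,
        Set.mem_singleton_iff] at hx hy
      rcases hx with rfl | rfl | rfl | rfl <;> rcases hy with rfl | rfl | rfl | rfl <;>
        simp only [f3, f4, f5, f6] at hxy <;> first | rfl | (exfalso; first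
          | exact h1 hxy | exact h2 hxy | exact h3 hxy | exact h4 hxy | exact h5 hxy
          | exact h6 hxy | exact h1 hxy.symm | exact h2 hxy.symm | exact h3 hxy.symm
          | exact h4 hxy.symm | exact h5 hxy.symm | exact h6 hxy.symm))
  refine ⟨g.trans (Equiv.subtypeUnivEquiv fun x => Finset.mem_univ x), ?_, ?_, ?_, ?_⟩
  · have := hg 3 (by simp)
    rw [f3] at this
    exact this
  · have := hg 4 (by simp)
    rw [f4] at this
    exact this
  · have := hg 5 (by simp)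
    rw [f5] at this
    exact this
  · have := hg 6 (by simp)
    rw [f6] at this
    exact this

private theorem rela_fourth : ∀ x y z : Fin 7, ∃ d : Fin 7, d ≠ x ∧ d ≠ y ∧ d ≠ z := by decide

private theorem rela_edges (N : Fin 7 → Fin 7 → Prop) (hs : ∀ i j, N i j → N j i)
    (hc : {p : Fin 7 × Fin 7 | p.1 < p.2 ∧ N p.1 p.2}.ncard ≤ 2) :
    ∃ a b : Fin 7 × Fin 7, a.1 < a.2 ∧ b.1 < b.2 ∧ a ≠ b ∧ ∀ i j, i ≠ j → N i j →
      (i = a.1 ∧ j = a.2) ∨ (j = a.1 ∧ i = a.2) ∨ (i = b.1 ∧ j = b.2) ∨ (j = b.1 ∧ i = b.2) := by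
  have hP : 2 ≤ {p : Fin 7 × Fin 7 | p.1 < p.2}.ncard := by
    have h1 : ({((0 : Fin 7), (1 : Fin 7)), (0, 2)} : Set (Fin 7 × Fin 7)).ncard = 2 :=
      Set.ncard_pair (by decide)
    rw [← h1]
    apply Set.ncard_le_ncard _ (Set.toFinite _)
    rintro x (rfl | rfl) <;> decide
  obtain ⟨u, h1, h2, h3⟩ := Set.exists_subsuperset_card_eq
    (s := {p : Fin 7 × Fin 7 | p.1 < p.2 ∧ N p.1 p.2}) (t := {p : Fin 7 × Fin 7 | p.1 < p.2})
    (fun p hp => hp.1) hc hP
  obtain ⟨a, b, hab, rfl⟩ := Set.ncard_eq_two.1 h3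
  refine ⟨a, b, h2 (Set.mem_insert _ _), h2 (Set.mem_insert_of_mem _ rfl), hab, ?_⟩
  intro i j hij hN
  rcases lt_or_gt_of_ne hij with h4 | h4
  · have h5 : (i, j) ∈ ({a, b} : Set (Fin 7 × Fin 7)) := h1 ⟨h4, hN⟩
    rcases h5 with h5 | h5
    · left
      rw [← h5]
      exact ⟨rfl, rfl⟩
    · right; right; left
      rw [Set.mem_singleton_iff] at h5
      rw [← h5]
      exact ⟨rfl, rfl⟩
  · have h5 : (j, i) ∈ ({a, b} : Set (Fin 7 × Fin 7)) := h1 ⟨h4, hs _ _ hN⟩
    rcases h5 with h5 | h5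
    · right; left
      rw [← h5]
      exact ⟨rfl, rfl⟩
    · right; right; right
      rw [Set.mem_singleton_iff] at h5
      rw [← h5]
      exact ⟨rfl, rfl⟩

/-- two edges `{x, c}` and `{y, c}` -/
private theorem rela_B (N : Fin 7 → Fin 7 → Prop) {x y c : Fin 7} (h1 : x ≠ y) (h2 : x ≠ c)
    (h3 : y ≠ c) (h : ∀ i j, i ≠ j → N i j → (i = x ∧ j = c) ∨ (i = c ∧ j = x) ∨
      (i = y ∧ j = c) ∨ (i = c ∧ j = y)) : ∃ π : Equiv.Perm (Fin 7),
      (∀ i j : Fin 7, i ≠ j → ¬ (i = 4 ∧ j = 6) → ¬ (i = 6 ∧ j = 4) → ¬ (i = 5 ∧ j = 6) → ¬ (i = 6 ∧ j = 5) →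
        ¬ N (π i) (π j)) := by
  obtain ⟨d, d1, d2, d3⟩ := rela_fourth x y c
  obtain ⟨π, p3, p4, p5, p6⟩ := rela_perm d1 d2 d3 h1 h2 h3
  refine ⟨π, fun i j hij e1 e2 e3 e4 hN => ?_⟩
  rcases h (π i) (π j) (fun e => hij (π.injective e)) hN with ⟨q1, q2⟩ | ⟨q1, q2⟩ | ⟨q1, q2⟩ | ⟨q1, q2⟩
  · rw [← p4] at q1
    rw [← p6] at q2
    exact e1 ⟨π.injective q1, π.injective q2⟩
  · rw [← p6] at q1
    rw [← p4] at q2
    exact e2 ⟨π.injective q1, π.injective q2⟩
  · rw [← p5] at q1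
    rw [← p6] at q2
    exact e3 ⟨π.injective q1, π.injective q2⟩
  · rw [← p6] at q1
    rw [← p5] at q2
    exact e4 ⟨π.injective q1, π.injective q2⟩

theorem normal_position (N : Fin 7 → Fin 7 → Prop) (hs : ∀ i j, N i j → N j i)
    (hc : {p : Fin 7 × Fin 7 | p.1 < p.2 ∧ N p.1 p.2}.ncard ≤ 2) :
    ∃ π : Equiv.Perm (Fin 7),
      (∀ i j : Fin 7, i ≠ j → ¬ (i = 3 ∧ j = 4) → ¬ (i = 4 ∧ j = 3) → ¬ (i = 5 ∧ j = 6) → ¬ (i = 6 ∧ j = 5) →
        ¬ N (π i) (π j)) ∨
      (∀ i j : Fin 7, i ≠ j → ¬ (i = 4 ∧ j = 6) → ¬ (i = 6 ∧ j = 4) → ¬ (i = 5 ∧ j = 6) → ¬ (i = 6 ∧ j = 5) →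
        ¬ N (π i) (π j)) := by
  obtain ⟨⟨i, j⟩, ⟨k, l⟩, hij, hkl, hne, h⟩ := rela_edges N hs hc
  simp only at hij hkl h
  have hij' : i ≠ j := hij.ne
  have hkl' : k ≠ l := hkl.ne
  by_cases hik : i = k
  · subst hik
    have hjl : j ≠ l := fun e => hne (by rw [e])
    obtain ⟨π, hπ⟩ := rela_B N (x := j) (y := l) (c := i) hjl hij'.symm hkl'.symm (by
      intro x y hxy hN
      rcases h x y hxy hN with q | q | q | q
      · exact Or.inr (Or.inl q)
      · exact Or.inl ⟨q.2, q.1⟩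
      · exact Or.inr (Or.inr (Or.inr q))
      · exact Or.inr (Or.inr (Or.inl ⟨q.2, q.1⟩)))
    exact ⟨π, Or.inr hπ⟩
  · by_cases hjl : j = l
    · subst hjl
      obtain ⟨π, hπ⟩ := rela_B N (x := i) (y := k) (c := j) hik hij' hkl' (by
        intro x y hxy hN
        rcases h x y hxy hN with q | q | q | q
        · exact Or.inl q
        · exact Or.inr (Or.inl ⟨q.2, q.1⟩)
        · exact Or.inr (Or.inr (Or.inl q))
        · exact Or.inr (Or.inr (Or.inr ⟨q.2, q.1⟩)))
      exact ⟨π, Or.inr hπ⟩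
    · by_cases hil : i = l
      · subst hil
        have hjk : j ≠ k := fun e => by
          rw [e] at hij
          exact absurd hij (not_lt.2 hkl.le)
        obtain ⟨π, hπ⟩ := rela_B N (x := j) (y := k) (c := i) hjk hij'.symm hkl' (by
          intro x y hxy hN
          rcases h x y hxy hN with q | q | q | q
          · exact Or.inr (Or.inl q)
          · exact Or.inl ⟨q.2, q.1⟩
          · exact Or.inr (Or.inr (Or.inl q))
          · exact Or.inr (Or.inr (Or.inr ⟨q.2, q.1⟩)))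
        exact ⟨π, Or.inr hπ⟩
      · by_cases hjk : j = k
        · subst hjk
          obtain ⟨π, hπ⟩ := rela_B N (x := i) (y := l) (c := j) hil hij' hkl'.symm (by
            intro x y hxy hN
            rcases h x y hxy hN with q | q | q | q
            · exact Or.inl q
            · exact Or.inr (Or.inl ⟨q.2, q.1⟩)
            · exact Or.inr (Or.inr (Or.inr q))
            · exact Or.inr (Or.inr (Or.inl ⟨q.2, q.1⟩)))
          exact ⟨π, Or.inr hπ⟩
        · obtain ⟨π, p3, p4, p5, p6⟩ := rela_perm hij' hik hil hjk hjl hkl'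
          refine ⟨π, Or.inl fun x y hxy e1 e2 e3 e4 hN => ?_⟩
          rcases h (π x) (π y) (fun e => hxy (π.injective e)) hN with
            ⟨q1, q2⟩ | ⟨q1, q2⟩ | ⟨q1, q2⟩ | ⟨q1, q2⟩
          · rw [← p3] at q1
            rw [← p4] at q2
            exact e1 ⟨π.injective q1, π.injective q2⟩
          · rw [← p3] at q1
            rw [← p4] at q2
            exact e2 ⟨π.injective q2, π.injective q1⟩
          · rw [← p5] at q1
            rw [← p6] at q2
            exact e3 ⟨π.injective q1, π.injective q2⟩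
          · rw [← p5] at q1
            rw [← p6] at q2
            exact e4 ⟨π.injective q2, π.injective q1⟩

end Pool.Agent.H23.CG
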