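import Pool.Agent.H23.CG.MapE
import Pool.Agent.H23.CG.MR2
import Pool.Agent.H23.CG.MR3
import Pool.Agent.H23.CG.MU
import Pool.Agent.H23.CG.MAP1
import Pool.Agent.H23.CG.APC
import Pool.Agent.H23.CG.LocT

/-!
SPL. The theorem for a split of the seven lines in `{0,1,2}` and `{3,4,5,6}`.

Take `M : Maps F` (`exists_maps`); `Loc M.u M.w M.b` from `maps_R2`, `maps_R3`, `maps_U`, `maps_U'`, `ap_count` (with `maps_AP1`). Apply `local_thm`. Translation:
`F.T (CB s) (EB r) ↔ ∀ p, u s r (tr 2 p) = tr 2 (u s r p)`: by `hu` (`pt (CB s) p` is adjacent to `pt (EB r) q` iff `q = u s r p`).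
`F.T (DB s) (EB r) ↔ ∀ p, w s r (tr (b s) p) = tr 2 (w s r p)`: every point of `DB s` is `f s p` (`fi`), `f s (tr (b s) p) = tr 2 (f s p)` (`hb`), `hw`.
`F.T (CB s) (DB s) ↔ ∀ p, f s (tr 2 p) = tr 2 (f s p) ↔ b s = 2` (`hf`, `hb`, `fi`, `tr_inj`).
-/
set_option autoImplicit false
namespace Pool.Agent.H23.CG
open SimpleGraph

theorem split_thm {G : SimpleGraph (Fin 99)} {v : Fin 99} (h : Is99 G) (F : Frame G v) (hs : Split F) :
    ∃ α δ : Fin 3 → Fin 3, (∀ s r, F.T (CB s) (EB r) ↔ r = α s) ∧ (∀ s r, F.T (DB s) (EB r) ↔ r = δ s) ∧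
      (∀ s, F.T (CB s) (DB s) ↔ α s = δ s) ∧ Good α δ := by
  obtain ⟨M⟩ := exists_maps h F hs
  have L : Loc M.u M.w M.b :=
    { ui := M.ui
      wi := M.wi
      R2 := fun s p p' => maps_R2 h F hs M s p p'
      R3 := fun r r' hr z z' => maps_R3 h F hs M r r' hr z z'
      U := fun s r p p' h1 h2 => maps_U h F hs M s r p p' h1 h2
      U' := fun s r p p' h1 h2 => maps_U' h F hs M s r p p' h1 h2
      AP := fun r z => ap_count M.u M.w M.b M.ui (fun s p p' => maps_R2 h F hs M s p p')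
        (fun r z => maps_AP1 h F hs M r z) r z }
  obtain ⟨α, δ, h1, h2, h3, h4⟩ := local_thm M.u M.w M.b L
  have A : ∀ s r, F.T (CB s) (EB r) ↔ ∀ p, M.u s r (tr 2 p) = tr 2 (M.u s r p) := by
    intro s r
    constructor
    · intro hT p
      have h5 := hT p (M.u s r p) ((M.hu s r p _).2 rfl)
      exact ((M.hu s r _ _).1 h5).symm
    · intro hp p q hq
      have h5 := (M.hu s r p q).1 hq
      rw [M.hu, h5, hp]
  have B : ∀ s r, F.T (DB s) (EB r) ↔ ∀ p, M.w s r (tr (M.b s) p) = tr 2 (M.w s r p) := by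
    intro s r
    constructor
    · intro hT p
      have h5 := hT (M.f s p) (M.w s r p) ((M.hw s r p _).2 rfl)
      rw [← M.hb] at h5
      exact ((M.hw s r _ _).1 h5).symm
    · intro hp p q hq
      obtain ⟨p0, rfl⟩ := (Finite.injective_iff_surjective.1 (M.fi s)) p
      have h5 := (M.hw s r p0 q).1 hq
      rw [← M.hb, M.hw, h5, hp]
  have C : ∀ s, F.T (CB s) (DB s) ↔ M.b s = 2 := by
    intro s
    constructor
    · intro hT
      have h5 := hT 0 (M.f s 0) ((M.hf s 0 _).2 rfl)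
      have h6 := (M.hf s _ _).1 h5
      rw [← M.hb] at h6
      exact tr_inj _ _ _ (M.fi s h6)
    · intro e p q hq
      have h5 := (M.hf s p q).1 hq
      have h6 := M.hb s p
      rw [e] at h6
      rw [M.hf, h5, h6]
  refine ⟨α, δ, ?_, ?_, ?_, h4⟩
  · intro s r
    rw [A]
    exact h1 s r
  · intro s r
    rw [B]
    exact h2 s r
  · intro s
    rw [C]
    exact h3 s

end Pool.Agent.H23.CG
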