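import Mathlib

/-!
Finite part of the local theorem: summaries (records) of one partition `s` of the four lines of `Q`.
A record is `(n1, n2, bits)`: `n1`, `n2` are 27 bit masks (bit `9*pi+3*x+y`, `pi` = index of the pair
`(r,r')` in `[(0,1),(0,2),(1,2)]`, `x` class at `E r`, `y` class at `E r'`): `n1` marks the odd entries, `n2` the
entries `±2` of the contribution of `s`.  `bits` = list of all `t + 2*eC + 16*eD` which occur with these masks,
`t = 1` iff `C ~ D`, `eC`, `eD` = 3 bit masks of the `r` with `C ~ E r`, `D ~ E r`.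
The records are grouped by the fixed point numbers `(m0,m1,m2)`:
group 0 (4,0,0), 1 (0,4,0), 2 (0,0,4), 3 (0,2,2), 4 (2,0,2), 5 (2,2,0).
-/
set_option autoImplicit false
namespace Pool.Agent.H23.CG

abbrev RecT := Nat × Nat × List Nat

def g0 : List RecT := [(0, 264224, [40, 68]), (0, 264448, [56, 70]), (0, 278532, [40, 68]), (0, 278784, [56, 70]), (0, 393220, [42, 84]), (0, 393248, [42, 84]), (0, 526368, [40, 68]), (0, 526592, [56, 70]), (0, 540676, [40, 68]), (0, 540928, [56, 70]), (0, 655364, [42, 84]), (0, 655392, [42, 84]), (0, 2099232, [40, 68]), (0, 2099456, [56, 70]), (0, 2113540, [40, 68]), (0, 2113792, [56, 70]), (0, 2228228, [42, 84]), (0, 2228256, [42, 84]), (0, 4196384, [40, 68]), (0, 4196608, [56, 70]), (0, 4210692, [40, 68]), (0, 4210944, [56, 70]), (0, 4325380, [42, 84]), (0, 4325408, [42, 84]), (0, 22020612, [37]), (0, 22021122, [1]), (0, 22022145, [73]), (0, 22024224, [37]), (0, 22028304, [1]), (0, 22036488, [73]),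 (0, 22053120, [55]), (0, 22085760, [19]), (0, 22151232, [91]), (0, 25690628, [37]), (0, 25691137, [1]), (0, 25692162, [73]), (0, 25694240, [37]), (0, 25698312, [1]), (0, 25706512, [73]), (0, 25723136, [55]), (0, 25755712, [19]), (0, 25821312, [91]), (0, 36700674, [1]), (0, 36701188, [37]), (0, 36702209, [73]), (0, 36704272, [1]), (0, 36708384, [37]), (0, 36716552, [73]), (0, 36733056, [19]), (0, 36765952, [55]), (0, 36831296, [91]), (0, 42205697, [1]), (0, 42206212, [37]), (0, 42207234, [73]), (0, 42209288, [1]), (0, 42213408, [37]), (0, 42221584, [73]), (0, 42238016, [19]), (0, 42270976, [55]), (0, 42336384, [91]), (0, 69730818, [1]), (0, 69731329, [1]), (0, 69732356, [109]), (0, 69734416, [1]), (0, 69738504, [1]), (0, 69746720, [109]), (0, 69763200, [19]), (0, 69795904, [19]), (0, 69861632, [127]), (0, 71565825, [1]), (0, 71566338, [1]), (0, 71567364, [109]), (0, 71569416, [1]), (0, 71573520, [1]), (0, 71581728, [109]), (0, 71598144,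 [19]), (0, 71630976, [19]), (0, 71696640, [127]), (23085, 4194304, [0]), (23094, 524288, [0]), (27693, 2097152, [0]), (27702, 262144, [0]), (166725, 4194304, [2, 16]), (166790, 524288, [2, 16]), (184680, 4194304, [2, 16]), (184752, 524288, [2, 16]), (200005, 2097152, [2, 16]), (200070, 262144, [2, 16]), (221544, 2097152, [2, 16]), (221616, 262144, [2, 16])]
def g1 : List RecT := [(0, 305216, [19]), (0, 312384, [19]), (0, 333832, [1]), (0, 344577, [1]), (0, 398344, [1]), (0, 401921, [1]), (0, 567304, [1]), (0, 574465, [1]), (0, 596032, [19]), (0, 606784, [19]), (0, 660481, [1]), (0, 664072, [1]), (0, 1049216, [24, 66]), (0, 1049344, [56, 70]), (0, 1049728, [24, 66]), (0, 1049856, [56, 70]), (0, 1052800, [24, 66]), (0, 1052928, [56, 70]), (0, 1056896, [24, 66]), (0, 1057024, [56, 70]), (0, 1091585, [73]), (0, 1098760, [73]), (0, 1120257, [73]), (0, 1131016, [73]), (0, 1184832, [91]), (0, 1188416, [91]), (0, 2140288, [19]), (0, 2147456,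 [19]), (0, 2168848, [1]), (0, 2179586, [1]), (0, 2233360, [1]), (0, 2236930, [1]), (0, 4237328, [1]), (0, 4244482, [1]), (0, 4266112, [19]), (0, 4276864, [19]), (0, 4330498, [1]), (0, 4334096, [1]), (0, 8389184, [24, 66]), (0, 8389376, [56, 70]), (0, 8389696, [24, 66]), (0, 8389888, [56, 70]), (0, 8392768, [24, 66]), (0, 8392960, [56, 70]), (0, 8396864, [24, 66]), (0, 8397056, [56, 70]), (0, 8431618, [73]), (0, 8438800, [73]), (0, 8460290, [73]), (0, 8471056, [73]), (0, 8524928, [91]), (0, 8528512, [91]), (0, 16820480, [55]), (0, 16827648, [55]), (0, 16848928, [37]), (0, 16859652, [37]), (0, 16913440, [37]), (0, 16916996, [37]), (0, 33597472, [37]), (0, 33604612, [37]), (0, 33626368, [55]), (0, 33637120, [55]), (0, 33690628, [37]), (0, 33694240, [37]), (0, 67109440, [28, 98]), (0, 67109504, [28, 98]), (0, 67109952, [28, 98]), (0, 67110016, [28, 98]), (0, 67113024, [28, 98]), (0, 67113088, [28, 98]), (0, 67117120, [28, 98]), (0,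 67117184, [28, 98]), (0, 67151876, [109]), (0, 67159072, [109]), (0, 67180548, [109]), (0, 67191328, [109]), (0, 67245312, [127]), (0, 67248896, [127]), (11796675, 8192, [0]), (11796696, 1024, [0]), (14155971, 4096, [0]), (14155992, 512, [0]), (85197125, 8192, [4, 32]), (85197160, 1024, [4, 32]), (94372230, 8192, [4, 32]), (94372272, 1024, [4, 32]), (102236485, 4096, [4, 32]), (102236520, 512, [4, 32]), (113246598, 4096, [4, 32]), (113246640, 512, [4, 32])]
def g2 : List RecT := [(0, 262817, [1]), (0, 262929, [1]), (0, 266380, [1]), (0, 266506, [1]), (0, 294996, [19]), (0, 295010, [19]), (0, 525473, [1]), (0, 525585, [1]), (0, 532620, [1]), (0, 532746, [1]), (0, 589908, [19]), (0, 589922, [19]), (0, 1050785, [73]), (0, 1050897, [73]), (0, 1065100, [73]), (0, 1065226, [73]), (0, 1179732, [91]), (0, 1179746, [91]), (0, 2097762, [1]), (0, 2097930, [1]), (0, 2101332, [1]), (0, 2101521, [1]), (0, 2130060, [19]), (0, 2130081, [19]),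 (0, 4195426, [1]), (0, 4195594, [1]), (0, 4202580, [1]), (0, 4202769, [1]), (0, 4259980, [19]), (0, 4260001, [19]), (0, 8390754, [73]), (0, 8390922, [73]), (0, 8405076, [73]), (0, 8405265, [73]), (0, 8519820, [91]), (0, 8519841, [91]), (0, 16777812, [37]), (0, 16777868, [37]), (0, 16781410, [37]), (0, 16781473, [37]), (0, 16810250, [55]), (0, 16810257, [55]), (0, 16842753, [20, 34]), (0, 16842754, [20, 34]), (0, 16842760, [20, 34]), (0, 16842768, [20, 34]), (0, 16908289, [42, 84]), (0, 16908290, [42, 84]), (0, 16908296, [42, 84]), (0, 16908304, [42, 84]), (0, 33555540, [37]), (0, 33555596, [37]), (0, 33562722, [37]), (0, 33562785, [37]), (0, 33587201, [20, 34]), (0, 33587202, [20, 34]), (0, 33587208, [20, 34]), (0, 33587216, [20, 34]), (0, 33620234, [55]), (0, 33620241, [55]), (0, 33685505, [42, 84]), (0, 33685506, [42, 84]), (0, 33685512, [42, 84]), (0, 33685520, [42, 84]), (0, 67110996, [109]), (0, 67111052, [109]), (0, 67125346,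 [109]), (0, 67125409, [109]), (0, 67141633, [28, 98]), (0, 67141634, [28, 98]), (0, 67141640, [28, 98]), (0, 67141648, [28, 98]), (0, 67174401, [28, 98]), (0, 67174402, [28, 98]), (0, 67174408, [28, 98]), (0, 67174416, [28, 98]), (0, 67240202, [127]), (0, 67240209, [127]), (51217920, 16, [0]), (51228672, 2, [0]), (56722944, 8, [0]), (56733696, 1, [0]), (85363200, 16, [8, 64]), (85381120, 2, [8, 64]), (94538240, 8, [8, 64]), (94556160, 1, [8, 64]), (102435840, 16, [8, 64]), (102457344, 2, [8, 64]), (113445888, 8, [8, 64]), (113467392, 1, [8, 64])]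
def k0 : List RecT := [(13851, 67240192, [127]), (13869, 8519808, [91]), (13878, 1179712, [91]), (23067, 33620224, [55]), (23085, 4259968, [19]), (23094, 589888, [19]), (27675, 16810240, [55]), (27693, 2130048, [19]), (27702, 294976, [19]), (100035, 67108864, [28, 98]), (100035, 67125280, [109]), (100165, 8405008, [73]), (100230, 1064968, [73]), (110808, 67108864, [28, 98]), (110808, 67110916, [109]), (110952, 8390658, [73]), (111024, 1050625, [73]), (166595, 33562656, [37]), (166725, 4202512, [1]), (166790, 532488, [1]), (184536, 33555460, [37]), (184680, 4195330, [1]), (184752, 525313, [1]), (199875, 16781344, [37]), (200005, 2101264, [1]), (200070, 266248, [1]), (221400, 16777732, [37]), (221544, 2097666, [1]), (221616, 262657, [1])]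
def k1 : List RecT := [(7077915, 67240192, [127]), (7078083, 67125280, [109]), (7078104, 67110916, [109]), (11796507, 33620224, [55]), (11796675, 33562656, [37]), (11796696, 33555460, [37]), (14155803, 16810240, [55]), (14155971, 16781344, [37]), (14155992, 16777732, [37]), (51118125, 131072, [42, 84]), (51118125, 8519808, [91]), (51118405, 8405008, [73]), (51118440, 8390658, [73]), (56623158, 131072, [42, 84]), (56623158, 1179712, [91]), (56623494, 1064968, [73]), (56623536, 1050625, [73]), (85196845, 4259968, [19]), (85197125, 4202512, [1]), (85197160, 4195330, [1]), (94371894, 589888, [19]), (94372230, 532488, [1]), (94372272, 525313, [1]), (102236205, 2130048, [19]), (102236485, 2101264, [1]), (102236520, 2097666, [1]), (113246262, 294976, [19]), (113246598, 266248, [1]), (113246640, 262657, [1])]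
def k2 : List RecT := [(7091712, 67240192, [127]), (7177728, 67125280, [109]), (7188480, 67110916, [109]), (11819520, 256, [56, 70]), (11819520, 33620224, [55]), (11962880, 33562656, [37]), (11980800, 33555460, [37]), (14183424, 256, [56, 70]), (14183424, 16810240, [55]), (14355456, 16781344, [37]), (14376960, 16777732, [37]), (51131904, 8519808, [91]), (51217920, 8405008, [73]), (51228672, 8390658, [73]), (56636928, 1179712, [91]), (56722944, 1064968, [73]), (56733696, 1050625, [73]), (85219840, 4259968, [19]), (85363200, 4202512, [1]), (85381120, 4195330, [1]), (94394880, 589888, [19]), (94538240, 532488, [1]), (94556160, 525313, [1]), (102263808, 2130048, [19]), (102435840, 2101264, [1]), (102457344, 2097666, [1]), (113273856, 294976, [19]), (113445888, 266248, [1]), (113467392, 262657, [1])]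

/-- search trees -/
inductive Bt where
  | l : Bt
  | n : Bt → Nat → List Nat → Bt → Bt
def Bt.find : Bt → Nat → List Nat
  | .l, _ => []
  | .n a k v b, x => if Nat.beq x k then v else if Nat.blt x k then a.find x else b.find x
inductive Bn where
  | l : Bn
  | n : Bn → Nat → List (Nat × List Nat) → Bn → Bn
def Bn.find : Bn → Nat → List (Nat × List Nat)
  | .l, _ => []
  | .n a k v b, x => if Nat.beq x k then v else if Nat.blt x k then a.find x else b.find x

def bg0 : Bt := (Bt.n (Bt.n (Bt.n (Bt.n (Bt.n (Bt.n (Bt.n Bt.l 264224 [40, 68] Bt.l) 264448 [56, 70] Bt.l) 278532 [40, 68] (Bt.n Bt.l 278784 [56, 70] Bt.l)) 393220 [42, 84] (Bt.n (Bt.n (Bt.n Bt.l 393248 [42, 84] Bt.l) 526368 [40, 68] Bt.l) 526592 [56, 70] (Bt.n Bt.l 540676 [40, 68] Bt.l))) 540928 [56, 70] (Bt.n (Bt.n (Bt.n (Bt.n Bt.l 655364 [42, 84] Bt.l) 655392 [42, 84] Bt.l) 2099232 [40, 68] (Bt.n Bt.l 2099456 [56, 70] Bt.l)) 2113540 [40, 68] (Bt.n (Bt.n (Bt.n Bt.l 2113792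 [56, 70] Bt.l) 2228228 [42, 84] Bt.l) 2228256 [42, 84] (Bt.n Bt.l 4196384 [40, 68] Bt.l)))) 4196608 [56, 70] (Bt.n (Bt.n (Bt.n (Bt.n (Bt.n Bt.l 4210692 [40, 68] Bt.l) 4210944 [56, 70] Bt.l) 4325380 [42, 84] (Bt.n Bt.l 4325408 [42, 84] Bt.l)) 22020612 [37] (Bt.n (Bt.n (Bt.n Bt.l 22021122 [1] Bt.l) 22022145 [73] Bt.l) 22024224 [37] (Bt.n Bt.l 22028304 [1] Bt.l))) 22036488 [73] (Bt.n (Bt.n (Bt.n (Bt.n Bt.l 22053120 [55] Bt.l) 22085760 [19] Bt.l) 22151232 [91] (Bt.n Bt.l 25690628 [37] Bt.l)) 25691137 [1] (Bt.n (Bt.n (Bt.n Bt.l 25692162 [73] Bt.l) 25694240 [37] Bt.l) 25698312 [1] (Bt.n Bt.l 25706512 [73] Bt.l))))) 25723136 [55] (Bt.n (Bt.n (Bt.n (Bt.n (Bt.n (Bt.n Bt.l 25755712 [19] Bt.l) 25821312 [91] Bt.l) 36700674 [1] (Bt.n Bt.l 36701188 [37] Bt.l)) 36702209 [73] (Bt.n (Bt.n (Bt.n Bt.l 36704272 [1] Bt.l) 36708384 [37] Bt.l) 36716552 [73] (Bt.n Bt.l 36733056 [19] Bt.l))) 36765952 [55] (Bt.n (Bt.n (Bt.n (Bt.n Bt.l 36831296 [91] Bt.l)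 42205697 [1] Bt.l) 42206212 [37] (Bt.n Bt.l 42207234 [73] Bt.l)) 42209288 [1] (Bt.n (Bt.n (Bt.n Bt.l 42213408 [37] Bt.l) 42221584 [73] Bt.l) 42238016 [19] (Bt.n Bt.l 42270976 [55] Bt.l)))) 42336384 [91] (Bt.n (Bt.n (Bt.n (Bt.n (Bt.n Bt.l 69730818 [1] Bt.l) 69731329 [1] Bt.l) 69732356 [109] (Bt.n Bt.l 69734416 [1] Bt.l)) 69738504 [1] (Bt.n (Bt.n (Bt.n Bt.l 69746720 [109] Bt.l) 69763200 [19] Bt.l) 69795904 [19] (Bt.n Bt.l 69861632 [127] Bt.l))) 71565825 [1] (Bt.n (Bt.n (Bt.n (Bt.n Bt.l 71566338 [1] Bt.l) 71567364 [109] Bt.l) 71569416 [1] (Bt.n Bt.l 71573520 [1] Bt.l)) 71581728 [109] (Bt.n (Bt.n Bt.l 71598144 [19] Bt.l) 71630976 [19] (Bt.n Bt.l 71696640 [127] Bt.l))))))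
def bg1 : Bt := (Bt.n (Bt.n (Bt.n (Bt.n (Bt.n (Bt.n (Bt.n Bt.l 305216 [19] Bt.l) 312384 [19] Bt.l) 333832 [1] (Bt.n Bt.l 344577 [1] Bt.l)) 398344 [1] (Bt.n (Bt.n (Bt.n Bt.l 401921 [1] Bt.l) 567304 [1] Bt.l) 574465 [1] (Bt.n Bt.l 596032 [19] Bt.l))) 606784 [19] (Bt.n (Bt.n (Bt.n (Bt.n Bt.l 660481 [1] Bt.l) 664072 [1] Bt.l) 1049216 [24, 66] (Bt.n Bt.l 1049344 [56, 70] Bt.l)) 1049728 [24, 66] (Bt.n (Bt.n (Bt.n Bt.l 1049856 [56, 70] Bt.l) 1052800 [24, 66] Bt.l) 1052928 [56, 70] (Bt.n Bt.l 1056896 [24, 66] Bt.l)))) 1057024 [56, 70] (Bt.n (Bt.n (Bt.n (Bt.n (Bt.n Bt.l 1091585 [73] Bt.l) 1098760 [73] Bt.l) 1120257 [73] (Bt.n Bt.l 1131016 [73] Bt.l)) 1184832 [91] (Bt.n (Bt.n (Bt.n Bt.l 1188416 [91] Bt.l) 2140288 [19] Bt.l) 2147456 [19] (Bt.n Bt.l 2168848 [1] Bt.l))) 2179586 [1] (Bt.n (Bt.n (Bt.n (Bt.n Bt.l 2233360 [1] Bt.l) 2236930 [1] Bt.l) 4237328 [1] (Bt.n Bt.l 4244482 [1] Bt.l)) 4266112 [19] (Bt.n (Bt.n (Bt.n Bt.l 4276864 [19] Bt.l)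 4330498 [1] Bt.l) 4334096 [1] (Bt.n Bt.l 8389184 [24, 66] Bt.l))))) 8389376 [56, 70] (Bt.n (Bt.n (Bt.n (Bt.n (Bt.n (Bt.n Bt.l 8389696 [24, 66] Bt.l) 8389888 [56, 70] Bt.l) 8392768 [24, 66] (Bt.n Bt.l 8392960 [56, 70] Bt.l)) 8396864 [24, 66] (Bt.n (Bt.n (Bt.n Bt.l 8397056 [56, 70] Bt.l) 8431618 [73] Bt.l) 8438800 [73] (Bt.n Bt.l 8460290 [73] Bt.l))) 8471056 [73] (Bt.n (Bt.n (Bt.n (Bt.n Bt.l 8524928 [91] Bt.l) 8528512 [91] Bt.l) 16820480 [55] (Bt.n Bt.l 16827648 [55] Bt.l)) 16848928 [37] (Bt.n (Bt.n (Bt.n Bt.l 16859652 [37] Bt.l) 16913440 [37] Bt.l) 16916996 [37] (Bt.n Bt.l 33597472 [37] Bt.l)))) 33604612 [37] (Bt.n (Bt.n (Bt.n (Bt.n (Bt.n Bt.l 33626368 [55] Bt.l) 33637120 [55] Bt.l) 33690628 [37] (Bt.n Bt.l 33694240 [37] Bt.l)) 67109440 [28, 98] (Bt.n (Bt.n (Bt.n Bt.l 67109504 [28, 98] Bt.l) 67109952 [28, 98] Bt.l) 67110016 [28, 98] (Bt.n Bt.l 67113024 [28, 98] Bt.l))) 67113088 [28, 98] (Bt.n (Bt.n (Bt.n (Bt.n Bt.l 67117120 [28,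 98] Bt.l) 67117184 [28, 98] Bt.l) 67151876 [109] (Bt.n Bt.l 67159072 [109] Bt.l)) 67180548 [109] (Bt.n (Bt.n Bt.l 67191328 [109] Bt.l) 67245312 [127] (Bt.n Bt.l 67248896 [127] Bt.l))))))
def bg2 : Bt := (Bt.n (Bt.n (Bt.n (Bt.n (Bt.n (Bt.n (Bt.n Bt.l 262817 [1] Bt.l) 262929 [1] Bt.l) 266380 [1] (Bt.n Bt.l 266506 [1] Bt.l)) 294996 [19] (Bt.n (Bt.n (Bt.n Bt.l 295010 [19] Bt.l) 525473 [1] Bt.l) 525585 [1] (Bt.n Bt.l 532620 [1] Bt.l))) 532746 [1] (Bt.n (Bt.n (Bt.n (Bt.n Bt.l 589908 [19] Bt.l) 589922 [19] Bt.l) 1050785 [73] (Bt.n Bt.l 1050897 [73] Bt.l)) 1065100 [73] (Bt.n (Bt.n (Bt.n Bt.l 1065226 [73] Bt.l) 1179732 [91] Bt.l) 1179746 [91] (Bt.n Bt.l 2097762 [1] Bt.l)))) 2097930 [1] (Bt.n (Bt.n (Bt.n (Bt.n (Bt.n Bt.l 2101332 [1] Bt.l) 2101521 [1] Bt.l) 2130060 [19] (Bt.n Bt.l 2130081 [19] Bt.l)) 4195426 [1] (Bt.n (Bt.n (Bt.n Bt.l 4195594 [1] Bt.l) 4202580 [1] Bt.l) 4202769 [1] (Bt.n Bt.l 4259980 [19] Bt.l))) 4260001 [19] (Bt.n (Bt.n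 (Bt.n (Bt.n Bt.l 8390754 [73] Bt.l) 8390922 [73] Bt.l) 8405076 [73] (Bt.n Bt.l 8405265 [73] Bt.l)) 8519820 [91] (Bt.n (Bt.n (Bt.n Bt.l 8519841 [91] Bt.l) 16777812 [37] Bt.l) 16777868 [37] (Bt.n Bt.l 16781410 [37] Bt.l))))) 16781473 [37] (Bt.n (Bt.n (Bt.n (Bt.n (Bt.n (Bt.n Bt.l 16810250 [55] Bt.l) 16810257 [55] Bt.l) 16842753 [20, 34] (Bt.n Bt.l 16842754 [20, 34] Bt.l)) 16842760 [20, 34] (Bt.n (Bt.n (Bt.n Bt.l 16842768 [20, 34] Bt.l) 16908289 [42, 84] Bt.l) 16908290 [42, 84] (Bt.n Bt.l 16908296 [42, 84] Bt.l))) 16908304 [42, 84] (Bt.n (Bt.n (Bt.n (Bt.n Bt.l 33555540 [37] Bt.l) 33555596 [37] Bt.l) 33562722 [37] (Bt.n Bt.l 33562785 [37] Bt.l)) 33587201 [20, 34] (Bt.n (Bt.n (Bt.n Bt.l 33587202 [20, 34] Bt.l) 33587208 [20, 34] Bt.l) 33587216 [20, 34] (Bt.n Bt.l 33620234 [55] Bt.l)))) 33620241 [55] (Bt.n (Bt.n (Bt.n (Bt.n (Bt.n Bt.l 33685505 [42, 84] Bt.l) 33685506 [42, 84] Bt.l) 33685512 [42, 84] (Bt.n Bt.l 33685520 [42, 84] Bt.l))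 67110996 [109] (Bt.n (Bt.n (Bt.n Bt.l 67111052 [109] Bt.l) 67125346 [109] Bt.l) 67125409 [109] (Bt.n Bt.l 67141633 [28, 98] Bt.l))) 67141634 [28, 98] (Bt.n (Bt.n (Bt.n (Bt.n Bt.l 67141640 [28, 98] Bt.l) 67141648 [28, 98] Bt.l) 67174401 [28, 98] (Bt.n Bt.l 67174402 [28, 98] Bt.l)) 67174408 [28, 98] (Bt.n (Bt.n Bt.l 67174416 [28, 98] Bt.l) 67240202 [127] (Bt.n Bt.l 67240209 [127] Bt.l))))))
def tg0 : Bn := (Bn.n (Bn.n (Bn.n (Bn.n Bn.l 0 [(264224, [40, 68]), (264448, [56, 70]), (278532, [40, 68]), (278784, [56, 70]), (393220, [42, 84]), (393248, [42, 84]), (526368, [40, 68]), (526592, [56, 70]), (540676, [40, 68]), (540928, [56, 70]), (655364, [42, 84]), (655392, [42, 84]), (2099232, [40, 68]), (2099456, [56, 70]), (2113540, [40, 68]), (2113792, [56, 70]), (2228228, [42, 84]), (2228256, [42, 84]), (4196384, [40, 68]), (4196608, [56, 70]), (4210692, [40, 68]), (4210944, [56, 70]), (4325380, [42, 84]), (4325408, [42, 84]), (22020612,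 [37]), (22021122, [1]), (22022145, [73]), (22024224, [37]), (22028304, [1]), (22036488, [73]), (22053120, [55]), (22085760, [19]), (22151232, [91]), (25690628, [37]), (25691137, [1]), (25692162, [73]), (25694240, [37]), (25698312, [1]), (25706512, [73]), (25723136, [55]), (25755712, [19]), (25821312, [91]), (36700674, [1]), (36701188, [37]), (36702209, [73]), (36704272, [1]), (36708384, [37]), (36716552, [73]), (36733056, [19]), (36765952, [55]), (36831296, [91]), (42205697, [1]), (42206212, [37]), (42207234, [73]), (42209288, [1]), (42213408, [37]), (42221584, [73]), (42238016, [19]), (42270976, [55]), (42336384, [91]), (69730818, [1]), (69731329, [1]), (69732356, [109]), (69734416, [1]), (69738504, [1]), (69746720, [109]), (69763200, [19]), (69795904, [19]), (69861632, [127]), (71565825, [1]), (71566338, [1]), (71567364, [109]), (71569416, [1]), (71573520, [1]), (71581728, [109]), (71598144, [19]), (71630976, [19]), (71696640,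 [127])] Bn.l) 23085 [(4194304, [0])] (Bn.n Bn.l 23094 [(524288, [0])] Bn.l)) 27693 [(2097152, [0])] (Bn.n (Bn.n Bn.l 27702 [(262144, [0])] Bn.l) 166725 [(4194304, [2, 16])] Bn.l)) 166790 [(524288, [2, 16])] (Bn.n (Bn.n (Bn.n Bn.l 184680 [(4194304, [2, 16])] Bn.l) 184752 [(524288, [2, 16])] (Bn.n Bn.l 200005 [(2097152, [2, 16])] Bn.l)) 200070 [(262144, [2, 16])] (Bn.n (Bn.n Bn.l 221544 [(2097152, [2, 16])] Bn.l) 221616 [(262144, [2, 16])] Bn.l)))
def tg1 : Bn := (Bn.n (Bn.n (Bn.n (Bn.n Bn.l 0 [(305216, [19]), (312384, [19]), (333832, [1]), (344577, [1]), (398344, [1]), (401921, [1]), (567304, [1]), (574465, [1]), (596032, [19]), (606784, [19]), (660481, [1]), (664072, [1]), (1049216, [24, 66]), (1049344, [56, 70]), (1049728, [24, 66]), (1049856, [56, 70]), (1052800, [24, 66]), (1052928, [56, 70]), (1056896, [24, 66]), (1057024, [56, 70]), (1091585, [73]), (1098760, [73]), (1120257, [73]), (1131016, [73]), (1184832, [91]), (1188416,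 [91]), (2140288, [19]), (2147456, [19]), (2168848, [1]), (2179586, [1]), (2233360, [1]), (2236930, [1]), (4237328, [1]), (4244482, [1]), (4266112, [19]), (4276864, [19]), (4330498, [1]), (4334096, [1]), (8389184, [24, 66]), (8389376, [56, 70]), (8389696, [24, 66]), (8389888, [56, 70]), (8392768, [24, 66]), (8392960, [56, 70]), (8396864, [24, 66]), (8397056, [56, 70]), (8431618, [73]), (8438800, [73]), (8460290, [73]), (8471056, [73]), (8524928, [91]), (8528512, [91]), (16820480, [55]), (16827648, [55]), (16848928, [37]), (16859652, [37]), (16913440, [37]), (16916996, [37]), (33597472, [37]), (33604612, [37]), (33626368, [55]), (33637120, [55]), (33690628, [37]), (33694240, [37]), (67109440, [28, 98]), (67109504, [28, 98]), (67109952, [28, 98]), (67110016, [28, 98]), (67113024, [28, 98]), (67113088, [28, 98]), (67117120, [28, 98]), (67117184, [28, 98]), (67151876, [109]), (67159072, [109]), (67180548, [109]), (67191328, [109]),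 (67245312, [127]), (67248896, [127])] Bn.l) 11796675 [(8192, [0])] (Bn.n Bn.l 11796696 [(1024, [0])] Bn.l)) 14155971 [(4096, [0])] (Bn.n (Bn.n Bn.l 14155992 [(512, [0])] Bn.l) 85197125 [(8192, [4, 32])] Bn.l)) 85197160 [(1024, [4, 32])] (Bn.n (Bn.n (Bn.n Bn.l 94372230 [(8192, [4, 32])] Bn.l) 94372272 [(1024, [4, 32])] (Bn.n Bn.l 102236485 [(4096, [4, 32])] Bn.l)) 102236520 [(512, [4, 32])] (Bn.n (Bn.n Bn.l 113246598 [(4096, [4, 32])] Bn.l) 113246640 [(512, [4, 32])] Bn.l)))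
def tg2 : Bn := (Bn.n (Bn.n (Bn.n (Bn.n Bn.l 0 [(262817, [1]), (262929, [1]), (266380, [1]), (266506, [1]), (294996, [19]), (295010, [19]), (525473, [1]), (525585, [1]), (532620, [1]), (532746, [1]), (589908, [19]), (589922, [19]), (1050785, [73]), (1050897, [73]), (1065100, [73]), (1065226, [73]), (1179732, [91]), (1179746, [91]), (2097762, [1]), (2097930, [1]), (2101332, [1]), (2101521, [1]), (2130060, [19]), (2130081, [19]), (4195426, [1]), (4195594, [1]), (4202580, [1]), (4202769, [1]), (4259980, [19]), (4260001, [19]), (8390754, [73]), (8390922, [73]), (8405076, [73]), (8405265, [73]), (8519820, [91]), (8519841, [91]), (16777812, [37]), (16777868, [37]), (16781410, [37]), (16781473, [37]), (16810250, [55]), (16810257, [55]), (16842753, [20, 34]), (16842754, [20, 34]), (16842760, [20, 34]), (16842768, [20, 34]), (16908289, [42, 84]), (16908290, [42, 84]), (16908296, [42, 84]), (16908304, [42, 84]), (33555540, [37]), (33555596,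 [37]), (33562722, [37]), (33562785, [37]), (33587201, [20, 34]), (33587202, [20, 34]), (33587208, [20, 34]), (33587216, [20, 34]), (33620234, [55]), (33620241, [55]), (33685505, [42, 84]), (33685506, [42, 84]), (33685512, [42, 84]), (33685520, [42, 84]), (67110996, [109]), (67111052, [109]), (67125346, [109]), (67125409, [109]), (67141633, [28, 98]), (67141634, [28, 98]), (67141640, [28, 98]), (67141648, [28, 98]), (67174401, [28, 98]), (67174402, [28, 98]), (67174408, [28, 98]), (67174416, [28, 98]), (67240202, [127]), (67240209, [127])] Bn.l) 51217920 [(16, [0])] (Bn.n Bn.l 51228672 [(2, [0])] Bn.l)) 56722944 [(8, [0])] (Bn.n (Bn.n Bn.l 56733696 [(1, [0])] Bn.l) 85363200 [(16, [8, 64])] Bn.l)) 85381120 [(2, [8, 64])] (Bn.n (Bn.n (Bn.n Bn.l 94538240 [(8, [8, 64])] Bn.l) 94556160 [(1, [8, 64])] (Bn.n Bn.l 102435840 [(16, [8, 64])] Bn.l)) 102457344 [(2, [8, 64])] (Bn.n (Bn.n Bn.l 113445888 [(8, [8, 64])] Bn.l) 113467392 [(1, [8,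 64])] Bn.l)))
def tk0 : Bn := (Bn.n (Bn.n (Bn.n (Bn.n (Bn.n Bn.l 13851 [(67240192, [127])] Bn.l) 13869 [(8519808, [91])] (Bn.n Bn.l 13878 [(1179712, [91])] Bn.l)) 23067 [(33620224, [55])] (Bn.n (Bn.n Bn.l 23085 [(4259968, [19])] Bn.l) 23094 [(589888, [19])] Bn.l)) 27675 [(16810240, [55])] (Bn.n (Bn.n (Bn.n Bn.l 27693 [(2130048, [19])] Bn.l) 27702 [(294976, [19])] (Bn.n Bn.l 100035 [(67108864, [28, 98]), (67125280, [109])] Bn.l)) 100165 [(8405008, [73])] (Bn.n (Bn.n Bn.l 100230 [(1064968, [73])] Bn.l) 110808 [(67108864, [28, 98]), (67110916, [109])] Bn.l))) 110952 [(8390658, [73])] (Bn.n (Bn.n (Bn.n (Bn.n Bn.l 111024 [(1050625, [73])] Bn.l) 166595 [(33562656, [37])] (Bn.n Bn.l 166725 [(4202512, [1])] Bn.l)) 166790 [(532488, [1])] (Bn.n (Bn.n Bn.l 184536 [(33555460, [37])] Bn.l) 184680 [(4195330, [1])] Bn.l)) 184752 [(525313, [1])] (Bn.n (Bn.n (Bn.n Bn.l 199875 [(16781344, [37])] Bn.l) 200005 [(2101264, [1])] (Bn.n Bn.l 200070 [(266248,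 [1])] Bn.l)) 221400 [(16777732, [37])] (Bn.n (Bn.n Bn.l 221544 [(2097666, [1])] Bn.l) 221616 [(262657, [1])] Bn.l))))
def tk1 : Bn := (Bn.n (Bn.n (Bn.n (Bn.n (Bn.n Bn.l 7077915 [(67240192, [127])] Bn.l) 7078083 [(67125280, [109])] (Bn.n Bn.l 7078104 [(67110916, [109])] Bn.l)) 11796507 [(33620224, [55])] (Bn.n (Bn.n Bn.l 11796675 [(33562656, [37])] Bn.l) 11796696 [(33555460, [37])] Bn.l)) 14155803 [(16810240, [55])] (Bn.n (Bn.n (Bn.n Bn.l 14155971 [(16781344, [37])] Bn.l) 14155992 [(16777732, [37])] (Bn.n Bn.l 51118125 [(131072, [42, 84]), (8519808, [91])] Bn.l)) 51118405 [(8405008, [73])] (Bn.n (Bn.n Bn.l 51118440 [(8390658, [73])] Bn.l) 56623158 [(131072, [42, 84]), (1179712, [91])] Bn.l))) 56623494 [(1064968, [73])] (Bn.n (Bn.n (Bn.n (Bn.n Bn.l 56623536 [(1050625, [73])] Bn.l) 85196845 [(4259968, [19])] (Bn.n Bn.l 85197125 [(4202512, [1])] Bn.l)) 85197160 [(4195330, [1])] (Bn.n (Bn.n Bn.l 94371894 [(589888, [19])] Bn.l) 94372230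 [(532488, [1])] Bn.l)) 94372272 [(525313, [1])] (Bn.n (Bn.n (Bn.n Bn.l 102236205 [(2130048, [19])] Bn.l) 102236485 [(2101264, [1])] (Bn.n Bn.l 102236520 [(2097666, [1])] Bn.l)) 113246262 [(294976, [19])] (Bn.n (Bn.n Bn.l 113246598 [(266248, [1])] Bn.l) 113246640 [(262657, [1])] Bn.l))))
def tk2 : Bn := (Bn.n (Bn.n (Bn.n (Bn.n (Bn.n Bn.l 7091712 [(67240192, [127])] Bn.l) 7177728 [(67125280, [109])] (Bn.n Bn.l 7188480 [(67110916, [109])] Bn.l)) 11819520 [(256, [56, 70]), (33620224, [55])] (Bn.n (Bn.n Bn.l 11962880 [(33562656, [37])] Bn.l) 11980800 [(33555460, [37])] Bn.l)) 14183424 [(256, [56, 70]), (16810240, [55])] (Bn.n (Bn.n (Bn.n Bn.l 14355456 [(16781344, [37])] Bn.l) 14376960 [(16777732, [37])] (Bn.n Bn.l 51131904 [(8519808, [91])] Bn.l)) 51217920 [(8405008, [73])] (Bn.n (Bn.n Bn.l 51228672 [(8390658, [73])] Bn.l) 56636928 [(1179712, [91])] Bn.l))) 56722944 [(1064968, [73])] (Bn.n (Bn.n (Bn.n (Bn.n Bn.l 56733696 [(1050625,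 [73])] Bn.l) 85219840 [(4259968, [19])] (Bn.n Bn.l 85363200 [(4202512, [1])] Bn.l)) 85381120 [(4195330, [1])] (Bn.n (Bn.n Bn.l 94394880 [(589888, [19])] Bn.l) 94538240 [(532488, [1])] Bn.l)) 94556160 [(525313, [1])] (Bn.n (Bn.n (Bn.n Bn.l 102263808 [(2130048, [19])] Bn.l) 102435840 [(2101264, [1])] (Bn.n Bn.l 102457344 [(2097666, [1])] Bn.l)) 113273856 [(294976, [19])] (Bn.n (Bn.n Bn.l 113445888 [(266248, [1])] Bn.l) 113467392 [(262657, [1])] Bn.l))))

/-- the records of given fixed point numbers -/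
def grp : Nat → List RecT
  | 0 => g0 | 1 => g1 | 2 => g2 | 3 => k0 | 4 => k1 | _ => k2
def mv : Nat → Nat × Nat × Nat
  | 0 => (4, 0, 0) | 1 => (0, 4, 0) | 2 => (0, 0, 4) | 3 => (0, 2, 2) | 4 => (2, 0, 2) | _ => (2, 2, 0)
def bgrp : Nat → Bt
  | 0 => bg0 | 1 => bg1 | 2 => bg2 | _ => Bt.l
def tgrp : Nat → Bn
  | 0 => tg0 | 1 => tg1 | 2 => tg2 | 3 => tk0 | 4 => tk1 | _ => tk2
def tgt : Nat := 263184
/-- parity condition for three records (sum of the contributions is `2` mod 4 at the target entries, else `0`) -/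
def par (a b c : RecT) : Bool :=
  (a.1 ^^^ b.1 ^^^ c.1) == 0 &&
  (((a.2.1 ^^^ b.2.1 ^^^ c.2.1 ^^^ tgt) ||| (a.1 ||| b.1 ||| c.1)) == (a.1 ||| b.1 ||| c.1))
def one? (x : Nat) : Option Nat :=
  if x == 1 then some 0 else if x == 2 then some 1 else if x == 4 then some 2 else none
def cntE (l : List Nat) (r : Nat) : Nat := (l.filter (· == r)).length
/-- the 96 patterns -/
def goodB (a0 d0 a1 d1 a2 d2 : Nat) : Bool :=
  let l := [a0, d0, a1, d1, a2, d2]
  let n0 := cntE l 0; let n1 := cntE l 1; let n2 := cntE l 2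
  (n0 == 4 && n1 == 1 && n2 == 1) || (n0 == 1 && n1 == 4 && n2 == 1) || (n0 == 1 && n1 == 1 && n2 == 4) ||
  (n0 == 2 && n1 == 2 && n2 == 2 && a0 == d0 && a1 == d1 && a2 == d2)
def dec1 (b : Nat) : Option (Nat × Nat) :=
  match one? (b / 2 % 8), one? (b / 16 % 8) with
  | some x, some y => if (b % 2 == 1) == (x == y) then some (x, y) else none
  | _, _ => none
def patB (a b c : Nat) : Bool :=
  match dec1 a, dec1 b, dec1 c with
  | some (x, x'), some (y, y'), some (z, z') => goodB x x' y y' z z'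
  | _, _, _ => false
def P3 (a b c : List Nat) : Bool := a.all fun x => b.all fun y => c.all fun z => patB x y z
/-- all candidates (their `bits`) for the third record -/
def cands (g n1 t m : Nat) : List (List Nat) :=
  if n1 == 0 && m == 0 then [(bgrp g).find t]
  else (((tgrp g).find n1).filter fun c => Nat.beq ((t ^^^ c.1) ||| m) m).map fun c => c.2
def chk (g g' g'' : Nat) : Bool :=
  (grp g).all fun a => (grp g').all fun b =>
    let n1 := a.1 ^^^ b.1
    (cands g'' n1 (a.2.1 ^^^ b.2.1 ^^^ tgt) (a.1 ||| b.1 ||| n1)).all fun z => P3 a.2.2 b.2.2 z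

end Pool.Agent.H23.CG
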