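import Pool.Agent.H23.CG.Grd
import Pool.Agent.H23.CG.Frm
import Pool.Agent.H23.CG.Fin19
import Pool.Agent.H23.CG.Rela

/-!
VERT. At most 18 grids through a vertex.

`F` from `exists_frame`. By `grid_box` the sets `S` are contained in the image of `{(i,j) | i < j ∧ Gp i j}` under `(i,j) ↦ box i j`, so their number is at most `n = {p | p.1 < p.2 ∧ Gp p.1 p.2}.ncard`. There are 21 pairs `i < j`; if `n ≥ 19` then at most two
pairs `i < j` have `N i j := ¬ Gp i j` (symmetric by `Gp_symm`). `normal_position` gives `π`, and `F.perm π` contradicts `no19_1` or `no19_2` (`(F.perm π).Gp i j` is `F.Gp (π i) (π j)`).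
-/

set_option autoImplicit false
namespace Pool.Agent.H23.CG
open SimpleGraph

private theorem vert_21 : {p : Fin 7 × Fin 7 | p.1 < p.2}.ncard = 21 := by
  rw [Set.ncard_eq_toFinset_card']
  decide

theorem vertex_bound {G : SimpleGraph (Fin 99)} (h : Is99 G) (v : Fin 99) :
    {S : Set (Fin 99) | v ∈ S ∧ IsGrid G S}.ncard ≤ 18 := by
  obtain ⟨F⟩ := exists_frame h v
  have h1 : {S : Set (Fin 99) | v ∈ S ∧ IsGrid G S} ⊆
      (fun p : Fin 7 × Fin 7 => F.box p.1 p.2) '' {p | p.1 < p.2 ∧ F.Gp p.1 p.2} := by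
    rintro S ⟨hv, hS⟩
    obtain ⟨i, j, hij, hg, rfl⟩ := grid_box h F S hS hv
    exact ⟨(i, j), ⟨hij, hg⟩, rfl⟩
  have h2 : {S : Set (Fin 99) | v ∈ S ∧ IsGrid G S}.ncard ≤
      {p : Fin 7 × Fin 7 | p.1 < p.2 ∧ F.Gp p.1 p.2}.ncard :=
    (Set.ncard_le_ncard h1 (Set.toFinite _)).trans (Set.ncard_image_le (Set.toFinite _))
  by_contra hcon
  have h3 : {p : Fin 7 × Fin 7 | p.1 < p.2 ∧ F.Gp p.1 p.2} ∪
      {p : Fin 7 × Fin 7 | p.1 < p.2 ∧ ¬ F.Gp p.1 p.2} = {p : Fin 7 × Fin 7 | p.1 < p.2} := by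
    ext p
    constructor
    · rintro (h | h)
      · exact h.1
      · exact h.1
    · intro hp
      by_cases hg : F.Gp p.1 p.2
      · exact Or.inl ⟨hp, hg⟩
      · exact Or.inr ⟨hp, hg⟩
  have h4 : Disjoint {p : Fin 7 × Fin 7 | p.1 < p.2 ∧ F.Gp p.1 p.2}
      {p : Fin 7 × Fin 7 | p.1 < p.2 ∧ ¬ F.Gp p.1 p.2} := by
    rw [Set.disjoint_left]
    exact fun p hp hp' => hp'.2 hp.2
  have h5 := Set.ncard_union_eq h4 (Set.toFinite _) (Set.toFinite _)
  rw [h3, vert_21] at h5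
  obtain ⟨π, h6 | h6⟩ := normal_position (fun i j => ¬ F.Gp i j)
    (fun i j hn hg => hn (F.Gp_symm hg)) (by omega)
  · exact no19_1 h (F.perm π) fun i j h7 h8 h9 h10 h11 => not_not.1 (h6 i j h7 h8 h9 h10 h11)
  · exact no19_2 h (F.perm π) fun i j h7 h8 h9 h10 h11 => not_not.1 (h6 i j h7 h8 h9 h10 h11)

end Pool.Agent.H23.CG
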